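import Mathlib

/-!
General Hilbert space lemmas: weak limits along ultrafilters, eigenvectors of unitaries of finite
order, surjectivity of normal operators bounded below.
-/

open scoped ComplexConjugate ENNReal Topology
open Filter

namespace MPaf71ff

section
variable {K : Type*} [NormedAddCommGroup K] [InnerProductSpace ℂ K] [CompleteSpace K]

lemma exists_lim (f : ℕ → ℂ) (C : ℝ) (hf : ∀ n, ‖f n‖ ≤ C) (𝒰 : Ultrafilter ℕ) :
    ∃ z, Tendsto f 𝒰 (𝓝 z) := by
  have hc : IsCompact (Metric.closedBall (0 : ℂ) C) := isCompact_closedBall 0 C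
  have h1 : ((𝒰.map f : Ultrafilter ℂ) : Filter ℂ) ≤ 𝓟 (Metric.closedBall (0 : ℂ) C) := by
    rw [le_principal_iff, Ultrafilter.coe_map]
    exact Filter.mem_map.mpr (Filter.Eventually.of_forall (fun n => by simpa using hf n))
  obtain ⟨z, _, hz⟩ := hc.ultrafilter_le_nhds _ h1
  exact ⟨z, hz⟩

/-- weak limits of bounded sequences of vectors -/
lemma exists_vlim (w : ℕ → K) (C : ℝ) (hw : ∀ n, ‖w n‖ ≤ C) (𝒰 : Ultrafilter ℕ) :
    ∃ w' : K, ‖w'‖ ≤ C ∧ ∀ x, Tendsto (fun n => inner ℂ x (w n)) 𝒰 (𝓝 (inner ℂ x w')) := by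
  have hC : 0 ≤ C := (norm_nonneg _).trans (hw 0)
  have h1 : ∀ x, ∃ z, Tendsto (fun n => inner ℂ (w n) x) 𝒰 (𝓝 z) := fun x =>
    exists_lim _ (C * ‖x‖) (fun n => (norm_inner_le_norm _ _).trans (by gcongr; exact hw n)) 𝒰
  choose L hL using h1
  have hLb : ∀ x, ‖L x‖ ≤ C * ‖x‖ := fun x =>
    le_of_tendsto (hL x).norm (Filter.Eventually.of_forall fun n =>
      (norm_inner_le_norm _ _).trans (by gcongr; exact hw n))
  let f : K →ₗ[ℂ] ℂ :=
    { toFun := L
      map_add' := fun x y => by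
        refine tendsto_nhds_unique (hL (x + y)) ?_
        simp only [inner_add_right]
        exact (hL x).add (hL y)
      map_smul' := fun c x => by
        refine tendsto_nhds_unique (hL (c • x)) ?_
        simp only [inner_smul_right]
        exact (hL x).const_mul c }
  let F : K →L[ℂ] ℂ := f.mkContinuous C hLb
  refine ⟨(InnerProductSpace.toDual ℂ K).symm F, ?_, fun x => ?_⟩
  · rw [LinearIsometryEquiv.norm_map]
    exact LinearMap.mkContinuous_norm_le _ hC _
  · have h2 : inner ℂ x ((InnerProductSpace.toDual ℂ K).symm F) = conj (L x) := by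
      rw [← inner_conj_symm, InnerProductSpace.toDual_symm_apply]
      rfl
    rw [h2]
    have h3 := (Complex.continuous_conj.tendsto _).comp (hL x)
    refine h3.congr (fun n => ?_)
    simp only [Function.comp]
    rw [inner_conj_symm]

/-- weak operator limits of bounded sequences -/
lemma exists_wlim (A : ℕ → K →L[ℂ] K) (C : ℝ) (hA : ∀ n, ‖A n‖ ≤ C) (𝒰 : Ultrafilter ℕ) :
    ∃ A' : K →L[ℂ] K, ∀ x y, Tendsto (fun n => inner ℂ x (A n y)) 𝒰 (𝓝 (inner ℂ x (A' y))) := by
  have hC : 0 ≤ C := (norm_nonneg _).trans (hA 0)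
  have h1 : ∀ y, ∃ w' : K, ‖w'‖ ≤ C * ‖y‖ ∧
      ∀ x, Tendsto (fun n => inner ℂ x (A n y)) 𝒰 (𝓝 (inner ℂ x w')) := fun y =>
    exists_vlim (fun n => A n y) (C * ‖y‖)
      (fun n => ((A n).le_opNorm y).trans (by gcongr; exact hA n)) 𝒰
  choose L hLb hL using h1
  let f : K →ₗ[ℂ] K :=
    { toFun := L
      map_add' := fun x y => by
        refine ext_inner_left ℂ (fun v => ?_)
        refine tendsto_nhds_unique (hL (x + y) v) ?_
        simp only [inner_add_right, map_add]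
        exact (hL x v).add (hL y v)
      map_smul' := fun c x => by
        refine ext_inner_left ℂ (fun v => ?_)
        refine tendsto_nhds_unique (hL (c • x) v) ?_
        simp only [inner_smul_right, map_smul, RingHom.id_apply]
        exact (hL x v).const_mul c }
  exact ⟨f.mkContinuous C hLb, fun x y => hL y x⟩

lemma unitary_inner (U : K →L[ℂ] K) (hU : U ∈ unitary (K →L[ℂ] K)) (x y : K) :
    inner ℂ (U x) (U y) = inner ℂ x y := by
  have h := (Unitary.mem_iff.mp hU).1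
  rw [← ContinuousLinearMap.adjoint_inner_right, ← ContinuousLinearMap.star_eq_adjoint,
    ← mul_apply_eq_comp, h]
  rfl

lemma unitary_norm (U : K →L[ℂ] K) (hU : U ∈ unitary (K →L[ℂ] K)) (x : K) : ‖U x‖ = ‖x‖ := by
  have h := unitary_inner U hU x x
  rw [inner_self_eq_norm_sq_to_K, inner_self_eq_norm_sq_to_K] at h
  have h2 : ‖U x‖ ^ 2 = ‖x‖ ^ 2 := by exact_mod_cast h
  exact (sq_eq_sq₀ (norm_nonneg _) (norm_nonneg _)).mp h2

lemma unitary_opNorm (U : K →L[ℂ] K) (hU : U ∈ unitary (K →L[ℂ] K)) : ‖U‖ ≤ 1 :=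
  ContinuousLinearMap.opNorm_le_bound _ zero_le_one (fun x => by rw [unitary_norm U hU, one_mul])

omit [CompleteSpace K] in
/-- a variant of Bessel's inequality -/
lemma bessel {ι : Type*} (s : Finset ι) (w : ι → K) (M : ℝ)
    (horth : ∀ i ∈ s, ∀ j ∈ s, i ≠ j → inner ℂ (w i) (w j) = 0)
    (hM : ∀ i ∈ s, ‖w i‖ ^ 2 ≤ M) (hM0 : 0 ≤ M) (η : K) :
    ∑ i ∈ s, ‖inner ℂ η (w i)‖ ^ 2 ≤ M * ‖η‖ ^ 2 := by
  classical
  set Q := ∑ i ∈ s, ‖inner ℂ η (w i)‖ ^ 2 with hQ
  have hQ0 : 0 ≤ Q := Finset.sum_nonneg fun _ _ => by positivity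
  set y := ∑ i ∈ s, (inner ℂ (w i) η : ℂ) • w i with hy
  have h1 : ‖y‖ ^ 2 ≤ M * Q := by
    have h2 : inner ℂ y y = ∑ i ∈ s, ((‖(inner ℂ η (w i) : ℂ)‖ ^ 2 * ‖w i‖ ^ 2 : ℝ) : ℂ) := by
      rw [hy, sum_inner]
      apply Finset.sum_congr rfl
      intro i hi
      rw [inner_sum, Finset.sum_eq_single i]
      · rw [inner_smul_left, inner_smul_right, inner_self_eq_norm_sq_to_K, ← inner_conj_symm (w i) η]
        rw [Complex.conj_conj, ← mul_assoc, mul_comm (inner ℂ η (w i) : ℂ) (conj _), ← Complex.normSq_eq_conj_mul_self,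
          Complex.normSq_eq_norm_sq]
        push_cast; rfl
      · intro j hj hij
        rw [inner_smul_left, inner_smul_right, horth i hi j hj hij.symm, mul_zero, mul_zero]
      · intro h; exact absurd hi h
    rw [inner_self_eq_norm_sq_to_K] at h2
    have h3 : ‖y‖ ^ 2 = ∑ i ∈ s, ‖(inner ℂ η (w i) : ℂ)‖ ^ 2 * ‖w i‖ ^ 2 := by
      apply Complex.ofReal_injective
      rw [Complex.ofReal_sum, ← h2]
      push_cast
      rfl
    rw [h3, hQ, Finset.mul_sum]
    apply Finset.sum_le_sum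
    intro i hi
    rw [mul_comm]
    exact mul_le_mul_of_nonneg_right (hM i hi) (by positivity)
  have h4 : (inner ℂ η y : ℂ) = (Q : ℂ) := by
    rw [hy, inner_sum, hQ]
    push_cast
    apply Finset.sum_congr rfl
    intro i _
    rw [inner_smul_right, ← inner_conj_symm (w i) η, ← Complex.normSq_eq_conj_mul_self,
      Complex.normSq_eq_norm_sq]
    push_cast; rfl
  have h5 : Q ≤ ‖η‖ * ‖y‖ := by
    have := norm_inner_le_norm (𝕜 := ℂ) η y
    rw [h4, Complex.norm_real, Real.norm_eq_abs, abs_of_nonneg hQ0] at this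
    exact this
  have h6 : Q ^ 2 ≤ (M * ‖η‖ ^ 2) * Q := by
    calc Q ^ 2 ≤ (‖η‖ * ‖y‖) ^ 2 := by gcongr
      _ = ‖η‖ ^ 2 * ‖y‖ ^ 2 := by ring
      _ ≤ ‖η‖ ^ 2 * (M * Q) := by gcongr
      _ = _ := by ring
  rcases hQ0.lt_or_eq with h | h
  · nlinarith
  · rw [← h]
    positivity

lemma geom_zero {n : ℕ} {ζ : ℂ} (h1 : ζ ^ n = 1) (h2 : ζ ≠ 1) :
    ∑ t ∈ Finset.range n, ζ ^ t = 0 := by
  have h := geom_sum_mul ζ n
  rw [h1, sub_self] at h
  exact (mul_eq_zero.mp h).resolve_right (sub_ne_zero.mpr h2)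

/-- eigenvectors of unitaries of finite order with good overlap -/
lemma eig_exists (U : K →L[ℂ] K) (hU : U ∈ unitary (K →L[ℂ] K)) (n : ℕ) (hn : 0 < n) (c : ℂ)
    (hc : U ^ n = c • 1) (ξ : K) (hξ : ξ ≠ 0) {ι : Type*} (s : Finset ι) (η : ι → K) (c0 : ℝ)
    (hlow : ∀ t : ℕ, c0 ≤ ∑ i ∈ s, ‖(inner ℂ (η i) ((U ^ t) ξ) : ℂ)‖ ^ 2) :
    ∃ (w : K) (μ : ℂ), U w = μ • w ∧ ‖w‖ ≤ ‖ξ‖ ∧
      c0 ≤ (∑ i ∈ s, ‖η i‖ ^ 2) * ‖(inner ℂ ξ w : ℂ)‖ ∧ (∀ P : Submodule ℂ K, ξ ∈ P →
        (∀ x ∈ P, U x ∈ P) → w ∈ P) := by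
  classical
  -- normalise
  have hUpow : ∀ t : ℕ, U ^ t ∈ unitary (K →L[ℂ] K) := fun t => pow_mem hU t
  have hcn : ‖c‖ = 1 := by
    have h1 := unitary_norm _ (hUpow n) ξ
    rw [hc, smul_apply, one_apply_eq_self, norm_smul] at h1
    exact mul_right_cancel₀ (norm_ne_zero_iff.mpr hξ) (by rw [h1, one_mul])
  obtain ⟨d, hd⟩ := IsAlgClosed.exists_pow_nat_eq c hn
  have hdn : ‖d‖ = 1 := by
    have : ‖d‖ ^ n = 1 := by rw [← norm_pow, hd, hcn]
    exact (pow_eq_one_iff_of_nonneg (norm_nonneg _) hn.ne').mp this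
  have hd0 : d ≠ 0 := by intro h; rw [h, norm_zero] at hdn; norm_num at hdn
  have hn0 : (n : ℂ) ≠ 0 := by exact_mod_cast hn.ne'
  obtain ⟨ω, hω⟩ : ∃ ω : ℂ, IsPrimitiveRoot ω n := ⟨_, Complex.isPrimitiveRoot_exp n hn.ne'⟩
  have hω0 : ω ≠ 0 := hω.ne_zero hn.ne'
  have hωn : ‖ω‖ = 1 := hω.norm'_eq_one hn.ne'
  set V : K →L[ℂ] K := d⁻¹ • U with hV
  have hVn : V ^ n = 1 := by
    rw [hV, smul_pow, hc, smul_smul, ← hd, inv_pow, inv_mul_cancel₀ (pow_ne_zero _ hd0), one_smul]
  have hVpow : ∀ t : ℕ, V ^ t = (d⁻¹) ^ t • U ^ t := fun t => by rw [hV, smul_pow]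
  have hVinner : ∀ x y : K, (inner ℂ (V x) (V y) : ℂ) = inner ℂ x y := by
    intro x y
    rw [hV, smul_apply, smul_apply, inner_smul_left, inner_smul_right, unitary_inner U hU,
      ← mul_assoc, ← Complex.normSq_eq_conj_mul_self, Complex.normSq_eq_norm_sq, norm_inv, hdn]
    simp
  set w : ℕ → K := fun j => (n : ℂ)⁻¹ • ∑ t ∈ Finset.range n, (ω⁻¹ ^ j) ^ t • (V ^ t) ξ with hw
  -- eigenvector property
  have hVw : ∀ j, V (w j) = ω ^ j • w j := by
    intro j
    have h1 : ∑ t ∈ Finset.range n, (ω⁻¹ ^ j) ^ (t + 1) • (V ^ (t + 1)) ξ =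
        ∑ t ∈ Finset.range n, (ω⁻¹ ^ j) ^ t • (V ^ t) ξ := by
      have h2 := Finset.sum_range_succ' (fun t => (ω⁻¹ ^ j) ^ t • (V ^ t) ξ) n
      have h3 := Finset.sum_range_succ (fun t => (ω⁻¹ ^ j) ^ t • (V ^ t) ξ) n
      have h4 : (ω⁻¹ ^ j) ^ n • (V ^ n) ξ = (ω⁻¹ ^ j) ^ 0 • (V ^ 0) ξ := by
        rw [hVn, ← pow_mul, mul_comm, pow_mul, inv_pow, hω.pow_eq_one, inv_one, one_pow,
          pow_zero, pow_zero]
      rw [h4] at h3
      exact add_right_cancel (h2.symm.trans h3)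
    have h2 : V (w j) = (n : ℂ)⁻¹ • (ω ^ j • ∑ t ∈ Finset.range n,
        (ω⁻¹ ^ j) ^ (t + 1) • (V ^ (t + 1)) ξ) := by
      rw [hw]
      simp only
      rw [map_smul, map_sum]
      congr 1
      rw [Finset.smul_sum]
      apply Finset.sum_congr rfl
      intro t _
      rw [map_smul, smul_smul, pow_succ (ω⁻¹ ^ j), ← mul_assoc, mul_comm (ω ^ j), mul_assoc,
        ← mul_pow, mul_inv_cancel₀ hω0, one_pow, mul_one, pow_succ' V, mul_apply_eq_comp]
    rw [h2, h1, smul_comm]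
  have hVtw : ∀ (t j : ℕ), (V ^ t) (w j) = (ω ^ j) ^ t • w j := by
    intro t
    induction t with
    | zero => intro j; simp
    | succ t ih =>
      intro j
      rw [pow_succ, mul_apply_eq_comp, hVw, map_smul, ih, smul_smul, ← pow_succ']
  -- distinctness
  have hdist : ∀ i < n, ∀ j < n, i ≠ j → ω ^ i ≠ ω ^ j := by
    intro i hi j hj hij h
    exact hij (hω.pow_inj hi hj h)
  have horth : ∀ i ∈ Finset.range n, ∀ j ∈ Finset.range n, i ≠ j →
      (inner ℂ (w i) (w j) : ℂ) = 0 := by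
    intro i hi j hj hij
    rw [Finset.mem_range] at hi hj
    have h1 := hVinner (w i) (w j)
    rw [hVw, hVw, inner_smul_left, inner_smul_right, ← mul_assoc] at h1
    have h2 : (conj (ω ^ i) * ω ^ j - 1) * (inner ℂ (w i) (w j) : ℂ) = 0 := by
      rw [sub_mul, h1, one_mul, sub_self]
    rcases mul_eq_zero.mp h2 with h | h
    · exfalso
      apply hdist i hi j hj hij
      have h3 : conj (ω ^ i) * ω ^ i = 1 := by
        rw [← Complex.normSq_eq_conj_mul_self, Complex.normSq_eq_norm_sq, norm_pow, hωn]; simp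
      have h4 : conj (ω ^ i) ≠ 0 := by
        intro h5; rw [h5, zero_mul] at h3; exact zero_ne_one h3
      exact mul_left_cancel₀ h4 (by rw [h3]; linear_combination -h)
    · exact h
  -- decomposition
  have hsum : ∑ j ∈ Finset.range n, w j = ξ := by
    rw [hw]
    simp only
    rw [← Finset.smul_sum, Finset.sum_comm]
    have h1 : ∀ t ∈ Finset.range n, t ≠ 0 →
        ∑ j ∈ Finset.range n, (ω⁻¹ ^ j) ^ t • (V ^ t) ξ = 0 := by
      intro t ht ht0
      rw [Finset.mem_range] at ht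
      rw [← Finset.sum_smul]
      have h2 : ∑ j ∈ Finset.range n, (ω⁻¹ ^ j) ^ t = 0 := by
        have h3 : ∀ j, (ω⁻¹ ^ j) ^ t = (ω⁻¹ ^ t) ^ j := fun j => by
          rw [← pow_mul, ← pow_mul, mul_comm]
        simp only [h3]
        apply geom_zero
        · rw [← pow_mul, mul_comm, pow_mul, inv_pow, hω.pow_eq_one, inv_one, one_pow]
        · rw [inv_pow]
          intro h4
          have h5 : ω ^ t = 1 := by rw [← inv_inv (ω ^ t), h4, inv_one]
          exact ht0 (Nat.eq_zero_of_dvd_of_lt (hω.dvd_of_pow_eq_one t h5) ht)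
      rw [h2, zero_smul]
    rw [Finset.sum_eq_single_of_mem 0 (Finset.mem_range.mpr hn) h1]
    simp only [pow_zero, one_smul, one_apply_eq_self, Finset.sum_const, Finset.card_range]
    rw [← Nat.cast_smul_eq_nsmul ℂ, smul_smul, inv_mul_cancel₀ hn0, one_smul]
  have hinn : ∀ j ∈ Finset.range n, (inner ℂ ξ (w j) : ℂ) = ((‖w j‖ ^ 2 : ℝ) : ℂ) := by
    intro j hj
    conv_lhs => rw [← hsum]
    rw [sum_inner, Finset.sum_eq_single_of_mem j hj]
    · rw [inner_self_eq_norm_sq_to_K]; push_cast; rfl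
    · intro i hi hij
      exact horth i hi j hj hij
  -- maximal component
  obtain ⟨j0, hj0, hmax⟩ := Finset.exists_max_image (Finset.range n) (fun j => ‖w j‖ ^ 2)
    ⟨0, Finset.mem_range.mpr hn⟩
  refine ⟨w j0, d * ω ^ j0, ?_, ?_, ?_, ?_⟩
  · have h1 := hVw j0
    rw [hV, smul_apply, inv_smul_eq_iff₀ hd0] at h1
    rw [h1, smul_smul]
  · have h1 := norm_inner_le_norm (𝕜 := ℂ) ξ (w j0)
    rw [hinn j0 hj0, Complex.norm_real, Real.norm_eq_abs, abs_of_nonneg (by positivity)] at h1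
    rcases (norm_nonneg (w j0)).lt_or_eq with h | h
    · nlinarith
    · rw [← h]; exact norm_nonneg _
  · -- averaging
    have h1 : ∀ i ∈ s, ∑ t ∈ Finset.range n, ‖(inner ℂ (η i) ((U ^ t) ξ) : ℂ)‖ ^ 2 =
        n * ∑ j ∈ Finset.range n, ‖(inner ℂ (η i) (w j) : ℂ)‖ ^ 2 := by
      intro i _
      have h2 : ∀ t : ℕ, ‖(inner ℂ (η i) ((U ^ t) ξ) : ℂ)‖ = ‖(inner ℂ (η i) ((V ^ t) ξ) : ℂ)‖ := by
        intro t
        rw [hVpow, smul_apply, inner_smul_right, norm_mul, norm_pow, norm_inv, hdn]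
        simp
      simp only [h2]
      have h3 : ∀ t : ℕ, (inner ℂ (η i) ((V ^ t) ξ) : ℂ) =
          ∑ j ∈ Finset.range n, (ω ^ j) ^ t * (inner ℂ (η i) (w j) : ℂ) := by
        intro t
        conv_lhs => rw [← hsum]
        rw [map_sum, inner_sum]
        apply Finset.sum_congr rfl
        intro j _
        rw [hVtw, inner_smul_right]
      apply Complex.ofReal_injective
      simp only [Complex.ofReal_sum, Complex.ofReal_mul, Complex.ofReal_natCast,
        Complex.ofReal_pow]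
      have h4 : ∀ z : ℂ, ((‖z‖ : ℝ) : ℂ) ^ 2 = conj z * z := fun z => by
        rw [← Complex.normSq_eq_conj_mul_self, Complex.normSq_eq_norm_sq]; push_cast; rfl
      simp only [h4, h3]
      simp only [map_sum, map_mul, Finset.sum_mul_sum]
      rw [Finset.sum_comm, Finset.mul_sum]
      apply Finset.sum_congr rfl
      intro j hj
      rw [Finset.sum_comm, Finset.sum_eq_single_of_mem j hj]
      · have h5 : ∀ t : ℕ, conj ((ω ^ j) ^ t) * conj (inner ℂ (η i) (w j) : ℂ) *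
            ((ω ^ j) ^ t * (inner ℂ (η i) (w j) : ℂ)) =
            conj (inner ℂ (η i) (w j) : ℂ) * (inner ℂ (η i) (w j) : ℂ) := by
          intro t
          have h6 : conj ((ω ^ j) ^ t) * (ω ^ j) ^ t = 1 := by
            rw [← Complex.normSq_eq_conj_mul_self, Complex.normSq_eq_norm_sq, norm_pow, norm_pow,
              hωn]; simp
          linear_combination (conj (inner ℂ (η i) (w j) : ℂ) * (inner ℂ (η i) (w j) : ℂ)) * h6
        simp only [h5, Finset.sum_const, Finset.card_range, nsmul_eq_mul]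
      · intro k hk hkj
        have h5 : ∀ t : ℕ, conj ((ω ^ j) ^ t) * conj (inner ℂ (η i) (w j) : ℂ) *
            ((ω ^ k) ^ t * (inner ℂ (η i) (w k) : ℂ)) =
            (conj (ω ^ j) * ω ^ k) ^ t *
              (conj (inner ℂ (η i) (w j) : ℂ) * (inner ℂ (η i) (w k) : ℂ)) := by
          intro t
          rw [mul_pow, map_pow]; ring
        simp only [h5]
        rw [← Finset.sum_mul, geom_zero, zero_mul]
        · rw [mul_pow, ← map_pow, ← pow_mul, ← pow_mul, mul_comm j, mul_comm k, pow_mul, pow_mul,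
            hω.pow_eq_one]; simp
        · intro h7
          rw [Finset.mem_range] at hj hk
          apply hdist k hk j hj hkj
          have h3 : conj (ω ^ j) * ω ^ j = 1 := by
            rw [← Complex.normSq_eq_conj_mul_self, Complex.normSq_eq_norm_sq, norm_pow, hωn]; simp
          have h4 : conj (ω ^ j) ≠ 0 := by
            intro h5; rw [h5, zero_mul] at h3; exact zero_ne_one h3
          exact mul_left_cancel₀ h4 (by rw [h7, h3])
    have h2 : (n : ℝ) * c0 ≤ ∑ t ∈ Finset.range n, ∑ i ∈ s,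
        ‖(inner ℂ (η i) ((U ^ t) ξ) : ℂ)‖ ^ 2 := by
      calc (n : ℝ) * c0 = ∑ t ∈ Finset.range n, c0 := by simp
        _ ≤ _ := Finset.sum_le_sum fun t _ => hlow t
    rw [Finset.sum_comm, Finset.sum_congr rfl h1, ← Finset.mul_sum] at h2
    have hnpos : (0 : ℝ) < n := by exact_mod_cast hn
    have h3 := le_of_mul_le_mul_left h2 hnpos
    refine h3.trans ?_
    rw [hinn j0 hj0, Complex.norm_real, Real.norm_eq_abs, abs_of_nonneg (by positivity),
      Finset.sum_mul]
    apply Finset.sum_le_sum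
    intro i _
    have h4 := bessel (Finset.range n) w (‖w j0‖ ^ 2) horth hmax (by positivity) (η i)
    linarith
  · intro P hξP hP
    rw [hw]
    simp only
    have hUt : ∀ t : ℕ, (U ^ t) ξ ∈ P := by
      intro t
      induction t with
      | zero => simpa using hξP
      | succ t ih => rw [pow_succ', mul_apply_eq_comp]; exact hP _ ih
    refine P.smul_mem _ (P.sum_mem fun t _ => P.smul_mem _ ?_)
    rw [hVpow, smul_apply]
    exact P.smul_mem _ (hUt t)

/-- a normal operator bounded below is onto -/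
lemma normal_surj (G : K →L[ℂ] K) (hG : star G * G = G * star G) (c : ℝ) (hc : 0 < c)
    (hb : ∀ x, c * ‖x‖ ≤ ‖G x‖) : Function.Surjective G := by
  have h1 : ∀ x, ‖star G x‖ = ‖G x‖ := by
    intro x
    have h2 : (inner ℂ (star G x) (star G x) : ℂ) = inner ℂ (G x) (G x) := by
      rw [ContinuousLinearMap.star_eq_adjoint, ContinuousLinearMap.adjoint_inner_left,
        ← ContinuousLinearMap.adjoint_inner_right, ← ContinuousLinearMap.star_eq_adjoint,
        ← mul_apply_eq_comp, ← mul_apply_eq_comp, hG]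
    rw [inner_self_eq_norm_sq_to_K, inner_self_eq_norm_sq_to_K] at h2
    have h3 : ‖star G x‖ ^ 2 = ‖G x‖ ^ 2 := by exact_mod_cast h2
    exact (sq_eq_sq₀ (norm_nonneg _) (norm_nonneg _)).mp h3
  have hanti : AntilipschitzWith (Real.toNNReal c)⁻¹ G := by
    refine ContinuousLinearMap.antilipschitz_of_bound G (fun x => ?_)
    rw [NNReal.coe_inv, Real.coe_toNNReal _ hc.le]
    rw [inv_mul_eq_div, le_div_iff₀ hc, mul_comm]
    exact hb x
  have hclosed : IsClosed (Set.range G) := hanti.isClosed_range G.uniformContinuous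
  have hR : (LinearMap.range (G : K →ₗ[ℂ] K)) = ⊤ := by
    have hcl : IsClosed ((LinearMap.range (G : K →ₗ[ℂ] K) : Submodule ℂ K) : Set K) := by
      change IsClosed (Set.range G)
      exact hclosed
    have h3 : (LinearMap.range (G : K →ₗ[ℂ] K))ᗮ = ⊥ := by
      rw [Submodule.eq_bot_iff]
      intro y hy
      have h4 : star G y = 0 := by
        refine ext_inner_left ℂ (fun x => ?_)
        rw [ContinuousLinearMap.star_eq_adjoint, ContinuousLinearMap.adjoint_inner_right,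
          inner_zero_right]
        exact (Submodule.mem_orthogonal _ _).mp hy _ ⟨x, rfl⟩
      have h5 := h1 y
      rw [h4, norm_zero] at h5
      have h6 := hb y
      rw [← h5] at h6
      have : ‖y‖ ≤ 0 := by
        by_contra hne
        push Not at hne
        have := mul_pos hc hne
        linarith
      exact norm_le_zero_iff.mp this
    have : CompleteSpace (LinearMap.range (G : K →ₗ[ℂ] K)) := hcl.completeSpace_coe
    exact (Submodule.orthogonal_eq_bot_iff).mp h3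
  intro y
  have : y ∈ LinearMap.range (G : K →ₗ[ℂ] K) := by rw [hR]; trivial
  exact this

end

end MPaf71ff
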