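import Pool.Agent.Lib.MP_af71ff_an.Space
import Pool.Agent.Lib.MP_af71ff_an.FA

section

/-!
The commutant of `T`: structure and tightness.
-/

open scoped ComplexConjugate ENNReal Topology
open Filter

namespace MPaf71ff

/-- matrix entries -/
noncomputable def ent (F : E →L[ℂ] E) (m n : ℤ) : ℂ := (F (e n) : ℤ → ℂ) m

lemma ent_ext {F G : E →L[ℂ] E} (h : ∀ m n, ent F m n = ent G m n) : F = G := ext_entries h

lemma ent_norm_le (F : E →L[ℂ] E) (m n : ℤ) : ‖ent F m n‖ ≤ ‖F‖ := by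
  unfold ent
  refine (norm_apply_le _ _).trans ?_
  refine (F.le_opNorm _).trans ?_
  rw [norm_e, mul_one]

lemma hh_nonneg (n : ℕ) : 0 ≤ hh n := Finset.sum_nonneg fun _ _ => by positivity

lemma hh_mono : Monotone hh := by
  apply monotone_nat_of_le_succ
  intro n
  rw [hh_succ]
  have : 0 ≤ 1 / ((n : ℝ) + 1 / 2) := by positivity
  linarith

lemma hh_tendsto : Tendsto hh atTop atTop := by
  refine tendsto_atTop_mono (fun n => ?_) Real.tendsto_sum_range_one_div_nat_succ_atTop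
  unfold hh
  apply Finset.sum_le_sum
  intro i _
  apply one_div_le_one_div_of_le (by positivity)
  linarith

lemma ell_nonneg (n : ℤ) : 0 ≤ ell n := hh_nonneg _

lemma ell_tendsto (m : ℤ) : Tendsto (fun k : ℕ => ell (m + k)) atTop atTop := by
  unfold ell
  refine hh_tendsto.comp ?_
  refine tendsto_atTop_mono' _ (?_ : ∀ᶠ k : ℕ in atTop, k - m.natAbs ≤ (m + k).natAbs)
    (tendsto_sub_atTop_nat _)
  filter_upwards with k
  omega

/-- a coefficient multiplied by an unbounded sequence with bounded product vanishes -/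
lemma eq_zero_of_ell {z : ℂ} {m : ℤ} {C : ℝ} (h : ∀ k : ℕ, ‖((ell (m + k) : ℝ) : ℂ) * z‖ ≤ C) :
    z = 0 := by
  by_contra hz
  have hz' : 0 < ‖z‖ := norm_pos_iff.mpr hz
  have h1 := (ell_tendsto m).eventually (eventually_gt_atTop (C / ‖z‖))
  obtain ⟨k, hk⟩ := h1.exists
  have h2 := h k
  rw [norm_mul, Complex.norm_real, Real.norm_eq_abs, abs_of_nonneg (ell_nonneg _)] at h2
  rw [div_lt_iff₀ hz'] at hk
  linarith

lemma comm_ent {F : E →L[ℂ] E} (hF : F * sh 1 = sh 1 * F) (m n : ℤ) :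
    ent F (m + 1) (n + 1) = ent F m n := by
  have h := congrArg (fun G : E →L[ℂ] E => (G (e n) : ℤ → ℂ) (m + 1)) hF
  simp only [mul_apply_eq_comp, sh_e, sh_apply, add_sub_cancel_right] at h
  exact h

lemma comm_ent_add {F : E →L[ℂ] E} (hF : F * sh 1 = sh 1 * F) (m n : ℤ) (k : ℤ) :
    ent F (m + k) (n + k) = ent F m n := by
  have hnat : ∀ (k : ℕ) (m n : ℤ), ent F (m + k) (n + k) = ent F m n := by
    intro k
    induction k with
    | zero => intro m n; simp
    | succ k ih =>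
      intro m n
      push_cast
      rw [← add_assoc, ← add_assoc, comm_ent hF, ih]
  rcases Int.eq_nat_or_neg k with ⟨j, rfl | rfl⟩
  · exact hnat j m n
  · have := hnat j (m + -j) (n + -j)
    simpa using this.symm

lemma comm_ent' {F : E →L[ℂ] E} (hF : F * sh 1 = sh 1 * F) (m n : ℤ) :
    ent F m n = ent F (m - n) 0 := by
  have := comm_ent_add hF (m - n) 0 n
  simpa using this

lemma rel_ent {F F' G : E →L[ℂ] E} (hG : G * sh 1 + F * A = sh 1 * G + A * F') (m n : ℤ) :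
    ent G (m + 1) (n + 1) + (tw n : ℂ) * ent F (m + 1) (n + 1) =
      ent G m n + (tw m : ℂ) * ent F' m n := by
  have h := congrArg (fun G : E →L[ℂ] E => (G (e n) : ℤ → ℂ) (m + 1)) hG
  simp only [mul_apply_eq_comp, add_apply, co_add, sh_e, sh_apply, A_e, A_apply,
    add_sub_cancel_right, map_smul, co_smul] at h
  exact h

/-- the bounded sequence `c k` -/
noncomputable def ck (m n : ℤ) (k : ℕ) : ℝ := (ell (m + k) - ell m) - (ell (n + k) - ell n)

lemma ck_succ (m n : ℤ) (k : ℕ) : ck m n (k + 1) = ck m n k + (tw (m + k) - tw (n + k)) := by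
  unfold ck
  push_cast
  rw [← add_assoc, ← add_assoc, ell_succ, ell_succ]
  ring

lemma ck_bound (m n : ℤ) (k : ℕ) : |ck m n k| ≤ 4 * |((m - n : ℤ) : ℝ)| := by
  have h : ∀ k : ℤ, |ell (m + k) - ell (n + k)| ≤ 2 * |((m - n : ℤ) : ℝ)| := by
    intro k
    have h1 := ellC_lip.int (n + k) (m - n)
    have h2 : n + k + (m - n) = m + k := by ring
    rw [h2] at h1
    unfold ellC at h1
    rwa [← Complex.ofReal_sub, Complex.norm_real, Real.norm_eq_abs] at h1
  have h1 := h k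
  have h2 := h 0
  rw [add_zero, add_zero] at h2
  have h3 : ck m n k = (ell (m + k) - ell (n + k)) - (ell m - ell n) := by unfold ck; ring
  rw [h3]
  refine (abs_sub _ _).trans ?_
  linarith

lemma L1 {F F' G : E →L[ℂ] E} (hF : F * sh 1 = sh 1 * F) (hF' : F' * sh 1 = sh 1 * F')
    (hG : G * sh 1 + F * A = sh 1 * G + A * F') : F = F' := by
  apply ent_ext
  intro m n
  rw [← sub_eq_zero, ← neg_eq_zero, neg_sub]
  have h1 : ∀ k : ℕ, ent G (m + k) (n + k) = ent G m n + ((ell (m + k) - ell m : ℝ) : ℂ) *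
      (ent F' m n - ent F m n) + ((ck m n k : ℝ) : ℂ) * ent F m n := by
    intro k
    induction k with
    | zero => simp [ck]
    | succ k ih =>
      have h2 := rel_ent hG (m + k) (n + k)
      rw [comm_ent hF, comm_ent_add hF, comm_ent_add hF', ih] at h2
      push_cast at h2 ⊢
      rw [← add_assoc, ← add_assoc, ck_succ, ell_succ]
      push_cast
      linear_combination h2
  apply eq_zero_of_ell (m := m) (C := 2 * ‖G‖ + |ell m| * ‖ent F' m n - ent F m n‖ +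
    4 * |((m - n : ℤ) : ℝ)| * ‖ent F m n‖)
  intro k
  have h3 : ((ell (m + k) : ℝ) : ℂ) * (ent F' m n - ent F m n) =
      ent G (m + k) (n + k) - ent G m n + ((ell m : ℝ) : ℂ) * (ent F' m n - ent F m n) -
        ((ck m n k : ℝ) : ℂ) * ent F m n := by
    rw [h1 k]; push_cast; ring
  rw [h3]
  refine (norm_sub_le _ _).trans ?_
  refine (add_le_add ((norm_add_le _ _).trans (add_le_add (norm_sub_le _ _) le_rfl)) le_rfl).trans ?_
  rw [norm_mul, norm_mul, Complex.norm_real, Complex.norm_real, Real.norm_eq_abs, Real.norm_eq_abs]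
  have h4 := ent_norm_le G (m + k) (n + k)
  have h5 := ent_norm_le G m n
  have h6 := ck_bound m n k
  have h7 : |ck m n k| * ‖ent F m n‖ ≤ 4 * |((m - n : ℤ) : ℝ)| * ‖ent F m n‖ := by gcongr
  linarith

lemma B_e (n : ℤ) : B (e n) = ((1 / 2 : ℂ) * (tw n : ℂ) ^ 2) • e (n + 1) := by
  unfold B
  rw [smul_apply, mul_apply_eq_comp, mul_apply_eq_comp, A_e, map_smul, sh_e, map_smul,
    add_neg_cancel_right, A_e, smul_smul, smul_smul]
  congr 1
  ring

lemma B_apply (x : E) (m : ℤ) :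
    (B x : ℤ → ℂ) m = (1 / 2 : ℂ) * (tw (m - 1) : ℂ) ^ 2 * (x : ℤ → ℂ) (m - 1) := by
  unfold B
  rw [smul_apply, mul_apply_eq_comp, mul_apply_eq_comp, co_smul, A_apply, sh_apply, A_apply]
  have : m - 1 - -1 - 1 = m - 1 := by ring
  rw [this]
  ring

lemma L2 {a G K D : E →L[ℂ] E} (ha : a * sh 1 = sh 1 * a) (hG : G * sh 1 + a * A = sh 1 * G + A * a)
    (hD : D * sh 1 = sh 1 * D)
    (hK : K * sh 1 + G * A + a * B = sh 1 * K + A * (G + D) + B * a) : D = 0 := by
  apply ent_ext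
  intro m n
  have h0 : ent 0 m n = 0 := rfl
  rw [h0]
  have hGk : ∀ k : ℕ, ent G (m + k) (n + k) = ent G m n + ((ck m n k : ℝ) : ℂ) * ent a m n := by
    intro k
    induction k with
    | zero => simp [ck]
    | succ k ih =>
      have h2 := rel_ent hG (m + k) (n + k)
      rw [comm_ent ha, comm_ent_add ha, ih] at h2
      push_cast at h2 ⊢
      rw [← add_assoc, ← add_assoc, ck_succ]
      push_cast
      linear_combination h2
  have hKe : ∀ m n : ℤ, ent K (m + 1) (n + 1) + (tw n : ℂ) * ent G (m + 1) (n + 1) +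
      (1 / 2 : ℂ) * (tw n : ℂ) ^ 2 * ent a (m + 1) (n + 1) =
      ent K m n + (tw m : ℂ) * (ent G m n + ent D m n) +
        (1 / 2 : ℂ) * (tw m : ℂ) ^ 2 * ent a m n := by
    intro m n
    have h := congrArg (fun G : E →L[ℂ] E => (G (e n) : ℤ → ℂ) (m + 1)) hK
    simp only [mul_apply_eq_comp, add_apply, co_add, sh_e, sh_apply, A_e, A_apply, B_e, B_apply,
      add_sub_cancel_right, map_smul, co_smul] at h
    exact h
  have hKk : ∀ k : ℕ, ent K (m + k) (n + k) = ent K m n +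
      ((ell (m + k) - ell m : ℝ) : ℂ) * ent D m n + ((ck m n k : ℝ) : ℂ) * ent G m n +
      (1 / 2 : ℂ) * ((ck m n k : ℝ) : ℂ) ^ 2 * ent a m n := by
    intro k
    induction k with
    | zero => simp [ck]
    | succ k ih =>
      have h2 := hKe (m + k) (n + k)
      have h3 := hGk (k + 1)
      rw [comm_ent ha, comm_ent_add ha, comm_ent_add hD, ih, hGk k] at h2
      push_cast at h2 h3 ⊢
      rw [← add_assoc, ← add_assoc] at h3 ⊢
      rw [h3] at h2
      rw [ck_succ] at h2 ⊢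
      rw [ell_succ]
      push_cast at h2 ⊢
      linear_combination h2
  apply eq_zero_of_ell (m := m) (C := 2 * ‖K‖ + |ell m| * ‖ent D m n‖ +
    4 * |((m - n : ℤ) : ℝ)| * ‖ent G m n‖ +
      (1 / 2) * (4 * |((m - n : ℤ) : ℝ)|) ^ 2 * ‖ent a m n‖)
  intro k
  have h3 : ((ell (m + k) : ℝ) : ℂ) * ent D m n =
      ent K (m + k) (n + k) - ent K m n + ((ell m : ℝ) : ℂ) * ent D m n -
        ((ck m n k : ℝ) : ℂ) * ent G m n - (1 / 2 : ℂ) * ((ck m n k : ℝ) : ℂ) ^ 2 * ent a m n := by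
    rw [hKk k]; push_cast; ring
  rw [h3]
  have h4 := ent_norm_le K (m + k) (n + k)
  have h5 := ent_norm_le K m n
  have h6 := ck_bound m n k
  have h7 : ‖((ck m n k : ℝ) : ℂ) * ent G m n‖ ≤ 4 * |((m - n : ℤ) : ℝ)| * ‖ent G m n‖ := by
    rw [norm_mul, Complex.norm_real, Real.norm_eq_abs]; gcongr
  have h8 : ‖(1 / 2 : ℂ) * ((ck m n k : ℝ) : ℂ) ^ 2 * ent a m n‖ ≤
      (1 / 2) * (4 * |((m - n : ℤ) : ℝ)|) ^ 2 * ‖ent a m n‖ := by
    rw [norm_mul, norm_mul, norm_pow, Complex.norm_real, Real.norm_eq_abs]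
    have : ‖(1 / 2 : ℂ)‖ = 1 / 2 := by norm_num
    rw [this]
    gcongr
  have h9 : ‖((ell m : ℝ) : ℂ) * ent D m n‖ = |ell m| * ‖ent D m n‖ := by
    rw [norm_mul, Complex.norm_real, Real.norm_eq_abs]
  refine (norm_sub_le _ _).trans ?_
  refine (add_le_add ((norm_sub_le _ _).trans (add_le_add ((norm_add_le _ _).trans
    (add_le_add (norm_sub_le _ _) le_rfl)) le_rfl)) le_rfl).trans ?_
  linarith

/-- blocks of an operator on `H` -/
noncomputable def blk (D : H →L[ℂ] H) (i j : Fin 3) : E →L[ℂ] E := pr i ∘L D ∘L inc j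

lemma blk_apply (D : H →L[ℂ] H) (i j : Fin 3) (x : E) : blk D i j x = pr i (D (inc j x)) := rfl

lemma blk_norm (D : H →L[ℂ] H) (i j : Fin 3) : ‖blk D i j‖ ≤ ‖D‖ := by
  refine ContinuousLinearMap.opNorm_le_bound _ (norm_nonneg _) (fun x => ?_)
  rw [blk_apply]
  refine (norm_pr_le _ _).trans ((D.le_opNorm _).trans ?_)
  rw [norm_inc]

lemma opM_blk (D : H →L[ℂ] H) : opM (blk D) = D := by
  ext1 x
  apply ext_H
  intro i
  rw [pr_opM]
  simp only [blk_apply]
  rw [← map_sum, ← map_sum, sum_inc]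

lemma blk_mul (D D' : H →L[ℂ] H) (i j : Fin 3) :
    blk (D * D') i j = ∑ k, blk D i k * blk D' k j := by
  ext1 x
  rw [sum_apply]
  simp only [mul_apply_eq_comp, blk_apply]
  rw [← map_sum, ← map_sum, sum_inc]

lemma blk_J (a b c : E →L[ℂ] E) (i j : Fin 3) :
    blk (J a b c) i j = (![![a, b, c], ![0, a, b], ![0, 0, a]] : Fin 3 → Fin 3 → E →L[ℂ] E) i j := by
  ext1 x
  rw [blk_apply]
  unfold J
  rw [pr_opM, Finset.sum_eq_single j]
  · rw [pr_inc_same]
  · intro k _ hk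
    rw [pr_inc, if_neg hk, map_zero]
  · simp

/-- structure of the commutant of `T` -/
lemma commutant {D : H →L[ℂ] H} (hD : D * T = T * D) :
    ∃ a b c : E →L[ℂ] E, D = J a b c ∧ a * sh 1 = sh 1 * a ∧
      b * sh 1 + a * A = sh 1 * b + A * a := by
  have h : ∀ i j, ∑ k, blk D i k * blk T k j = ∑ k, blk T i k * blk D k j := by
    intro i j
    rw [← blk_mul, ← blk_mul, hD]
  have hT : ∀ i j, blk T i j =
      (![![sh 1, A, B], ![0, sh 1, A], ![0, 0, sh 1]] : Fin 3 → Fin 3 → E →L[ℂ] E) i j :=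
    fun i j => blk_J _ _ _ i j
  simp only [Fin.sum_univ_three, hT] at h
  have h20 := h 2 0
  have h21 := h 2 1
  have h22 := h 2 2
  have h10 := h 1 0
  have h11 := h 1 1
  have h12 := h 1 2
  have h00 := h 0 0
  have h01 := h 0 1
  have h02 := h 0 2
  simp only [Matrix.cons_val_zero, Matrix.cons_val_one, Matrix.cons_val, mul_zero,
    zero_mul, add_zero, zero_add] at h20 h21 h22 h10 h11 h12 h00 h01 h02
  set d := blk D with hd
  have e20 : d 2 0 = 0 := by
    refine L1 (G := d 2 1) h20 (by simp) ?_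
    rw [add_comm, h21]; simp
  rw [e20] at h21 h22 h10 h00
  simp only [zero_mul, mul_zero, add_zero, zero_add] at h21 h22 h10 h00
  have e21 : d 2 1 = 0 := by
    refine L1 (G := d 2 2) h21 (by simp) ?_
    rw [add_comm, h22]; simp
  rw [e21] at h22 h11 h01
  simp only [zero_mul, mul_zero, add_zero, zero_add] at h22 h11 h01
  have e10 : d 1 0 = 0 := by
    refine L1 (G := d 1 1) h10 (by simp) ?_
    rw [add_comm, h11]; simp
  rw [e10] at h11 h12 h00
  simp only [zero_mul, mul_zero, add_zero, zero_add] at h11 h12 h00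
  have e11 : d 1 1 = d 2 2 := by
    refine L1 (G := d 1 2) h11 h22 ?_
    rw [add_comm, h12]
  have e00 : d 0 0 = d 1 1 := by
    refine L1 (G := d 0 1) h00 h11 ?_
    rw [add_comm, h01]
  have hDel : (d 1 2 - d 0 1) = 0 := by
    refine L2 (a := d 0 0) (G := d 0 1) (K := d 0 2) h00 ?_ ?_ ?_
    · rw [add_comm, h01, e00]
    · rw [sub_mul, mul_sub]
      have e1 : d 1 2 * sh 1 = sh 1 * d 1 2 + A * d 2 2 - d 1 1 * A := by
        rw [← h12]; abel
      have e2 : d 0 1 * sh 1 = sh 1 * d 0 1 + A * d 1 1 - d 0 0 * A := by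
        rw [← h01]; abel
      rw [e1, e2, e00, e11]; abel
    · rw [add_sub_cancel, e00, e11]
      rw [e00, e11] at h02
      rw [← h02]; abel
  have e12 : d 1 2 = d 0 1 := sub_eq_zero.mp hDel
  refine ⟨d 0 0, d 0 1, d 0 2, ?_, h00, ?_⟩
  · rw [← opM_blk D, ← hd]
    unfold J
    congr 1
    funext i j
    fin_cases i <;> fin_cases j <;> simp [e20, e21, e10, e12, e11, e00]
  · rw [add_comm, h01, e00]

end MPaf71ff

end

section

/-!
Tightness of the leading coefficients of operators commuting with `T`; growth of `T ^ n`.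
-/

open scoped ComplexConjugate ENNReal Topology
open Filter

namespace MPaf71ff

/-- operators commuting with the bilateral shift commute -/
lemma shift_commutant {F G : E →L[ℂ] E} (hF : F * sh 1 = sh 1 * F) (hG : G * sh 1 = sh 1 * G) :
    F * G = G * F := by
  apply ent_ext
  intro m n
  have h1 : HasSum (fun k => ent G k n * ent F m k) (ent (F * G) m n) := by
    exact hasSum_entry F (G (e n)) m
  have h2 : HasSum (fun k => ent F k n * ent G m k) (ent (G * F) m n) := by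
    exact hasSum_entry G (F (e n)) m
  have h3 : HasSum ((fun k => ent F k n * ent G m k) ∘ (Equiv.subLeft (m + n)))
      (ent (G * F) m n) := (Equiv.hasSum_iff _).mpr h2
  have h4 : (fun k => ent G k n * ent F m k) =
      (fun k => ent F k n * ent G m k) ∘ (Equiv.subLeft (m + n)) := by
    funext k
    simp only [Function.comp, Equiv.subLeft_apply]
    rw [comm_ent' hF m k, comm_ent' hF (m + n - k) n, comm_ent' hG k n,
      comm_ent' hG m (m + n - k)]
    have e1 : m + n - k - n = m - k := by ring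
    have e2 : m - (m + n - k) = k - n := by ring
    rw [e1, e2, mul_comm]
  rw [h4] at h1
  exact h1.unique h3

/-- the base vector -/
noncomputable def x0 : H := inc 0 (e 0)

/-- leading coefficients of an operator on `H` -/
noncomputable def lead (D : H →L[ℂ] H) (m : ℤ) : ℂ := (pr 0 (D x0) : ℤ → ℂ) m

lemma lead_eq (D : H →L[ℂ] H) (m : ℤ) : lead D m = ent (blk D 0 0) m 0 := rfl

lemma lead_inner (D : H →L[ℂ] H) (m : ℤ) : lead D m = inner ℂ (inc 0 (e m)) (D x0) := by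
  rw [inner_inc, inner_e]; rfl

lemma J_inc0 (a b c : E →L[ℂ] E) (x : E) : J a b c (inc 0 x) = inc 0 (a x) := by
  apply ext_pr
  · rw [pr0_J, pr_inc, pr_inc, pr_inc, pr_inc]; simp
  · rw [pr1_J, pr_inc, pr_inc, pr_inc]; simp
  · rw [pr2_J, pr_inc, pr_inc]; simp

lemma blk00_J (a b c : E →L[ℂ] E) : blk (J a b c) 0 0 = a := by rw [blk_J]; rfl
lemma blk01_J (a b c : E →L[ℂ] E) : blk (J a b c) 0 1 = b := by rw [blk_J]; rfl

/-- the coefficients of `D x0` -/
lemma comm_x0 {D : H →L[ℂ] H} (hD : D * T = T * D) : D x0 = inc 0 (blk D 0 0 (e 0)) := by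
  obtain ⟨a, b, c, rfl, _, _⟩ := commutant hD
  rw [blk00_J]
  exact J_inc0 a b c _

lemma comm_inc0 {D : H →L[ℂ] H} (hD : D * T = T * D) (x : E) :
    D (inc 0 x) = inc 0 (blk D 0 0 x) := by
  obtain ⟨a, b, c, rfl, _, _⟩ := commutant hD
  rw [blk00_J]
  exact J_inc0 a b c _

lemma comm_blk {D : H →L[ℂ] H} (hD : D * T = T * D) : blk D 0 0 * sh 1 = sh 1 * blk D 0 0 := by
  obtain ⟨a, b, c, rfl, h, _⟩ := commutant hD
  rw [blk00_J]; exact h

lemma comm_N {D : H →L[ℂ] H} (hD : D * T = T * D) : D * N = N * D := by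
  obtain ⟨a, b, c, rfl, _, _⟩ := commutant hD
  rw [N_J]

lemma lead_hasSum {D : H →L[ℂ] H} (hD : D * T = T * D) :
    HasSum (fun m => ‖lead D m‖ ^ 2) (‖D x0‖ ^ 2) := by
  have h := hasSum_sq (pr 0 (D x0))
  have h2 : ‖pr 0 (D x0)‖ = ‖D x0‖ := by
    rw [comm_x0 hD, norm_inc, pr_inc_same]
  rw [h2] at h
  exact h

/-- tightness -/
lemma tight {D : H →L[ℂ] H} (hD : D * T = T * D) (s : Finset ℤ) :
    ∑ m ∈ s, ell m ^ 2 * ‖lead D m‖ ^ 2 ≤ ‖D‖ ^ 2 := by
  obtain ⟨a, b, c, hJ, ha, hb⟩ := commutant hD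
  have hla : ∀ m, lead D m = ent a m 0 := by
    intro m; rw [lead_eq, hJ, blk00_J]
  -- shift invariance
  have hinv : ∀ m n : ℤ, ent b (m + 1) (n + 1) - ((ell (m + 1) - ell (n + 1) : ℝ) : ℂ) *
      ent a (m + 1) (n + 1) = ent b m n - ((ell m - ell n : ℝ) : ℂ) * ent a m n := by
    intro m n
    have h := rel_ent hb m n
    rw [comm_ent ha] at h ⊢
    rw [ell_succ, ell_succ]
    push_cast
    linear_combination h
  have hinv' : ∀ (k : ℕ) (m n : ℤ), ent b (m + k) (n + k) - ((ell (m + k) - ell (n + k) : ℝ) : ℂ) *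
      ent a (m + k) (n + k) = ent b m n - ((ell m - ell n : ℝ) : ℂ) * ent a m n := by
    intro k
    induction k with
    | zero => intro m n; simp
    | succ k ih =>
      intro m n
      push_cast [← add_assoc]
      have := hinv (m + k) (n + k)
      push_cast at this ih
      rw [this, ih]
  have hinv2 : ∀ m : ℤ, ent b m 0 - ((ell m - ell 0 : ℝ) : ℂ) * ent a m 0 =
      ent b 0 (-m) - ((ell 0 - ell (-m) : ℝ) : ℂ) * ent a 0 (-m) := by
    intro m
    rcases Int.eq_nat_or_neg m with ⟨k, rfl | rfl⟩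
    · have := hinv' k 0 (-k)
      simpa using this
    · have := hinv' k (-k) 0
      simpa using this.symm
  have h2l : ∀ m : ℤ, 2 * ((ell m : ℝ) : ℂ) * ent a m 0 = ent b m 0 - ent b 0 (-m) := by
    intro m
    have h := hinv2 m
    rw [comm_ent' ha 0 (-m), ell_neg, ell_zero] at h
    have e1 : (0 : ℤ) - -m = m := by ring
    rw [e1] at h
    push_cast at h
    linear_combination -h
  have h3 : ∀ m : ℤ, ell m ^ 2 * ‖lead D m‖ ^ 2 ≤
      (1 / 2) * (‖ent b m 0‖ ^ 2 + ‖ent b 0 (-m)‖ ^ 2) := by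
    intro m
    rw [hla]
    have h4 : ‖2 * ((ell m : ℝ) : ℂ) * ent a m 0‖ = 2 * (ell m * ‖ent a m 0‖) := by
      rw [norm_mul, norm_mul, Complex.norm_real, Real.norm_eq_abs, abs_of_nonneg (ell_nonneg _)]
      norm_num
      ring
    have h5 : 2 * (ell m * ‖ent a m 0‖) ≤ ‖ent b m 0‖ + ‖ent b 0 (-m)‖ := by
      rw [← h4, h2l]; exact norm_sub_le _ _
    have h6 : 0 ≤ ell m * ‖ent a m 0‖ := mul_nonneg (ell_nonneg _) (norm_nonneg _)
    have h7 : (2 * (ell m * ‖ent a m 0‖)) ^ 2 ≤ (‖ent b m 0‖ + ‖ent b 0 (-m)‖) ^ 2 := by gcongr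
    nlinarith [sq_nonneg (‖ent b m 0‖ - ‖ent b 0 (-m)‖)]
  have hbn : ‖b‖ ≤ ‖D‖ := by
    have := blk_norm D 0 1
    rwa [hJ, blk01_J, ← hJ] at this
  have h8 : ∑ m ∈ s, ‖ent b m 0‖ ^ 2 ≤ ‖D‖ ^ 2 := by
    have h9 := sum_le_hasSum s (fun i _ => by positivity) (hasSum_sq (b (e 0)))
    have h10 : ‖b (e 0)‖ ≤ ‖D‖ := by
      refine (b.le_opNorm _).trans ?_
      rw [norm_e, mul_one]; exact hbn
    calc ∑ m ∈ s, ‖ent b m 0‖ ^ 2 ≤ ‖b (e 0)‖ ^ 2 := h9
      _ ≤ _ := by gcongr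
  have h11 : ∑ m ∈ s, ‖ent b 0 (-m)‖ ^ 2 ≤ ‖D‖ ^ 2 := by
    have h12 : HasSum (fun m : ℤ => ‖((star b) (e 0) : ℤ → ℂ) (-m)‖ ^ 2) (‖(star b) (e 0)‖ ^ 2) :=
      ((Equiv.neg ℤ).hasSum_iff (f := fun m : ℤ => ‖((star b) (e 0) : ℤ → ℂ) m‖ ^ 2)).mpr
        (hasSum_sq ((star b) (e 0)))
    have h13 : ∀ m : ℤ, ‖((star b) (e 0) : ℤ → ℂ) (-m)‖ = ‖ent b 0 (-m)‖ := by
      intro m
      rw [star_entry, RCLike.norm_conj]; rfl
    simp only [h13] at h12
    have h9 := sum_le_hasSum s (fun i _ => by positivity) h12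
    have h10 : ‖(star b) (e 0)‖ ≤ ‖D‖ := by
      refine ((star b).le_opNorm _).trans ?_
      rw [norm_e, mul_one, ContinuousLinearMap.star_eq_adjoint, LinearIsometryEquiv.norm_map]
      exact hbn
    calc ∑ m ∈ s, ‖ent b 0 (-m)‖ ^ 2 ≤ ‖(star b) (e 0)‖ ^ 2 := h9
      _ ≤ _ := by gcongr
  calc ∑ m ∈ s, ell m ^ 2 * ‖lead D m‖ ^ 2
      ≤ ∑ m ∈ s, (1 / 2) * (‖ent b m 0‖ ^ 2 + ‖ent b 0 (-m)‖ ^ 2) :=
        Finset.sum_le_sum fun m _ => h3 m
    _ = (1 / 2) * (∑ m ∈ s, ‖ent b m 0‖ ^ 2 + ∑ m ∈ s, ‖ent b 0 (-m)‖ ^ 2) := by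
        rw [← Finset.mul_sum, Finset.sum_add_distrib]
    _ ≤ ‖D‖ ^ 2 := by linarith

/-- the finite window `|m| ≤ M` -/
noncomputable def win (M : ℕ) : Finset ℤ := Finset.Icc (-(M : ℤ)) M

/-- lower bound for the leading coefficients in a window depending only on the norm bounds -/
lemma window (B0 b0 : ℝ) (hb0 : 0 < b0) : ∃ M : ℕ, ∀ D : H →L[ℂ] H, D * T = T * D → ‖D‖ ≤ B0 →
    b0 ≤ ‖D x0‖ → b0 ^ 2 / 2 ≤ ∑ m ∈ win M, ‖lead D m‖ ^ 2 := by
  -- choose M with ell M large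
  obtain ⟨M, hM⟩ : ∃ M : ℕ, 2 * |B0| / b0 + 1 ≤ hh M := (hh_tendsto.eventually_ge_atTop _).exists
  have hq : 0 ≤ 2 * |B0| / b0 := by positivity
  refine ⟨M, fun D hD hDn hDx => ?_⟩
  have hsum := lead_hasSum hD
  -- tail bound
  have htail : ∀ s : Finset ℤ, Disjoint s (win M) →
      ∑ m ∈ s, ‖lead D m‖ ^ 2 ≤ b0 ^ 2 / 4 := by
    intro s hs
    have h1 := tight hD s
    have h2 : ∀ m ∈ s, hh M ^ 2 * ‖lead D m‖ ^ 2 ≤ ell m ^ 2 * ‖lead D m‖ ^ 2 := by
      intro m hm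
      have h3 : m ∉ win M := Finset.disjoint_left.mp hs hm
      have h4 : M ≤ m.natAbs := by
        unfold win at h3
        rw [Finset.mem_Icc] at h3
        omega
      have h5 : hh M ≤ ell m := hh_mono h4
      have := hh_nonneg M
      gcongr
    have h3 : hh M ^ 2 * ∑ m ∈ s, ‖lead D m‖ ^ 2 ≤ ‖D‖ ^ 2 := by
      rw [Finset.mul_sum]
      exact (Finset.sum_le_sum h2).trans h1
    have h4 : ‖D‖ ^ 2 ≤ B0 ^ 2 := by
      have := norm_nonneg D
      nlinarith
    have h5 : (2 * |B0| / b0) ^ 2 ≤ hh M ^ 2 := by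
      have : 2 * |B0| / b0 ≤ hh M := by linarith
      gcongr
    have h6 : (1 : ℝ) ≤ hh M := by linarith
    have h7 : 0 ≤ ∑ m ∈ s, ‖lead D m‖ ^ 2 := Finset.sum_nonneg fun _ _ => by positivity
    have h8 : 4 * B0 ^ 2 ≤ hh M ^ 2 * b0 ^ 2 := by
      have : (2 * |B0| / b0) ^ 2 * b0 ^ 2 = 4 * B0 ^ 2 := by
        rw [div_pow, div_mul_cancel₀ _ (by positivity), mul_pow, sq_abs]; norm_num
      rw [← this]; gcongr
    have h9 : hh M ^ 2 * ∑ m ∈ s, ‖lead D m‖ ^ 2 ≤ hh M ^ 2 * (b0 ^ 2 / 4) := by linarith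
    exact le_of_mul_le_mul_left h9 (by positivity)
  -- conclude
  have h1 : ‖D x0‖ ^ 2 ≤ ∑ m ∈ win M, ‖lead D m‖ ^ 2 + b0 ^ 2 / 4 := by
    refine le_of_tendsto hsum (Filter.eventually_atTop.mpr ⟨win M, fun s hs => ?_⟩)
    rw [← Finset.sum_sdiff hs, add_comm]
    have := htail (s \ win M) Finset.sdiff_disjoint
    linarith
  have h2 : b0 ^ 2 ≤ ‖D x0‖ ^ 2 := by gcongr
  nlinarith [sq_nonneg b0]

/-- growth: a vector of `ker N²` with bounded orbit lies in `ker N` -/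
lemma growth {y : H} (h2 : pr 2 y = 0) (C : ℝ) (hC : ∀ n : ℕ, ‖(T ^ n) y‖ ≤ C) : pr 1 y = 0 := by
  ext m
  rw [co_zero]
  set g1 := pr 1 y with hg1
  set g0 := pr 0 y with hg0
  have hT : ∀ n : ℕ, pr 2 ((T ^ n) y) = 0 := by
    intro n
    induction n with
    | zero => simpa using h2
    | succ n ih =>
      rw [pow_succ', mul_apply_eq_comp]
      unfold T at ih ⊢
      rw [pr2_J, ih, map_zero]
  have hT1 : ∀ n : ℕ, (pr 1 ((T ^ n) y) : ℤ → ℂ) (m + n) = (g1 : ℤ → ℂ) m := by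
    intro n
    induction n with
    | zero => simp [hg1]
    | succ n ih =>
      have h3 := hT n
      rw [pow_succ', mul_apply_eq_comp]
      unfold T at ih h3 ⊢
      rw [pr1_J, h3, map_zero, add_zero, sh_apply, Nat.cast_succ, ← add_assoc,
        add_sub_cancel_right, ih]
  have hT0 : ∀ n : ℕ, (pr 0 ((T ^ n) y) : ℤ → ℂ) (m + n) =
      (g0 : ℤ → ℂ) m + ((ell (m + n) - ell m : ℝ) : ℂ) * (g1 : ℤ → ℂ) m := by
    intro n
    induction n with
    | zero => simp [hg0]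
    | succ n ih =>
      have h3 := hT n
      have h4 := hT1 n
      rw [pow_succ', mul_apply_eq_comp]
      unfold T at ih h3 h4 ⊢
      rw [pr0_J, h3, map_zero, add_zero, co_add, sh_apply, A_apply, Nat.cast_succ, ← add_assoc,
        add_sub_cancel_right, ih, h4, ell_succ]
      push_cast
      ring
  apply eq_zero_of_ell (m := m) (C := C + ‖(g0 : ℤ → ℂ) m‖ + |ell m| * ‖(g1 : ℤ → ℂ) m‖)
  intro n
  have h5 : ((ell (m + n) : ℝ) : ℂ) * (g1 : ℤ → ℂ) m = (pr 0 ((T ^ n) y) : ℤ → ℂ) (m + n) -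
      (g0 : ℤ → ℂ) m + ((ell m : ℝ) : ℂ) * (g1 : ℤ → ℂ) m := by
    rw [hT0]; push_cast; ring
  rw [h5]
  refine (norm_add_le _ _).trans (add_le_add ((norm_sub_le _ _).trans (add_le_add ?_ le_rfl)) ?_)
  · exact (norm_apply_le _ _).trans ((norm_pr_le _ _).trans (hC n))
  · rw [norm_mul, Complex.norm_real, Real.norm_eq_abs]

end MPaf71ff

end
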