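import Pool.Agent.Lib.MP_af71ff_an.Space
import Pool.Agent.Lib.MP_af71ff_an.Tight

/-!
Strong continuity of the intertwiner.
-/

open scoped ComplexConjugate ENNReal Topology
open Filter

namespace MPaf71ff

lemma strong_of_basis {F : ℕ → E →L[ℂ] E} {F' : E →L[ℂ] E} {C : ℝ} (hF : ∀ j, ‖F j‖ ≤ C)
    (h : ∀ n, Tendsto (fun j => F j (e n)) atTop (𝓝 (F' (e n)))) (x : E) :
    Tendsto (fun j => F j x) atTop (𝓝 (F' x)) := by
  have hC : 0 ≤ C := (norm_nonneg _).trans (hF 0)
  rw [tendsto_iff_norm_sub_tendsto_zero, Metric.tendsto_atTop]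
  intro ε hε
  set B : ℝ := C + ‖F'‖ + 1 with hB
  have hBp : 0 < B := by positivity
  have h1 := (Metric.tendsto_atTop.mp (hasSum_e x)) (ε / (2 * B)) (by positivity)
  obtain ⟨s, hs⟩ := h1
  have hs1 := hs s le_rfl
  rw [dist_eq_norm] at hs1
  set y := ∑ k ∈ s, (x : ℤ → ℂ) k • e k with hy
  have h2 : Tendsto (fun j => F j y) atTop (𝓝 (F' y)) := by
    simp only [hy, map_sum, map_smul]
    exact tendsto_finsetSum s (fun k _ => (h k).const_smul _)
  rw [tendsto_iff_norm_sub_tendsto_zero, Metric.tendsto_atTop] at h2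
  obtain ⟨N, hN⟩ := h2 (ε / 2) (by positivity)
  refine ⟨N, fun j hj => ?_⟩
  have h3 := hN j hj
  rw [dist_zero_right, norm_norm] at h3 ⊢
  have h4 : F j x - F' x = (F j y - F' y) - (F j - F') (y - x) := by
    simp only [sub_apply, map_sub]
    abel
  rw [h4]
  have h5 : ‖(F j - F') (y - x)‖ ≤ B * (ε / (2 * B)) := by
    refine ((F j - F').le_opNorm _).trans ?_
    have h6 : ‖F j - F'‖ ≤ B := by
      refine (norm_sub_le _ _).trans ?_
      have := hF j
      linarith
    gcongr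
  have h6 : B * (ε / (2 * B)) = ε / 2 := by field_simp
  calc ‖F j y - F' y - (F j - F') (y - x)‖ ≤ ‖F j y - F' y‖ + ‖(F j - F') (y - x)‖ :=
        norm_sub_le _ _
    _ < ε / 2 + ε / 2 := by rw [← h6]; linarith
    _ = ε := by ring

lemma J_apply (a b c : E →L[ℂ] E) (x : H) : J a b c x =
    inc 0 (a (pr 0 x) + b (pr 1 x) + c (pr 2 x)) + inc 1 (a (pr 1 x) + b (pr 2 x)) +
      inc 2 (a (pr 2 x)) := by
  apply ext_pr
  · rw [pr0_J, map_add, map_add, pr_inc, pr_inc, pr_inc]; simp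
  · rw [pr1_J, map_add, map_add, pr_inc, pr_inc, pr_inc]; simp
  · rw [pr2_J, map_add, map_add, pr_inc, pr_inc, pr_inc]; simp

namespace Mob

/-- convergence of automorphisms, in terms of their parameters -/
def Conv (f : ℕ → Mob) (φ : Mob) : Prop :=
  Tendsto (fun j => (f j).lam) atTop (𝓝 φ.lam) ∧ Tendsto (fun j => (f j).a) atTop (𝓝 φ.a)

variable {f : ℕ → Mob} {φ : Mob}

lemma qC_inverse (φ : Mob) : φ.qC = Ring.inverse ((1 : C(Tc, ℂ)) - conj φ.a • zp 1) := by
  have h := φ.qC_inv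
  have h' : φ.qC * (1 - conj φ.a • zp 1) = 1 := by rw [mul_comm]; exact h
  exact (Ring.inverse_unit ⟨_, _, h, h'⟩).symm

lemma Conv.qC (h : Conv f φ) : Tendsto (fun j => (f j).qC) atTop (𝓝 φ.qC) := by
  have h1 := φ.qC_inv
  have h1' : φ.qC * (1 - conj φ.a • zp 1) = 1 := by rw [mul_comm]; exact h1
  have h2 : ContinuousAt Ring.inverse ((1 : C(Tc, ℂ)) - conj φ.a • zp 1) :=
    NormedRing.inverse_continuousAt (⟨_, _, h1, h1'⟩ : (C(Tc, ℂ))ˣ)
  have h3 : Tendsto (fun j => (1 : C(Tc, ℂ)) - conj (f j).a • zp 1) atTop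
      (𝓝 ((1 : C(Tc, ℂ)) - conj φ.a • zp 1)) := by
    refine tendsto_const_nhds.sub (Tendsto.smul_const ?_ _)
    exact (Complex.continuous_conj.tendsto _).comp h.2
  have h4 := h2.tendsto.comp h3
  rw [← qC_inverse] at h4
  refine h4.congr (fun j => ?_)
  rw [qC_inverse]
  rfl

lemma Conv.pull_one (h : Conv f φ) :
    Tendsto (fun j => (f j).pull (zp 1)) atTop (𝓝 (φ.pull (zp 1))) := by
  simp only [pull_zp_one]
  refine h.1.smul (Tendsto.mul ?_ h.qC)
  exact tendsto_const_nhds.sub (h.2.smul_const _)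

lemma Conv.pull (h : Conv f φ) (n : ℤ) :
    Tendsto (fun j => (f j).pull (zp n)) atTop (𝓝 (φ.pull (zp n))) := by
  have hnat : ∀ n : ℕ, Tendsto (fun j => (f j).pull (zp n)) atTop (𝓝 (φ.pull (zp n))) := by
    intro n
    simp only [Mob.pull_zp_nat]
    exact h.pull_one.pow n
  obtain ⟨k, rfl | rfl⟩ := n.eq_nat_or_neg
  · exact hnat k
  · have e1 : ∀ ψ : Mob, ψ.pull (zp (-(k : ℤ))) = star (ψ.pull (zp k)) := fun ψ => by
      rw [← pull_star, star_zp]
    simp only [e1]
    exact (continuous_star.tendsto _).comp (hnat k)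

lemma Conv.gC (h : Conv f φ) : Tendsto (fun j => (f j).gC) atTop (𝓝 φ.gC) := by
  have h1 : Tendsto (fun j => (f j).gC * (f j).gC) atTop (𝓝 (φ.gC * φ.gC)) := by
    simp only [gC_sq]
    exact (h.qC.add ((continuous_star.tendsto _).comp h.qC)).sub tendsto_const_nhds
  rw [tendsto_iff_norm_sub_tendsto_zero] at h1 ⊢
  have h2 : Tendsto (fun j => Real.sqrt ‖(f j).gC * (f j).gC - φ.gC * φ.gC‖) atTop (𝓝 0) := by
    have := (Real.continuous_sqrt.tendsto 0).comp h1
    rwa [Real.sqrt_zero] at this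
  refine squeeze_zero (fun j => norm_nonneg _) (fun j => ?_) h2
  rw [ContinuousMap.norm_le _ (Real.sqrt_nonneg _)]
  intro z
  apply Real.le_sqrt_of_sq_le
  have h3 := ContinuousMap.norm_coe_le_norm ((f j).gC * (f j).gC - φ.gC * φ.gC) z
  refine le_trans ?_ h3
  rw [ContinuousMap.sub_apply, ContinuousMap.sub_apply, ContinuousMap.mul_apply,
    ContinuousMap.mul_apply, gC_apply, gC_apply, ← Complex.ofReal_mul, ← Complex.ofReal_mul,
    ← Complex.ofReal_sub, ← Complex.ofReal_sub, Complex.norm_real, Complex.norm_real,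
    Real.norm_eq_abs, Real.norm_eq_abs]
  have p1 := (f j).gf_pos (Tc_norm z).le
  have p2 := φ.gf_pos (Tc_norm z).le
  set u := (f j).gf z
  set v := φ.gf z
  have h4 : u * u - v * v = (u - v) * (u + v) := by ring
  rw [h4, abs_mul, sq]
  refine mul_le_mul_of_nonneg_left ?_ (abs_nonneg _)
  rw [abs_of_pos (show 0 < u + v by linarith), abs_le]
  constructor <;> linarith

lemma Conv.rho (h : Conv f φ) (x : E) : Tendsto (fun j => (f j).rho x) atTop (𝓝 (φ.rho x)) := by
  refine strong_of_basis (C := 1) (fun j => (f j).rho_norm_le) (fun n => ?_) x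
  simp only [rho_e]
  have h1 : Tendsto (fun j => Phi ((f j).pull (zp n) * (f j).gC)) atTop
      (𝓝 (Phi (φ.pull (zp n) * φ.gC))) :=
    (Phi_cont.tendsto _).comp ((h.pull n).mul h.gC)
  exact ((ContinuousLinearMap.apply ℂ E (e 0)).continuous.tendsto _).comp h1

lemma Conv.dM (h : Conv f φ) {L : ℤ → ℂ} (hL : Lip L) :
    Tendsto (fun j => (f j).dM hL) atTop (𝓝 (φ.dM hL)) := by
  obtain ⟨r, hr1, hr2⟩ := exists_between φ.norm_a
  have hr0 : 0 ≤ r := (norm_nonneg _).trans hr1.le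
  unfold Mob.dM
  refine tendsto_tsum_of_dominated_convergence (bound := fun k : ℕ => 4 * r ^ k)
    ((summable_geometric_of_lt_one hr0 hr2).mul_left 4) (fun k => ?_) ?_
  · refine Tendsto.neg (Tendsto.add ?_ ?_)
    · refine Tendsto.smul_const ?_ _
      exact (((Complex.continuous_conj.tendsto _).comp h.2).pow k).div_const _
    · exact ((h.2.pow k).div_const _).smul_const _
  · have h1 : ∀ᶠ j in atTop, ‖(f j).a‖ < r := (h.2.norm).eventually_lt_const hr1
    filter_upwards [h1] with j hj k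
    rw [norm_neg]
    refine (norm_add_le _ _).trans ?_
    have h1 := (f j).norm_coef k (conj (f j).a) (RCLike.norm_conj _) hL k (by simp)
    have h2 := (f j).norm_coef k (f j).a rfl hL (-k) (by simp)
    have h3 : ‖(f j).a‖ ^ k ≤ r ^ k := by gcongr
    linarith

lemma Conv.delta (h : Conv f φ) : Tendsto (fun j => (f j).delta) atTop (𝓝 φ.delta) := by
  unfold Mob.delta
  exact (h.dM ellC_lip).const_smul _

lemma Conv.delta_rho (h : Conv f φ) (x : E) :
    Tendsto (fun j => ((f j).delta * (f j).rho) x) atTop (𝓝 ((φ.delta * φ.rho) x)) := by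
  have h1 := tendsto_iff_norm_sub_tendsto_zero.mp (h.rho x)
  have h2 := tendsto_iff_norm_sub_tendsto_zero.mp h.delta
  rw [tendsto_iff_norm_sub_tendsto_zero]
  have h3 : Tendsto (fun j => 16 * ‖(f j).rho x - φ.rho x‖ +
      ‖(f j).delta - φ.delta‖ * ‖φ.rho x‖) atTop (𝓝 0) := by
    simpa using (h1.const_mul 16).add (h2.mul_const ‖φ.rho x‖)
  refine squeeze_zero (fun j => norm_nonneg _) (fun j => ?_) h3
  have h4 : ((f j).delta * (f j).rho) x - (φ.delta * φ.rho) x =
      (f j).delta ((f j).rho x - φ.rho x) + ((f j).delta - φ.delta) (φ.rho x) := by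
    rw [mul_apply_eq_comp, mul_apply_eq_comp, map_sub, sub_apply]
    abel
  rw [h4]
  refine (norm_add_le _ _).trans (add_le_add ?_ (ContinuousLinearMap.le_opNorm _ _))
  refine ((f j).delta.le_opNorm _).trans ?_
  have := (f j).delta_norm
  gcongr

lemma Conv.G0 (h : Conv f φ) (x : H) : Tendsto (fun j => (f j).G0 x) atTop (𝓝 (φ.G0 x)) := by
  unfold Mob.G0
  simp only [J_apply, zero_apply, add_zero]
  refine Tendsto.add (Tendsto.add ?_ ?_) ?_
  · exact ((inc 0).continuous.tendsto _).comp ((h.rho _).add (h.delta_rho _))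
  · exact ((inc 1).continuous.tendsto _).comp (h.rho _)
  · exact ((inc 2).continuous.tendsto _).comp (h.rho _)

lemma Conv.G0i (h : Conv f φ) (x : H) : Tendsto (fun j => (f j).G0i x) atTop (𝓝 (φ.G0i x)) := by
  have h1 := h.G0 (φ.G0i x)
  rw [tendsto_iff_norm_sub_tendsto_zero] at h1 ⊢
  refine squeeze_zero (fun j => norm_nonneg _) (fun j => ?_) (by simpa using h1.const_mul 51)
  have h2 : (f j).G0i x - φ.G0i x = -((f j).G0i ((f j).G0 (φ.G0i x) - φ.G0 (φ.G0i x))) := by
    rw [map_sub, ← mul_apply_eq_comp ((f j).G0i) ((f j).G0), (f j).G0i_mul_G0,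
      ← mul_apply_eq_comp φ.G0 φ.G0i, φ.G0_mul_G0i, one_apply_eq_self, one_apply_eq_self]
    abel
  rw [h2, norm_neg]
  refine ((f j).G0i.le_opNorm _).trans ?_
  have := (f j).G0i_norm
  gcongr

end Mob

end MPaf71ff
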