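import Mathlib

/-!
Definitions for `MP_af71ff_an`: disc automorphisms, their action on operators, homogeneous
operators, similarity.
-/

open scoped ComplexConjugate

namespace MPaf71ff

/-- A biholomorphic automorphism `z ↦ lam * (z - a) / (1 - conj a * z)` of the open unit disc,
with `|lam| = 1` and `|a| < 1`. -/
structure Mob where
  lam : ℂ
  a : ℂ
  norm_lam : ‖lam‖ = 1
  norm_a : ‖a‖ < 1

/-- the automorphism as a function -/
noncomputable def Mob.toFun (φ : Mob) (z : ℂ) : ℂ :=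
  φ.lam * (z - φ.a) / (1 - conj φ.a * z)

/-- `φ(T) = lam • (T - a)(1 - conj a T)⁻¹`; the inverse exists when the spectrum of `T` lies in the
closed unit disc. -/
noncomputable def Mob.op (φ : Mob) {H : Type*} [NormedAddCommGroup H] [InnerProductSpace ℂ H]
    (T : H →L[ℂ] H) : H →L[ℂ] H :=
  φ.lam • ((T - φ.a • (1 : H →L[ℂ] H)) * Ring.inverse ((1 : H →L[ℂ] H) - (conj φ.a) • T))

/-- `S` is homogeneous: its spectrum lies in the closed disc and `φ(S)` is unitarily equivalent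
to `S` for every disc automorphism `φ`. -/
def IsHomogeneous {H : Type*} [NormedAddCommGroup H] [InnerProductSpace ℂ H] [CompleteSpace H]
    (S : H →L[ℂ] H) : Prop :=
  spectrum ℂ S ⊆ Metric.closedBall 0 1 ∧
    ∀ φ : Mob, ∃ U ∈ unitary (H →L[ℂ] H), φ.op S = U * S * star U

/-- `T` is similar to `S`: `T = X S X⁻¹` for some invertible `X`. -/
def IsSimilar {H : Type*} [NormedAddCommGroup H] [InnerProductSpace ℂ H]
    (T S : H →L[ℂ] H) : Prop :=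
  ∃ X : (H →L[ℂ] H)ˣ, T = (X : H →L[ℂ] H) * S * ((X⁻¹ : (H →L[ℂ] H)ˣ) : H →L[ℂ] H)

/-- `Γ` is an intertwiner for `T`: `φ(T) = (Γ φ)⁻¹ T (Γ φ)` for every disc automorphism `φ`. -/
def IsIntertwiner {H : Type*} [NormedAddCommGroup H] [InnerProductSpace ℂ H]
    (T : H →L[ℂ] H) (Γ : Mob → (H →L[ℂ] H)ˣ) : Prop :=
  ∀ φ : Mob, φ.op T = (((Γ φ)⁻¹ : (H →L[ℂ] H)ˣ) : H →L[ℂ] H) * T * (Γ φ : H →L[ℂ] H)

/-- `Γ` is a homomorphism: `Γ (φ ∘ ψ) = (Γ φ) (Γ ψ)` for all disc automorphisms `φ`, `ψ`. -/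
def IsHom {H : Type*} [NormedAddCommGroup H] [InnerProductSpace ℂ H]
    (Γ : Mob → (H →L[ℂ] H)ˣ) : Prop :=
  ∀ φ ψ χ : Mob, (∀ z : ℂ, ‖z‖ < 1 → χ.toFun z = φ.toFun (ψ.toFun z)) → Γ χ = Γ φ * Γ ψ

/-- `Γ` is uniformly bounded, with uniformly bounded inverses. -/
def IsUniformlyBounded {H : Type*} [NormedAddCommGroup H] [InnerProductSpace ℂ H]
    (Γ : Mob → (H →L[ℂ] H)ˣ) : Prop :=
  ∃ C : ℝ, ∀ φ : Mob, ‖(Γ φ : H →L[ℂ] H)‖ ≤ C ∧ ‖(((Γ φ)⁻¹ : (H →L[ℂ] H)ˣ) : H →L[ℂ] H)‖ ≤ C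

/-- `Γ` is strongly continuous, the automorphisms being topologised by their parameters. -/
def IsStronglyContinuous {H : Type*} [NormedAddCommGroup H] [InnerProductSpace ℂ H]
    (Γ : Mob → (H →L[ℂ] H)ˣ) : Prop :=
  ∀ (f : ℕ → Mob) (φ : Mob), Filter.Tendsto (fun j => (f j).lam) Filter.atTop (nhds φ.lam) →
    Filter.Tendsto (fun j => (f j).a) Filter.atTop (nhds φ.a) →
    ∀ x : H, Filter.Tendsto (fun j => (Γ (f j) : H →L[ℂ] H) x) Filter.atTop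
      (nhds ((Γ φ : H →L[ℂ] H) x))

end MPaf71ff
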