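import Pool.Agent.Lib.MP_af71ff_an.Tight

section

/-!
Hypothetical similarity of `T` to a homogeneous operator `S`: basic consequences.
-/

open scoped ComplexConjugate ENNReal Topology
open Filter

namespace MPaf71ff

/-- a similarity of `T` with a homogeneous operator -/
structure Sim (K : Type*) [NormedAddCommGroup K] [InnerProductSpace ℂ K] [CompleteSpace K] where
  X : K ≃L[ℂ] H
  S : K →L[ℂ] K
  hS : ∀ x, X (S x) = T (X x)
  hom : ∀ φ : Mob, ∃ U ∈ unitary (K →L[ℂ] K), φ.op S = U * S * star U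

namespace Sim

variable {K : Type*} [NormedAddCommGroup K] [InnerProductSpace ℂ K] [CompleteSpace K]
variable (σ : Sim K)

/-- transport to `H` -/
noncomputable def up (F : K →L[ℂ] K) : H →L[ℂ] H :=
  (σ.X : K →L[ℂ] H) ∘L F ∘L (σ.X.symm : H →L[ℂ] K)

/-- transport to `K` -/
noncomputable def dn (G : H →L[ℂ] H) : K →L[ℂ] K :=
  (σ.X.symm : H →L[ℂ] K) ∘L G ∘L (σ.X : K →L[ℂ] H)

lemma up_apply (F : K →L[ℂ] K) (x : H) : σ.up F x = σ.X (F (σ.X.symm x)) := rfl
lemma dn_apply (G : H →L[ℂ] H) (x : K) : σ.dn G x = σ.X.symm (G (σ.X x)) := rfl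

lemma up_mul (F G : K →L[ℂ] K) : σ.up (F * G) = σ.up F * σ.up G := by
  ext1 x; simp [up_apply]

lemma dn_mul (F G : H →L[ℂ] H) : σ.dn (F * G) = σ.dn F * σ.dn G := by
  ext1 x; simp [dn_apply]

lemma up_one : σ.up 1 = 1 := by ext1 x; simp [up_apply]
lemma dn_one : σ.dn 1 = 1 := by ext1 x; simp [dn_apply]

lemma up_dn (G : H →L[ℂ] H) : σ.up (σ.dn G) = G := by ext1 x; simp [up_apply, dn_apply]
lemma dn_up (F : K →L[ℂ] K) : σ.dn (σ.up F) = F := by ext1 x; simp [up_apply, dn_apply]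

lemma up_inj {F G : K →L[ℂ] K} (h : σ.up F = σ.up G) : F = G := by
  rw [← σ.dn_up F, h, σ.dn_up]

lemma up_add (F G : K →L[ℂ] K) : σ.up (F + G) = σ.up F + σ.up G := by
  ext1 x; simp [up_apply]

lemma up_sub (F G : K →L[ℂ] K) : σ.up (F - G) = σ.up F - σ.up G := by
  ext1 x; simp [up_apply]

lemma up_smul (c : ℂ) (F : K →L[ℂ] K) : σ.up (c • F) = c • σ.up F := by
  ext1 x; simp [up_apply]

lemma up_pow (F : K →L[ℂ] K) (n : ℕ) : σ.up (F ^ n) = σ.up F ^ n := by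
  induction n with
  | zero => simp [up_one]
  | succ n ih => rw [pow_succ, pow_succ, up_mul, ih]

lemma up_S : σ.up σ.S = T := by
  ext1 x; rw [up_apply, σ.hS]; simp

/-- condition number -/
noncomputable def kp : ℝ := ‖(σ.X : K →L[ℂ] H)‖ * ‖(σ.X.symm : H →L[ℂ] K)‖

lemma kp_nonneg : 0 ≤ σ.kp := by unfold kp; positivity

lemma up_norm (F : K →L[ℂ] K) : ‖σ.up F‖ ≤ σ.kp * ‖F‖ := by
  unfold up kp
  refine (ContinuousLinearMap.opNorm_comp_le _ _).trans ?_
  calc ‖(σ.X : K →L[ℂ] H)‖ * ‖F ∘L (σ.X.symm : H →L[ℂ] K)‖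
      ≤ ‖(σ.X : K →L[ℂ] H)‖ * (‖F‖ * ‖(σ.X.symm : H →L[ℂ] K)‖) := by
        gcongr; exact ContinuousLinearMap.opNorm_comp_le _ _
    _ = _ := by ring

lemma X_norm (x : K) : ‖σ.X x‖ ≤ ‖(σ.X : K →L[ℂ] H)‖ * ‖x‖ := (σ.X : K →L[ℂ] H).le_opNorm x
lemma Xs_norm (x : H) : ‖σ.X.symm x‖ ≤ ‖(σ.X.symm : H →L[ℂ] K)‖ * ‖x‖ :=
  (σ.X.symm : H →L[ℂ] K).le_opNorm x

lemma Xs_norm_pos : 0 < ‖(σ.X.symm : H →L[ℂ] K)‖ := by
  by_contra h
  push Not at h
  have h1 := σ.Xs_norm x0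
  have h2 : ‖σ.X.symm x0‖ ≤ 0 := h1.trans (mul_nonpos_of_nonpos_of_nonneg h (norm_nonneg _))
  have h3 : σ.X.symm x0 = 0 := norm_le_zero_iff.mp h2
  have h4 : x0 = 0 := by
    have := congrArg σ.X h3
    simpa using this
  have h5 : ‖x0‖ = 1 := by unfold x0; rw [norm_inc, norm_e]
  rw [h4, norm_zero] at h5
  norm_num at h5

/-- lower bound for `X` -/
lemma X_lower (x : K) : ‖x‖ ≤ ‖(σ.X.symm : H →L[ℂ] K)‖ * ‖σ.X x‖ := by
  have := σ.Xs_norm (σ.X x)
  simpa using this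

lemma isUnit_one_sub (φ : Mob) : IsUnit ((1 : K →L[ℂ] K) - conj φ.a • σ.S) := by
  obtain ⟨u, hu⟩ := φ.isUnit_one_sub_T
  have h1 : σ.up (1 - conj φ.a • σ.S) = (u : H →L[ℂ] H) := by
    rw [up_sub, up_one, up_smul, up_S, hu]
  refine ⟨⟨1 - conj φ.a • σ.S, σ.dn ((u⁻¹ : (H →L[ℂ] H)ˣ) : H →L[ℂ] H), ?_, ?_⟩, rfl⟩
  · apply σ.up_inj
    rw [up_mul, h1, up_dn, up_one, Units.mul_inv]
  · apply σ.up_inj
    rw [up_mul, h1, up_dn, up_one, Units.inv_mul]

/-- the relation between `S` and an implementing unitary -/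
def Rel (φ : Mob) (U : K →L[ℂ] K) : Prop :=
  ((1 : K →L[ℂ] K) - conj φ.a • σ.S) * (U * σ.S) = φ.lam • ((σ.S - φ.a • (1 : K →L[ℂ] K)) * U)

/-- the adjoint relation -/
def RelS (φ : Mob) (U : K →L[ℂ] K) : Prop :=
  ((1 : K →L[ℂ] K) - φ.a • star σ.S) * (U * star σ.S) =
    conj φ.lam • ((star σ.S - conj φ.a • (1 : K →L[ℂ] K)) * U)

lemma exists_U (φ : Mob) : ∃ U ∈ unitary (K →L[ℂ] K), σ.Rel φ U ∧ σ.RelS φ U := by
  obtain ⟨U, hU, h⟩ := σ.hom φ
  refine ⟨U, hU, ?_, ?_⟩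
  all_goals
    obtain ⟨u, hu⟩ := σ.isUnit_one_sub φ
    have hUU : star U * U = 1 := (Unitary.mem_iff.mp hU).1
    have hUU' : U * star U = 1 := (Unitary.mem_iff.mp hU).2
    have hop : φ.op σ.S = φ.lam • ((σ.S - φ.a • (1 : K →L[ℂ] K)) *
        ((u⁻¹ : (K →L[ℂ] K)ˣ) : K →L[ℂ] K)) := by
      unfold Mob.op
      rw [← hu, Ring.inverse_unit]
    have hc : Commute (σ.S - φ.a • (1 : K →L[ℂ] K)) (u : K →L[ℂ] K) := by
      rw [hu]
      have h2 : Commute σ.S σ.S := Commute.refl _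
      have h3 : Commute (σ.S - φ.a • (1 : K →L[ℂ] K)) σ.S :=
        h2.sub_left ((Commute.one_left _).smul_left _)
      exact (Commute.one_right _).sub_right (h3.smul_right _)
  · unfold Rel
    have hc2 := hc.units_inv_right.eq
    have h1 : φ.op σ.S * U = U * σ.S := by
      rw [h, mul_assoc, hUU, mul_one]
    rw [← hu, ← h1, hop, hc2, smul_mul_assoc, mul_smul_comm]
    congr 1
    rw [← mul_assoc, ← mul_assoc, Units.mul_inv, one_mul]
  · unfold RelS
    have h1 : φ.op σ.S * (u : K →L[ℂ] K) = φ.lam • (σ.S - φ.a • (1 : K →L[ℂ] K)) := by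
      rw [hop, smul_mul_assoc, mul_assoc, Units.inv_mul, mul_one]
    have h2 := congrArg star h1
    rw [hu, h] at h2
    simp only [star_mul, star_sub, star_smul, star_one, star_star] at h2
    have e1 : star (conj φ.a) = φ.a := by simp
    have e2 : star φ.lam = conj φ.lam := rfl
    have e3 : star φ.a = conj φ.a := rfl
    rw [e1, e2, e3] at h2
    calc ((1 : K →L[ℂ] K) - φ.a • star σ.S) * (U * star σ.S)
        = ((1 : K →L[ℂ] K) - φ.a • star σ.S) * (U * (star σ.S * star U)) * U := by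
          simp only [mul_assoc]; rw [hUU, mul_one]
      _ = _ := by rw [h2, smul_mul_assoc]

/-- nilpotent operator on `K` -/
noncomputable def NS : K →L[ℂ] K := σ.dn N

lemma up_NS : σ.up σ.NS = N := σ.up_dn N

lemma N_cube : N * N * N = 0 := by
  unfold N
  rw [J_mul, J_mul]
  simp only [mul_one, mul_zero, zero_mul, add_zero, zero_add]
  ext1 x
  apply ext_pr
  · rw [pr0_J]; simp
  · rw [pr1_J]; simp
  · rw [pr2_J]; simp

/-- the intertwining operator gives an element of the commutant of `T` -/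
lemma int {φ : Mob} {U : K →L[ℂ] K} (h : σ.Rel φ U) :
    (φ.G0i * σ.up U) * T = T * (φ.G0i * σ.up U) := by
  have h1 : ((1 : H →L[ℂ] H) - conj φ.a • T) * (σ.up U * T) =
      φ.lam • ((T - φ.a • (1 : H →L[ℂ] H)) * σ.up U) := by
    have := congrArg σ.up h
    simpa only [up_mul, up_sub, up_smul, up_one, up_S] using this
  have h2 := φ.cov
  obtain ⟨u, hu⟩ := φ.isUnit_one_sub_T
  have h3 : φ.lam • (T - φ.a • (1 : H →L[ℂ] H)) =
      ((1 : H →L[ℂ] H) - conj φ.a • T) * (φ.G0 * T * φ.G0i) := by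
    calc φ.lam • (T - φ.a • (1 : H →L[ℂ] H))
        = φ.lam • ((T - φ.a • (1 : H →L[ℂ] H)) * φ.G0) * φ.G0i := by
          rw [smul_mul_assoc, mul_assoc, φ.G0_mul_G0i, mul_one]
      _ = _ := by rw [← h2]; simp only [mul_assoc]
  rw [← smul_mul_assoc, h3, ← hu] at h1
  have h4 : σ.up U * T = φ.G0 * T * φ.G0i * σ.up U := by
    have h5 := congrArg (fun F => ((u⁻¹ : (H →L[ℂ] H)ˣ) : H →L[ℂ] H) * F) h1
    simp only [← mul_assoc] at h5
    rwa [Units.inv_mul, one_mul, one_mul] at h5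
  calc (φ.G0i * σ.up U) * T = φ.G0i * (σ.up U * T) := by rw [mul_assoc]
    _ = (φ.G0i * φ.G0) * T * (φ.G0i * σ.up U) := by rw [h4]; simp only [mul_assoc]
    _ = _ := by rw [φ.G0i_mul_G0, one_mul]

lemma up_comm_N {φ : Mob} {U : K →L[ℂ] K} (h : σ.Rel φ U) : σ.up U * N = N * σ.up U := by
  have h1 := comm_N (σ.int h)
  have h2 : φ.G0 * N = N * φ.G0 := by unfold Mob.G0; rw [N_J]
  have h3 : φ.G0 * (φ.G0i * σ.up U) = σ.up U := by rw [← mul_assoc, φ.G0_mul_G0i, one_mul]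
  calc σ.up U * N = φ.G0 * ((φ.G0i * σ.up U) * N) := by rw [← mul_assoc, h3]
    _ = N * (φ.G0 * (φ.G0i * σ.up U)) := by rw [h1, ← mul_assoc, h2, mul_assoc]
    _ = _ := by rw [h3]

lemma comm_NS {φ : Mob} {U : K →L[ℂ] K} (h : σ.Rel φ U) : U * σ.NS = σ.NS * U := by
  apply σ.up_inj
  rw [up_mul, up_mul, up_NS, σ.up_comm_N h]

lemma comm_NS_star {φ : Mob} {U : K →L[ℂ] K} (hU : U ∈ unitary (K →L[ℂ] K)) (h : σ.Rel φ U) :
    U * star σ.NS = star σ.NS * U := by
  have h1 := σ.comm_NS h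
  have hUU : star U * U = 1 := (Unitary.mem_iff.mp hU).1
  have hUU' : U * star U = 1 := (Unitary.mem_iff.mp hU).2
  -- `star U` commutes with `NS`
  have h2 : star U * σ.NS = σ.NS * star U := by
    calc star U * σ.NS = star U * (σ.NS * U) * star U := by
          rw [mul_assoc, mul_assoc, hUU', mul_one]
      _ = star U * (U * σ.NS) * star U := by rw [h1]
      _ = _ := by rw [← mul_assoc, hUU, one_mul]
  have h3 := congrArg star h2
  rw [star_mul, star_mul, star_star] at h3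
  exact h3.symm

/-- commuting with `S` implies commuting with `NS` -/
lemma comm_NS_of_comm {C : K →L[ℂ] K} (h : C * σ.S = σ.S * C) : C * σ.NS = σ.NS * C := by
  apply σ.up_inj
  rw [up_mul, up_mul, up_NS]
  apply comm_N
  rw [← σ.up_S, ← up_mul, h, up_mul]

lemma up_comm {C : K →L[ℂ] K} (h : C * σ.S = σ.S * C) : σ.up C * T = T * σ.up C := by
  rw [← σ.up_S, ← up_mul, h, up_mul]

/-- base vector in `K` -/
noncomputable def xi : K := σ.X.symm x0

lemma X_xi : σ.X σ.xi = x0 := by simp [xi]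

lemma norm_x0 : ‖x0‖ = 1 := by unfold x0; rw [norm_inc, norm_e]

lemma xi_ne : σ.xi ≠ 0 := by
  intro h
  have h1 := σ.X_xi
  rw [h, map_zero] at h1
  have h2 := norm_x0
  rw [← h1, norm_zero] at h2
  norm_num at h2

/-- dual vectors -/
noncomputable def eta (m : ℤ) : K :=
  ContinuousLinearMap.adjoint (σ.X : K →L[ℂ] H) (inc 0 (e m))

lemma lead_up (F : K →L[ℂ] K) (m : ℤ) : lead (σ.up F) m = inner ℂ (σ.eta m) (F σ.xi) := by
  rw [lead_inner]
  unfold eta
  rw [ContinuousLinearMap.adjoint_inner_left]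
  rfl

end Sim

end MPaf71ff

end

section

/-!
Irreducibility of `S`: operators commuting with `S` and `S*` are scalars.
-/

open scoped ComplexConjugate ENNReal Topology
open Filter

namespace MPaf71ff

/-- rotation -/
def Mob.rot (ω : ℂ) (hω : ‖ω‖ = 1) : Mob := ⟨ω, 0, hω, by simp⟩

lemma Mob.rot_rho (ω : ℂ) (hω : ‖ω‖ = 1) (n : ℤ) :
    (Mob.rot ω hω).rho (e n) = ω ^ n • e n := by
  rw [Mob.rho_e]
  unfold Mob.v
  have h1 : (Mob.rot ω hω).gC = 1 := by
    ext z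
    rw [Mob.gC_apply]
    simp [Mob.gf, Mob.rot, Mob.kap]
  have h2 : (Mob.rot ω hω).pull (zp n) = ω ^ n • zp n := by
    ext z
    rw [Mob.pull_apply, zp_apply, Mob.phiC_apply, ContinuousMap.smul_apply, zp_apply, smul_eq_mul]
    simp [Mob.toFun, Mob.rot, mul_zpow]
  rw [h1, h2, mul_one, map_smul, Phi_zp, smul_apply, sh_e, zero_add]

lemma Mob.rot_rho_apply (ω : ℂ) (hω : ‖ω‖ = 1) (x : E) (m : ℤ) :
    ((Mob.rot ω hω).rho x : ℤ → ℂ) m = ω ^ m * (x : ℤ → ℂ) m := by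
  have h := hasSum_entry (Mob.rot ω hω).rho x m
  have h2 : (fun k => (x : ℤ → ℂ) k * ((Mob.rot ω hω).rho (e k) : ℤ → ℂ) m) =
      fun k => if k = m then ω ^ m * (x : ℤ → ℂ) m else 0 := by
    funext k
    rw [Mob.rot_rho, co_smul, e_apply]
    by_cases hk : k = m
    · subst hk; simp; ring
    · simp [hk, Ne.symm hk]
  rw [h2] at h
  exact h.unique (hasSum_ite_eq m _)

lemma inv_comm {D D' R : H →L[ℂ] H} (h1 : D * R = R * D) (e1 : D * D' = 1) (e2 : D' * D = 1) :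
    D' * R = R * D' := by
  calc D' * R = D' * (R * D) * D' := by rw [mul_assoc, mul_assoc, e1, mul_one]
    _ = D' * (D * R) * D' := by rw [h1]
    _ = _ := by rw [← mul_assoc, e2, one_mul]

lemma blk_mul_J (a b c : E →L[ℂ] E) (a' b' c' : E →L[ℂ] E) :
    blk (J a b c * J a' b' c') 0 0 = a * a' := by rw [J_mul, blk00_J]

namespace Sim

variable {K : Type*} [NormedAddCommGroup K] [InnerProductSpace ℂ K] [CompleteSpace K]
variable (σ : Sim K)

/-- leading coefficients of an operator on `K` -/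
noncomputable def ld (F : K →L[ℂ] K) (m : ℤ) : ℂ := lead (σ.up F) m

lemma ld_inner (F : K →L[ℂ] K) (m : ℤ) : σ.ld F m = inner ℂ (σ.eta m) (F σ.xi) := σ.lead_up F m

lemma ld_sub (F G : K →L[ℂ] K) (m : ℤ) : σ.ld (F - G) m = σ.ld F m - σ.ld G m := by
  rw [ld_inner, ld_inner, ld_inner, sub_apply, inner_sub_right]

lemma ld_smul (c : ℂ) (F : K →L[ℂ] K) (m : ℤ) : σ.ld (c • F) m = c * σ.ld F m := by
  rw [ld_inner, ld_inner, smul_apply, inner_smul_right]

lemma ld_one (m : ℤ) : σ.ld 1 m = if m = 0 then 1 else 0 := by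
  unfold ld lead
  rw [up_one, one_apply_eq_self]
  unfold x0
  rw [pr_inc_same, e_apply]

/-- commuting with `S` and its adjoint -/
def CC (C : K →L[ℂ] K) : Prop := C * σ.S = σ.S * C ∧ C * star σ.S = star σ.S * C

lemma CC.star {C : K →L[ℂ] K} (h : σ.CC C) : σ.CC (star C) := by
  constructor
  · have := congrArg Star.star h.2
    simpa only [star_mul, star_star] using this.symm
  · have := congrArg Star.star h.1
    simpa only [star_mul, star_star] using this.symm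

lemma CC.mul {C D : K →L[ℂ] K} (h : σ.CC C) (h' : σ.CC D) : σ.CC (C * D) := by
  constructor
  · rw [mul_assoc, h'.1, ← mul_assoc, h.1, mul_assoc]
  · rw [mul_assoc, h'.2, ← mul_assoc, h.2, mul_assoc]

lemma CC.sub {C D : K →L[ℂ] K} (h : σ.CC C) (h' : σ.CC D) : σ.CC (C - D) := by
  constructor
  · rw [sub_mul, mul_sub, h.1, h'.1]
  · rw [sub_mul, mul_sub, h.2, h'.2]

lemma CC.smul {C : K →L[ℂ] K} (c : ℂ) (h : σ.CC C) : σ.CC (c • C) := by
  constructor
  · rw [smul_mul_assoc, mul_smul_comm, h.1]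
  · rw [smul_mul_assoc, mul_smul_comm, h.2]

lemma CC.one : σ.CC (1 : K →L[ℂ] K) := by constructor <;> simp

lemma CC.zero : σ.CC (0 : K →L[ℂ] K) := by constructor <;> simp

lemma CC.add {C D : K →L[ℂ] K} (h : σ.CC C) (h' : σ.CC D) : σ.CC (C + D) := by
  constructor
  · rw [add_mul, mul_add, h.1, h'.1]
  · rw [add_mul, mul_add, h.2, h'.2]

lemma CC.sum {ι : Type*} (s : Finset ι) {C : ι → K →L[ℂ] K} (h : ∀ i ∈ s, σ.CC (C i)) :
    σ.CC (∑ i ∈ s, C i) := by
  classical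
  induction s using Finset.induction_on with
  | empty => simpa using CC.zero σ
  | insert i s hi ih =>
    rw [Finset.sum_insert hi]
    exact (h i (Finset.mem_insert_self _ _)).add σ (ih fun j hj => h j (Finset.mem_insert_of_mem hj))

/-- self-adjoint nilpotents vanish -/
lemma nil_zero {Q : K →L[ℂ] K} (hQ : star Q = Q) (h : Q ^ 4 = 0) : Q = 0 := by
  have h1 : star (Q * Q) * (Q * Q) = 0 := by
    rw [star_mul, hQ]
    calc Q * Q * (Q * Q) = Q ^ 4 := by noncomm_ring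
      _ = 0 := h
  have h2 : Q * Q = 0 := (CStarRing.star_mul_self_eq_zero_iff _).mp h1
  have h3 : star Q * Q = 0 := by rw [hQ, h2]
  exact (CStarRing.star_mul_self_eq_zero_iff _).mp h3

lemma ld_inj {C : K →L[ℂ] K} (hC : σ.CC C) (h : ∀ m, σ.ld C m = 0) : C = 0 := by
  have h1 := σ.up_comm hC.1
  have h2 := σ.up_comm (CC.star σ hC).1
  obtain ⟨a, b, c, hJ, ha, _⟩ := commutant h1
  obtain ⟨a', b', c', hJ', _, _⟩ := commutant h2
  have ha0 : a = 0 := by
    apply ent_ext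
    intro m n
    have h3 : ent (0 : E →L[ℂ] E) m n = 0 := rfl
    rw [comm_ent' ha, h3]
    have := h (m - n)
    unfold ld at this
    rwa [lead_eq, hJ, blk00_J] at this
  have h4 : σ.up ((star C * C) ^ 4) = 0 := by
    rw [up_pow, up_mul, hJ, hJ', ha0]
    simp only [pow_succ, pow_zero, one_mul, J_mul, mul_zero, zero_mul, add_zero, zero_add]
    ext1 x
    apply ext_pr
    · rw [pr0_J]; simp
    · rw [pr1_J]; simp
    · rw [pr2_J]; simp
  have h5 : (star C * C) ^ 4 = 0 := by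
    apply σ.up_inj
    rw [h4]
    ext1 x; simp [up_apply]
  have h6 := nil_zero (by rw [star_mul, star_star]) h5
  exact (CStarRing.star_mul_self_eq_zero_iff _).mp h6

lemma ld_ext {C D : K →L[ℂ] K} (hC : σ.CC C) (hD : σ.CC D) (h : ∀ m, σ.ld C m = σ.ld D m) :
    C = D := by
  rw [← sub_eq_zero]
  apply σ.ld_inj (hC.sub σ hD)
  intro m
  rw [ld_sub, h, sub_self]

/-- commutation with a rotation unitary -/
def RU (ω : ℂ) (U : K →L[ℂ] K) : Prop :=
  U ∈ unitary (K →L[ℂ] K) ∧ U * σ.S = ω • (σ.S * U) ∧ U * star σ.S = conj ω • (star σ.S * U)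

lemma exists_RU (ω : ℂ) (hω : ‖ω‖ = 1) : ∃ U, σ.RU ω U ∧ σ.Rel (Mob.rot ω hω) U := by
  obtain ⟨U, hU, h1, h2⟩ := σ.exists_U (Mob.rot ω hω)
  refine ⟨U, ⟨hU, ?_, ?_⟩, h1⟩
  · unfold Rel at h1
    simpa [Mob.rot] using h1
  · unfold RelS at h2
    simpa [Mob.rot] using h2

lemma RU.rel {ω : ℂ} (hω : ‖ω‖ = 1) {U : K →L[ℂ] K} (h : σ.RU ω U) :
    σ.Rel (Mob.rot ω hω) U := by
  unfold Rel
  simpa [Mob.rot] using h.2.1

lemma RU.mul {ω ω' : ℂ} {U V : K →L[ℂ] K} (h : σ.RU ω U) (h' : σ.RU ω' V) :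
    σ.RU (ω * ω') (U * V) := by
  refine ⟨mul_mem h.1 h'.1, ?_, ?_⟩
  · rw [mul_assoc, h'.2.1, mul_smul_comm, ← mul_assoc, h.2.1, smul_mul_assoc, smul_smul,
      mul_assoc, mul_comm ω']
  · rw [mul_assoc, h'.2.2, mul_smul_comm, ← mul_assoc, h.2.2, smul_mul_assoc, smul_smul,
      mul_assoc, map_mul, mul_comm (conj ω')]

lemma RU.one : σ.RU 1 (1 : K →L[ℂ] K) := by
  refine ⟨one_mem _, ?_, ?_⟩ <;> simp

lemma RU.pow {ω : ℂ} {U : K →L[ℂ] K} (h : σ.RU ω U) (n : ℕ) : σ.RU (ω ^ n) (U ^ n) := by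
  induction n with
  | zero => simpa using RU.one σ
  | succ n ih => rw [pow_succ, pow_succ]; exact ih.mul σ h

lemma unimod_mul {ω : ℂ} (hω : ‖ω‖ = 1) : conj ω * ω = 1 := by
  rw [← Complex.normSq_eq_conj_mul_self, Complex.normSq_eq_norm_sq, hω]; simp

lemma RU.star {ω : ℂ} (hω : ‖ω‖ = 1) {U : K →L[ℂ] K} (h : σ.RU ω U) :
    σ.RU (conj ω) (star U) := by
  have h1 := unimod_mul hω
  refine ⟨Unitary.star_mem h.1, ?_, ?_⟩
  · have h2 := congrArg Star.star h.2.2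
    simp only [star_mul, star_smul, star_star] at h2
    have e1 : Star.star (conj ω) = ω := by simp
    rw [e1] at h2
    rw [h2, smul_smul, h1, one_smul]
  · have h2 := congrArg Star.star h.2.1
    simp only [star_mul, star_smul] at h2
    have e1 : Star.star ω = conj ω := rfl
    rw [e1] at h2
    rw [h2, smul_smul, Complex.conj_conj, mul_comm, h1, one_smul]

lemma RU.conj_CC {ω : ℂ} (hω : ‖ω‖ = 1) {U C : K →L[ℂ] K} (h : σ.RU ω U) (hC : σ.CC C) :
    σ.CC (U * C * Star.star U) := by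
  have h1 := unimod_mul hω
  have h' := h.star σ hω
  constructor
  · rw [mul_assoc, h'.2.1, mul_smul_comm, mul_assoc U, ← mul_assoc C, hC.1, ← mul_assoc U,
      ← mul_assoc U, h.2.1]
    simp only [smul_mul_assoc, smul_smul, h1, one_smul, mul_assoc]
  · rw [mul_assoc, h'.2.2, mul_smul_comm, mul_assoc U, ← mul_assoc C, hC.2, ← mul_assoc U,
      ← mul_assoc U, h.2.2]
    simp only [smul_mul_assoc, smul_smul, Complex.conj_conj, mul_comm ω, h1, one_smul, mul_assoc]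

/-- structure of `up U` on the base vector -/
lemma up_rot_struct {ω : ℂ} (hω : ‖ω‖ = 1) {U : K →L[ℂ] K} (h : σ.RU ω U) :
    ∃ d d' : E →L[ℂ] E, d * sh 1 = sh 1 * d ∧ d * d' = 1 ∧
      ∀ x, σ.up U (inc 0 x) = inc 0 ((Mob.rot ω hω).rho (d x)) := by
  have h1 := σ.int (h.rel σ hω)
  -- inverse operator
  have hUU : U * Star.star U = 1 := (Unitary.mem_iff.mp h.1).2
  have hUU' : Star.star U * U = 1 := (Unitary.mem_iff.mp h.1).1
  set φ := Mob.rot ω hω with hφ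
  set D := φ.G0i * σ.up U with hD
  set D' := σ.up (Star.star U) * φ.G0 with hD'
  have e1 : D * D' = 1 := by
    rw [hD, hD', mul_assoc, ← mul_assoc (σ.up U), ← up_mul, hUU, up_one, one_mul, φ.G0i_mul_G0]
  have e2 : D' * D = 1 := by
    rw [hD, hD', mul_assoc, ← mul_assoc φ.G0, φ.G0_mul_G0i, one_mul, ← up_mul, hUU', up_one]
  have h2 : D' * T = T * D' := inv_comm h1 e1 e2
  obtain ⟨a, b, c, hJ, ha, _⟩ := commutant h1
  obtain ⟨a', b', c', hJ', _, _⟩ := commutant h2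
  refine ⟨a, a', ha, ?_, fun x => ?_⟩
  · have := congrArg (fun F => blk F 0 0) e1
    simp only [hJ, hJ', J_mul, blk00_J, ← J_one] at this
    exact this
  · have h3 : σ.up U = φ.G0 * D := by rw [hD, ← mul_assoc, φ.G0_mul_G0i, one_mul]
    rw [h3, mul_apply_eq_comp, hJ, J_inc0]
    unfold Mob.G0
    rw [J_inc0]

lemma ld_conj {ω : ℂ} (hω : ‖ω‖ = 1) {U C : K →L[ℂ] K} (h : σ.RU ω U) (hC : σ.CC C) (m : ℤ) :
    σ.ld (U * C * Star.star U) m = ω ^ m * σ.ld C m := by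
  obtain ⟨d, d', hd, hdd, hU⟩ := σ.up_rot_struct hω h
  have hUU' : Star.star U * U = 1 := (Unitary.mem_iff.mp h.1).1
  have hCC'0 : σ.CC (U * C * Star.star U) := h.conj_CC σ hω hC
  obtain ⟨C', hC'⟩ : ∃ C', C' = U * C * Star.star U := ⟨_, rfl⟩
  rw [← hC'] at hCC'0 ⊢
  have hCC' := hCC'0
  have h1 : C' * U = U * C := by rw [hC', mul_assoc, hUU', mul_one]
  have h2 := σ.up_comm hC.1
  have h3 := σ.up_comm hCC'.1
  set a := blk (σ.up C) 0 0 with ha
  set a' := blk (σ.up C') 0 0 with ha'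
  have hac : a * sh 1 = sh 1 * a := comm_blk h2
  have h4 : ∀ x : E, a' ((Mob.rot ω hω).rho (d x)) = (Mob.rot ω hω).rho (d (a x)) := by
    intro x
    have h5 : σ.up (C' * U) (inc 0 x) = σ.up (U * C) (inc 0 x) := by rw [h1]
    rw [up_mul, up_mul, mul_apply_eq_comp, mul_apply_eq_comp, hU, comm_inc0 h3, comm_inc0 h2,
      hU] at h5
    have := congrArg (pr 0) h5
    rwa [pr_inc_same, pr_inc_same] at this
  have h5 : a * d = d * a := shift_commutant hac hd
  have h6 := h4 (d' (e 0))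
  have h7 : d (d' (e 0)) = e 0 := by rw [← mul_apply_eq_comp, hdd]; rfl
  have h8 : d (a (d' (e 0))) = a (e 0) := by
    rw [← mul_apply_eq_comp d a, ← h5, mul_apply_eq_comp, h7]
  rw [h7, h8, Mob.rot_rho, zpow_zero, one_smul] at h6
  have e1 : σ.ld C' m = (a' (e 0) : ℤ → ℂ) m := rfl
  have e2 : σ.ld C m = (a (e 0) : ℤ → ℂ) m := rfl
  rw [e1, e2, h6, Mob.rot_rho_apply]

/-- weak limits of operators commuting with `S` and `S*` -/
lemma CC.lim {A : ℕ → K →L[ℂ] K} {A' : K →L[ℂ] K} {𝒰 : Ultrafilter ℕ}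
    (hA : ∀ x y, Tendsto (fun n => inner ℂ x (A n y)) 𝒰 (𝓝 (inner ℂ x (A' y))))
    (h : ∀ n, σ.CC (A n)) : σ.CC A' := by
  have key : ∀ B : K →L[ℂ] K, (∀ n, A n * B = B * A n) → A' * B = B * A' := by
    intro B hB
    ext1 y
    refine ext_inner_left ℂ (fun x => ?_)
    have h1 := hA x (B y)
    have h2 := hA (Star.star B x) y
    have h3 : ∀ z, (inner ℂ (Star.star B x) z : ℂ) = inner ℂ x (B z) := fun z => by
      rw [ContinuousLinearMap.star_eq_adjoint, ContinuousLinearMap.adjoint_inner_left]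
    simp only [h3] at h2
    have h4 : (fun n => (inner ℂ x (A n (B y)) : ℂ)) = fun n => inner ℂ x (B (A n y)) := by
      funext n
      rw [← mul_apply_eq_comp, hB, mul_apply_eq_comp]
    rw [h4] at h1
    exact tendsto_nhds_unique h1 h2
  exact ⟨key _ fun n => (h n).1, key _ fun n => (h n).2⟩

end Sim

/-- dyadic roots of unity -/
noncomputable def om (k : ℕ) : ℂ := Complex.exp (2 * Real.pi * Complex.I / ((2 ^ k : ℕ) : ℂ))

lemma om_prim (k : ℕ) : IsPrimitiveRoot (om k) (2 ^ k) :=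
  Complex.isPrimitiveRoot_exp _ (by positivity)

lemma om_norm (k : ℕ) : ‖om k‖ = 1 := (om_prim k).norm'_eq_one (by positivity)

lemma om_zpow_ne {m : ℤ} (hm : m ≠ 0) {k : ℕ} (hk : m.natAbs < 2 ^ k) : om k ^ m ≠ 1 := by
  intro h
  rw [(om_prim k).zpow_eq_one_iff_dvd] at h
  have h1 : 2 ^ k ≤ m.natAbs := by
    apply Nat.le_of_dvd (Int.natAbs_pos.mpr hm)
    have := Int.natAbs_dvd_natAbs.mpr h
    simpa using this
  omega

lemma exists_om {m : ℤ} (hm : m ≠ 0) : ∃ k, om k ^ m ≠ 1 :=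
  ⟨m.natAbs, om_zpow_ne hm Nat.lt_two_pow_self⟩

namespace Sim

variable {K : Type*} [NormedAddCommGroup K] [InnerProductSpace ℂ K] [CompleteSpace K]
variable (σ : Sim K)

/-- the Fourier component of an operator commuting with `S, S*` -/
lemma exists_component {C : K →L[ℂ] K} (hC : σ.CC C) (j : ℤ) :
    ∃ A' : K →L[ℂ] K, σ.CC A' ∧ ∀ m, σ.ld A' m = if m = j then σ.ld C j else 0 := by
  have hex : ∀ k, ∃ U, σ.RU (om k) U := fun k => by
    obtain ⟨U, hU, _⟩ := σ.exists_RU (om k) (om_norm k)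
    exact ⟨U, hU⟩
  choose U hU using hex
  set A : ℕ → K →L[ℂ] K := fun k => (((2 ^ k : ℕ) : ℂ))⁻¹ •
    ∑ t ∈ Finset.range (2 ^ k), ((om k) ^ (-j)) ^ t • (U k ^ t * C * Star.star (U k ^ t)) with hA
  have hpn : ∀ (k t : ℕ), ‖om k ^ t‖ = 1 := fun k t => by rw [norm_pow, om_norm, one_pow]
  have hACC : ∀ k, σ.CC (A k) := by
    intro k
    refine CC.smul σ _ (CC.sum σ _ fun t _ => CC.smul σ _ ?_)
    exact ((hU k).pow σ t).conj_CC σ (hpn k t) hC
  have hAn : ∀ k, ‖A k‖ ≤ ‖C‖ := by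
    intro k
    rw [hA]
    simp only
    rw [norm_smul, norm_inv, Complex.norm_natCast]
    have h1 : ‖∑ t ∈ Finset.range (2 ^ k), ((om k) ^ (-j)) ^ t •
        (U k ^ t * C * Star.star (U k ^ t))‖ ≤ ∑ t ∈ Finset.range (2 ^ k), ‖C‖ := by
      refine (norm_sum_le _ _).trans (Finset.sum_le_sum fun t _ => ?_)
      rw [norm_smul, norm_pow, norm_zpow, om_norm, one_zpow, one_pow, one_mul]
      have h2 := unitary_opNorm _ ((hU k).pow σ t).1
      have h3 := unitary_opNorm _ (Unitary.star_mem ((hU k).pow σ t).1)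
      calc ‖U k ^ t * C * Star.star (U k ^ t)‖ ≤ ‖U k ^ t‖ * ‖C‖ * ‖Star.star (U k ^ t)‖ :=
            (norm_mul_le _ _).trans (by gcongr; exact norm_mul_le _ _)
        _ ≤ 1 * ‖C‖ * 1 := by gcongr
        _ = ‖C‖ := by ring
    rw [Finset.sum_const, Finset.card_range, nsmul_eq_mul] at h1
    have h2 : (0 : ℝ) < ((2 ^ k : ℕ) : ℝ) := by positivity
    rw [inv_mul_eq_div, div_le_iff₀ h2]
    linarith
  have hAld : ∀ k m, σ.ld (A k) m =
      (((2 ^ k : ℕ) : ℂ))⁻¹ * ∑ t ∈ Finset.range (2 ^ k), (om k ^ (m - j)) ^ t * σ.ld C m := by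
    intro k m
    rw [hA]
    simp only
    rw [ld_smul]
    congr 1
    have h1 : ∀ (s : Finset ℕ) (F : ℕ → K →L[ℂ] K), σ.ld (∑ t ∈ s, F t) m = ∑ t ∈ s, σ.ld (F t) m := by
      intro s F
      rw [ld_inner, sum_apply, inner_sum]
      simp only [ld_inner]
    rw [h1]
    apply Finset.sum_congr rfl
    intro t _
    rw [ld_smul, σ.ld_conj (hpn k t) ((hU k).pow σ t) hC m, ← mul_assoc]
    congr 1
    have h0 : om k ≠ 0 := by
      intro h; have := om_norm k; rw [h, norm_zero] at this; norm_num at this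
    rw [← zpow_natCast, ← zpow_natCast, ← zpow_natCast, ← zpow_mul, ← zpow_mul, ← zpow_mul,
      ← zpow_add₀ h0]
    congr 1
    ring
  obtain ⟨A', hA'⟩ := exists_wlim A ‖C‖ hAn (hyperfilter ℕ)
  refine ⟨A', CC.lim σ hA' hACC, fun m => ?_⟩
  have h1 : Tendsto (fun k => σ.ld (A k) m) (hyperfilter ℕ) (𝓝 (σ.ld A' m)) := by
    simp only [ld_inner]
    exact hA' _ _
  have h2 : Tendsto (fun k => σ.ld (A k) m) (hyperfilter ℕ)
      (𝓝 (if m = j then σ.ld C j else 0)) := by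
    refine Tendsto.mono_left ?_ Nat.hyperfilter_le_atTop
    by_cases hm : m = j
    · subst hm
      rw [if_pos rfl]
      refine tendsto_const_nhds.congr (fun k => ?_)
      rw [hAld]
      simp only [sub_self, zpow_zero, one_pow, one_mul, Finset.sum_const, Finset.card_range,
        nsmul_eq_mul]
      rw [← mul_assoc, inv_mul_cancel₀, one_mul]
      exact_mod_cast (by positivity : (2 ^ k : ℕ) ≠ 0)
    · rw [if_neg hm]
      refine tendsto_const_nhds.congr' ?_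
      filter_upwards [eventually_ge_atTop (m - j).natAbs] with k hk
      have h3 : (m - j).natAbs < 2 ^ k := lt_of_le_of_lt hk Nat.lt_two_pow_self
      have h4 := om_zpow_ne (sub_ne_zero.mpr hm) h3
      rw [hAld, ← Finset.sum_mul, geom_zero _ h4, zero_mul, mul_zero]
      rw [← zpow_natCast, ← zpow_mul, mul_comm, zpow_mul, zpow_natCast, (om_prim k).pow_eq_one,
        one_zpow]
  exact tendsto_nhds_unique h1 h2

/-- an operator commuting with `S, S*` cannot have a single nonzero degree `j ≠ 0` component -/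
lemma component_zero {A' : K →L[ℂ] K} (hA : σ.CC A') {j : ℤ} (hj : j ≠ 0) {c : ℂ}
    (h : ∀ m, σ.ld A' m = if m = j then c else 0) : c = 0 := by
  by_contra hc
  -- covariance
  have hcov : ∀ k U, σ.RU (om k) U → U * A' * Star.star U = (om k ^ j) • A' := by
    intro k U hU
    refine σ.ld_ext (hU.conj_CC σ (om_norm k) hA) (CC.smul σ _ hA) (fun m => ?_)
    rw [σ.ld_conj (om_norm k) hU hA, ld_smul, h]
    by_cases hm : m = j
    · subst hm; rfl
    · simp [hm]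
  set Q := Star.star A' * A' with hQ
  have hQC : σ.CC Q := (CC.star σ hA).mul σ hA
  have hQcov : ∀ k U, σ.RU (om k) U → U * Q * Star.star U = Q := by
    intro k U hU
    have hUU' : Star.star U * U = 1 := (Unitary.mem_iff.mp hU.1).1
    have h1 : U * Q * Star.star U = Star.star (U * A' * Star.star U) * (U * A' * Star.star U) := by
      rw [star_mul, star_mul, star_star]
      calc U * Q * Star.star U = U * Star.star A' * (Star.star U * U) * A' * Star.star U := by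
            rw [hUU', mul_one, hQ]; simp only [mul_assoc]
        _ = _ := by simp only [mul_assoc]
    rw [h1, hcov k U hU, star_smul, smul_mul_assoc, mul_smul_comm, smul_smul]
    have h2 : Star.star (om k ^ j) * om k ^ j = 1 :=
      unimod_mul (by rw [norm_zpow, om_norm, one_zpow])
    rw [h2, one_smul]
  have hQld : ∀ m, m ≠ 0 → σ.ld Q m = 0 := by
    intro m hm
    obtain ⟨k, hk⟩ := exists_om hm
    obtain ⟨U, hU, _⟩ := σ.exists_RU (om k) (om_norm k)
    have h1 := σ.ld_conj (om_norm k) hU hQC m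
    rw [hQcov k U hU] at h1
    have h2 : (om k ^ m - 1) * σ.ld Q m = 0 := by rw [sub_mul, ← h1, one_mul, sub_self]
    exact (mul_eq_zero.mp h2).resolve_left (sub_ne_zero.mpr hk)
  have hQs : Q = (σ.ld Q 0) • (1 : K →L[ℂ] K) := by
    refine σ.ld_ext hQC (CC.smul σ _ (CC.one σ)) (fun m => ?_)
    rw [ld_smul, ld_one]
    by_cases hm : m = 0
    · subst hm; simp
    · rw [hQld m hm]; simp [hm]
  -- `A'` is a multiple of an isometry
  set r : ℝ := ‖A' σ.xi‖ / ‖σ.xi‖ with hr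
  have hxi : 0 < ‖σ.xi‖ := norm_pos_iff.mpr σ.xi_ne
  have hsq : ∀ x, ((‖A' x‖ ^ 2 : ℝ) : ℂ) = σ.ld Q 0 * ((‖x‖ ^ 2 : ℝ) : ℂ) := by
    intro x
    have h1 : (inner ℂ x (Q x) : ℂ) = inner ℂ (A' x) (A' x) := by
      rw [hQ, mul_apply_eq_comp, ContinuousLinearMap.star_eq_adjoint,
        ContinuousLinearMap.adjoint_inner_right]
    rw [hQs, smul_apply, one_apply_eq_self, inner_smul_right, inner_self_eq_norm_sq_to_K,
      inner_self_eq_norm_sq_to_K] at h1
    push_cast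
    exact h1.symm
  have hs : σ.ld Q 0 = ((r ^ 2 : ℝ) : ℂ) := by
    have h1 := hsq σ.xi
    have h2 : ((‖σ.xi‖ ^ 2 : ℝ) : ℂ) ≠ 0 := by
      rw [Complex.ofReal_ne_zero]; positivity
    rw [hr, div_pow, Complex.ofReal_div, h1, mul_div_assoc, div_self h2, mul_one]
  have hr0 : 0 ≤ r := by positivity
  have hAx : ∀ x, ‖A' x‖ = r * ‖x‖ := by
    intro x
    have h1 := hsq x
    rw [hs, ← Complex.ofReal_mul] at h1
    have h2 := Complex.ofReal_injective h1
    rw [← mul_pow] at h2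
    exact (sq_eq_sq₀ (norm_nonneg _) (by positivity)).mp h2
  have hAnx : ∀ (n : ℕ) x, ‖(A' ^ n) x‖ = r ^ n * ‖x‖ := by
    intro n
    induction n with
    | zero => intro x; simp
    | succ n ih => intro x; rw [pow_succ, mul_apply_eq_comp, ih, hAx]; ring
  have hrpos : 0 < r := by
    rcases hr0.lt_or_eq with h1 | h1
    · exact h1
    · exfalso
      have h2 := h j
      rw [if_pos rfl, ld_inner] at h2
      have h3 : A' σ.xi = 0 := by
        have := hAx σ.xi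
        rw [← h1, zero_mul] at this
        exact norm_eq_zero.mp this
      rw [h3, inner_zero_right] at h2
      exact hc h2.symm
  -- the leading block of `A'`
  have hT := σ.up_comm hA.1
  have hblk : blk (σ.up A') 0 0 = c • sh j := by
    apply ent_ext
    intro m n
    rw [comm_ent' (comm_blk hT)]
    have h1 := h (m - n)
    unfold ld at h1
    rw [lead_eq] at h1
    rw [h1]
    unfold ent
    rw [smul_apply, co_smul, sh_e, e_apply]
    by_cases hm : m = n + j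
    · have : m - n = j := by omega
      simp [hm]
    · have : ¬ (m - n = j) := by omega
      simp [hm, this]
  have hpow : ∀ n : ℕ, (σ.up A' ^ n) x0 = inc 0 (c ^ n • e (j * n)) := by
    intro n
    induction n with
    | zero => simp [x0]
    | succ n ih =>
      rw [pow_succ', mul_apply_eq_comp, ih, comm_inc0 hT, hblk, smul_apply, map_smul (sh j), sh_e,
        smul_smul, ← pow_succ']
      congr 3
      push_cast; ring
  have hbound : ∀ n : ℕ, ell (j * n) ≤ σ.kp * ‖(σ.X.symm : H →L[ℂ] K)‖ / ‖σ.xi‖ := by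
    intro n
    have hDn : σ.up (A' ^ n) * T = T * σ.up (A' ^ n) := by
      rw [up_pow]
      exact (Commute.pow_left (show Commute (σ.up A') T from hT) n).eq
    have h1 := tight hDn {j * n}
    rw [Finset.sum_singleton] at h1
    have h2 : lead (σ.up (A' ^ n)) (j * n) = c ^ n := by
      unfold lead
      rw [up_pow, hpow, pr_inc_same, co_smul, e_self, mul_one]
    rw [h2, ← mul_pow] at h1
    have h3 : ell (j * n) * ‖c ^ n‖ ≤ ‖σ.up (A' ^ n)‖ :=
      (sq_le_sq₀ (mul_nonneg (ell_nonneg _) (norm_nonneg _)) (norm_nonneg _)).mp h1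
    have h4 : ‖σ.up (A' ^ n)‖ ≤ σ.kp * r ^ n := by
      refine (σ.up_norm _).trans ?_
      have : ‖A' ^ n‖ ≤ r ^ n := ContinuousLinearMap.opNorm_le_bound _ (by positivity)
        (fun x => (hAnx n x).le)
      have := σ.kp_nonneg
      gcongr
    have h5 : r ^ n * ‖σ.xi‖ ≤ ‖(σ.X.symm : H →L[ℂ] K)‖ * ‖c ^ n‖ := by
      have h6 := σ.X_lower ((A' ^ n) σ.xi)
      rw [hAnx] at h6
      have h7 : σ.X ((A' ^ n) σ.xi) = inc 0 (c ^ n • e (j * n)) := by
        rw [← hpow, ← up_pow, up_apply]; rfl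
      rw [h7, norm_inc, norm_smul, norm_e, mul_one] at h6
      exact h6
    rw [le_div_iff₀ hxi]
    have hrn : 0 < r ^ n := by positivity
    have h8 : ell (j * n) * (r ^ n * ‖σ.xi‖) ≤
        (σ.kp * r ^ n) * ‖(σ.X.symm : H →L[ℂ] K)‖ := by
      calc ell (j * n) * (r ^ n * ‖σ.xi‖) ≤
          ell (j * n) * (‖(σ.X.symm : H →L[ℂ] K)‖ * ‖c ^ n‖) := by
            have := ell_nonneg (j * n)
            gcongr
        _ = (ell (j * n) * ‖c ^ n‖) * ‖(σ.X.symm : H →L[ℂ] K)‖ := by ring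
        _ ≤ _ := by
            have := σ.Xs_norm_pos.le
            have := h3.trans h4
            gcongr
    have h9 : (ell (j * n) * ‖σ.xi‖) * r ^ n ≤ (σ.kp * ‖(σ.X.symm : H →L[ℂ] K)‖) * r ^ n := by
      linarith
    exact le_of_mul_le_mul_right h9 hrn
  obtain ⟨n, hn⟩ := (hh_tendsto.eventually_gt_atTop
    (σ.kp * ‖(σ.X.symm : H →L[ℂ] K)‖ / ‖σ.xi‖)).exists
  have h1 := hbound n
  have h2 : hh n ≤ ell (j * n) := by
    unfold ell
    apply hh_mono
    rw [Int.natAbs_mul, Int.natAbs_natCast]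
    have : 1 ≤ j.natAbs := Int.natAbs_pos.mpr hj
    nlinarith
  linarith

/-- `S` is irreducible -/
lemma irr {C : K →L[ℂ] K} (hC : σ.CC C) : C = (σ.ld C 0) • (1 : K →L[ℂ] K) := by
  refine σ.ld_ext hC (CC.smul σ _ (CC.one σ)) (fun m => ?_)
  rw [ld_smul, ld_one]
  by_cases hm : m = 0
  · subst hm; simp
  · rw [if_neg hm, mul_zero]
    obtain ⟨A', hA, h⟩ := σ.exists_component hC m
    exact σ.component_zero hA hm h

end Sim

end MPaf71ff

end

section

/-!
A grading of `K` compatible with `S`, obtained from joint eigenvectors of the dyadic rotations.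
-/

open scoped ComplexConjugate ENNReal Topology
open Filter

namespace MPaf71ff

lemma om_pow_sub {i k : ℕ} (h : i ≤ k) : om k ^ (2 ^ (k - i)) = om i := by
  unfold om
  rw [← Complex.exp_nat_mul]
  congr 1
  have h1 : ((2 ^ k : ℕ) : ℂ) = ((2 ^ (k - i) : ℕ) : ℂ) * ((2 ^ i : ℕ) : ℂ) := by
    rw [← Nat.cast_mul, ← pow_add, Nat.sub_add_cancel h]
  have h2 : ((2 ^ (k - i) : ℕ) : ℂ) ≠ 0 := by
    exact_mod_cast (by positivity : (2 ^ (k - i) : ℕ) ≠ 0)
  have h3 : ((2 ^ i : ℕ) : ℂ) ≠ 0 := by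
    exact_mod_cast (by positivity : (2 ^ i : ℕ) ≠ 0)
  rw [h1]
  field_simp

namespace Sim

variable {K : Type*} [NormedAddCommGroup K] [InnerProductSpace ℂ K] [CompleteSpace K]
variable (σ : Sim K)

lemma exists_window : ∃ (M : ℕ) (c0 : ℝ), 0 < c0 ∧ ∀ (φ : Mob) (U : K →L[ℂ] K),
    U ∈ unitary (K →L[ℂ] K) → σ.Rel φ U →
    c0 ≤ ∑ m ∈ win M, ‖lead (φ.G0i * σ.up U) m‖ ^ 2 := by
  have hxi : 0 < ‖σ.xi‖ := norm_pos_iff.mpr σ.xi_ne
  have hX := σ.Xs_norm_pos
  set b0 : ℝ := ‖σ.xi‖ / (51 * ‖(σ.X.symm : H →L[ℂ] K)‖) with hb0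
  have hb0p : 0 < b0 := by positivity
  obtain ⟨M, hM⟩ := window (51 * σ.kp) b0 hb0p
  refine ⟨M, b0 ^ 2 / 2, by positivity, fun φ U hU hrel => ?_⟩
  refine hM _ (σ.int hrel) ?_ ?_
  · have h1 := φ.G0i_norm
    have h2 : ‖σ.up U‖ ≤ σ.kp := by
      refine (σ.up_norm U).trans ?_
      have := unitary_opNorm U hU
      have := σ.kp_nonneg
      nlinarith
    calc ‖φ.G0i * σ.up U‖ ≤ ‖φ.G0i‖ * ‖σ.up U‖ := norm_mul_le _ _
      _ ≤ 51 * σ.kp := by gcongr
  · have h1 : φ.G0 ((φ.G0i * σ.up U) x0) = σ.up U x0 := by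
      rw [← mul_apply_eq_comp, ← mul_assoc, φ.G0_mul_G0i, one_mul]
    have h2 : ‖σ.up U x0‖ ≤ 51 * ‖(φ.G0i * σ.up U) x0‖ := by
      rw [← h1]
      refine (φ.G0.le_opNorm _).trans ?_
      have := φ.G0_norm
      gcongr
    have h3 : ‖σ.xi‖ ≤ ‖(σ.X.symm : H →L[ℂ] K)‖ * ‖σ.up U x0‖ := by
      have := σ.X_lower (U σ.xi)
      rw [unitary_norm U hU] at this
      exact this
    rw [hb0, div_le_iff₀ (by positivity)]
    nlinarith

lemma rot_lead {ω : ℂ} (hω : ‖ω‖ = 1) {U : K →L[ℂ] K} (h : σ.RU ω U) (m : ℤ) :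
    ‖lead ((Mob.rot ω hω).G0i * σ.up U) m‖ = ‖lead (σ.up U) m‖ := by
  set φ := Mob.rot ω hω with hφ
  have h1 := σ.int (h.rel σ hω)
  obtain ⟨D, hD⟩ : ∃ D, D = φ.G0i * σ.up U := ⟨_, rfl⟩
  rw [← hφ, ← hD] at h1
  rw [← hD]
  have h3 : σ.up U = φ.G0 * D := by rw [hD, ← mul_assoc, φ.G0_mul_G0i, one_mul]
  have h4 : lead (σ.up U) m = ω ^ m * lead D m := by
    unfold lead
    rw [h3, mul_apply_eq_comp, comm_x0 h1]
    unfold Mob.G0
    rw [J_inc0, pr_inc_same, pr_inc_same, hφ, Mob.rot_rho_apply]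
  rw [h4, norm_mul, norm_zpow, hω, one_zpow, one_mul]

lemma RU.CC_of {ω : ℂ} (hω : ‖ω‖ = 1) {U V : K →L[ℂ] K} (h : σ.RU ω U) (h' : σ.RU ω V) :
    σ.CC (Star.star U * V) := by
  have h1 := (h.star σ hω).mul σ h'
  rw [unimod_mul hω] at h1
  constructor
  · have := h1.2.1
    rwa [one_smul] at this
  · have := h1.2.2
    rwa [map_one, one_smul] at this

/-- joint eigenvectors of the dyadic rotations -/
structure Grad where
  U : ℕ → K →L[ℂ] K
  ν : ℕ → ℂ
  w : K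
  hU : ∀ k, σ.RU (om k) (U k)
  w_ne : w ≠ 0
  NSw : σ.NS w = 0
  hw : ∀ k, U k w = ν k • w

lemma exists_grad : Nonempty (Grad σ) := by
  have hex : ∀ k, ∃ U, σ.RU (om k) U := fun k => by
    obtain ⟨U, hU, _⟩ := σ.exists_RU (om k) (om_norm k)
    exact ⟨U, hU⟩
  choose U hU using hex
  obtain ⟨M, c0, hc0, hwin⟩ := σ.exists_window
  have hpn : ∀ (k t : ℕ), ‖om k ^ t‖ = 1 := fun k t => by rw [norm_pow, om_norm, one_pow]
  have hNSxi : σ.NS σ.xi = 0 := by
    unfold NS xi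
    rw [dn_apply, ContinuousLinearEquiv.apply_symm_apply]
    unfold N x0
    rw [J_inc0]
    simp
  -- eigenvectors at each level
  have hstep : ∀ k, ∃ (w : K) (μ : ℂ), U k w = μ • w ∧ ‖w‖ ≤ ‖σ.xi‖ ∧
      c0 ≤ (∑ i ∈ win M, ‖σ.eta i‖ ^ 2) * ‖(inner ℂ σ.xi w : ℂ)‖ ∧ σ.NS w = 0 := by
    intro k
    have hCC : σ.CC (U k ^ (2 ^ k)) := by
      have h1 := (hU k).pow σ (2 ^ k)
      rw [(om_prim k).pow_eq_one] at h1
      constructor
      · have := h1.2.1
        rwa [one_smul] at this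
      · have := h1.2.2
        rwa [map_one, one_smul] at this
    obtain ⟨w, μ, h1, h2, h3, h4⟩ := eig_exists (U k) (hU k).1 (2 ^ k) (by positivity) _
      (σ.irr hCC) σ.xi σ.xi_ne (win M) σ.eta c0 (fun t => by
        have h5 := (hU k).pow σ t
        have h6 := hwin (Mob.rot _ (hpn k t)) _ h5.1 (h5.rel σ (hpn k t))
        refine h6.trans (le_of_eq ?_)
        apply Finset.sum_congr rfl
        intro m _
        rw [σ.rot_lead (hpn k t) h5, lead_up])
    refine ⟨w, μ, h1, h2, h3, ?_⟩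
    have h5 := h4 (LinearMap.ker (σ.NS : K →ₗ[ℂ] K)) (by
      rw [LinearMap.mem_ker]; exact hNSxi) (fun x hx => by
      rw [LinearMap.mem_ker] at hx ⊢
      have h6 := σ.comm_NS ((hU k).rel σ (om_norm k))
      have h7 := congrArg (fun F : K →L[ℂ] K => F x) h6
      simp only [mul_apply_eq_comp] at h7
      have hx' : σ.NS x = 0 := hx
      rw [hx', map_zero] at h7
      exact h7.symm)
    rw [LinearMap.mem_ker] at h5
    exact h5
  choose wk μ hwμ hwn hwc hwN using hstep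
  set Ce : ℝ := ∑ i ∈ win M, ‖σ.eta i‖ ^ 2 with hCe
  have hCe0 : 0 ≤ Ce := Finset.sum_nonneg fun _ _ => by positivity
  have hCe1 : 0 < Ce := by
    rcases hCe0.lt_or_eq with h | h
    · exact h
    · exfalso
      have := hwc 0
      rw [← h, zero_mul] at this
      linarith
  have hwc' : ∀ k, c0 / Ce ≤ ‖(inner ℂ σ.xi (wk k) : ℂ)‖ := fun k => by
    rw [div_le_iff₀ hCe1, mul_comm]; exact hwc k
  have hwk_ne : ∀ k, wk k ≠ 0 := by
    intro k h
    have h1 := hwc' k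
    rw [h, inner_zero_right, norm_zero] at h1
    have : 0 < c0 / Ce := by positivity
    linarith
  obtain ⟨w, _, hw⟩ := exists_vlim wk ‖σ.xi‖ hwn (hyperfilter ℕ)
  have hw_ne : w ≠ 0 := by
    intro h
    have h1 := (hw σ.xi).norm
    rw [h, inner_zero_right, norm_zero] at h1
    have h2 : c0 / Ce ≤ 0 := ge_of_tendsto' h1 hwc'
    have : 0 < c0 / Ce := by positivity
    linarith
  have hstar : ∀ (F : K →L[ℂ] K) (x z : K), (inner ℂ (Star.star F x) z : ℂ) = inner ℂ x (F z) :=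
    fun F x z => by
      rw [ContinuousLinearMap.star_eq_adjoint, ContinuousLinearMap.adjoint_inner_left]
  have hNw : σ.NS w = 0 := by
    refine ext_inner_left ℂ (fun x => ?_)
    have h1 := hw (Star.star σ.NS x)
    simp only [hstar, hwN, inner_zero_right] at h1
    rw [inner_zero_right]
    exact tendsto_nhds_unique h1 tendsto_const_nhds
  -- eigenvalue ratios
  have hν : ∀ i k, ∃ ν : ℂ, ‖ν‖ ≤ 1 ∧ (i ≤ k → U i (wk k) = ν • wk k) := by
    intro i k
    by_cases hik : i ≤ k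
    · have h1 := (hU k).pow σ (2 ^ (k - i))
      rw [om_pow_sub hik] at h1
      have h2 := σ.irr ((hU i).CC_of σ (om_norm i) h1)
      set c := σ.ld (Star.star (U i) * U k ^ 2 ^ (k - i)) 0 with hc
      have hUU : U i * Star.star (U i) = 1 := (Unitary.mem_iff.mp (hU i).1).2
      have h3 : U k ^ 2 ^ (k - i) = c • U i := by
        calc U k ^ 2 ^ (k - i) = U i * (Star.star (U i) * U k ^ 2 ^ (k - i)) := by
              rw [← mul_assoc, hUU, one_mul]
          _ = c • U i := by rw [h2, mul_smul_comm, mul_one]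
      have h4 : ∀ t : ℕ, (U k ^ t) (wk k) = (μ k) ^ t • wk k := by
        intro t
        induction t with
        | zero => simp
        | succ t ih => rw [pow_succ, mul_apply_eq_comp, hwμ, map_smul, ih, smul_smul, pow_succ']
      have h5 := h4 (2 ^ (k - i))
      rw [h3, smul_apply] at h5
      have hc_ne : c ≠ 0 := by
        intro h6
        rw [h6, zero_smul] at h3
        have h7 := unitary_norm _ h1.1 (wk k)
        rw [h3, zero_apply, norm_zero] at h7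
        exact hwk_ne k (norm_eq_zero.mp h7.symm)
      have h6 : U i (wk k) = (c⁻¹ * μ k ^ 2 ^ (k - i)) • wk k := by
        rw [mul_smul, ← h5, smul_smul, inv_mul_cancel₀ hc_ne, one_smul]
      refine ⟨_, ?_, fun _ => h6⟩
      have h7 := unitary_norm _ (hU i).1 (wk k)
      rw [h6, norm_smul] at h7
      have h8 : 0 < ‖wk k‖ := norm_pos_iff.mpr (hwk_ne k)
      exact le_of_eq (mul_right_cancel₀ h8.ne' (by rw [h7, one_mul]))
    · exact ⟨0, by simp, fun h => absurd h hik⟩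
  choose ν hν1 hν2 using hν
  have hlim : ∀ i, ∃ z, Tendsto (fun k => ν i k) (hyperfilter ℕ) (𝓝 z) := fun i =>
    exists_lim (ν i) 1 (hν1 i) (hyperfilter ℕ)
  choose z hz using hlim
  refine ⟨⟨U, z, w, hU, hw_ne, hNw, fun i => ?_⟩⟩
  refine ext_inner_left ℂ (fun x => ?_)
  have h1 := hw (Star.star (U i) x)
  simp only [hstar] at h1
  have h2 : Tendsto (fun k => ν i k * (inner ℂ x (wk k) : ℂ)) (hyperfilter ℕ)
      (𝓝 (z i * inner ℂ x w)) := (hz i).mul (hw x)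
  have h3 : (fun k => ν i k * (inner ℂ x (wk k) : ℂ)) =ᶠ[hyperfilter ℕ]
      (fun k => (inner ℂ x (U i (wk k)) : ℂ)) := by
    apply Nat.hyperfilter_le_atTop
    filter_upwards [eventually_ge_atTop i] with k hk
    rw [hν2 i k hk, inner_smul_right]
  rw [inner_smul_right]
  exact tendsto_nhds_unique h1 (h2.congr' h3)

end Sim

end MPaf71ff

end

section

/-!
The vectors `w_n` and their completeness in the kernel of the nilpotent.
-/

open scoped ComplexConjugate ENNReal Topology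
open Filter

namespace MPaf71ff

lemma norm_sh (k : ℤ) (x : E) : ‖sh k x‖ = ‖x‖ := unitary_norm _ (sh_unitary k) x

lemma pr_N0 (x : H) : pr 0 (N x) = pr 1 x := by
  unfold N; rw [pr0_J]; simp

lemma pr_N1 (x : H) : pr 1 (N x) = pr 2 x := by
  unfold N; rw [pr1_J]; simp

lemma pr_N2 (x : H) : pr 2 (N x) = 0 := by
  unfold N; rw [pr2_J]; simp

lemma ker_N {x : H} (h : N x = 0) : x = inc 0 (pr 0 x) := by
  have h1 : pr 1 x = 0 := by rw [← pr_N0, h, map_zero]
  have h2 : pr 2 x = 0 := by rw [← pr_N1, h, map_zero]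
  apply ext_pr
  · rw [pr_inc_same]
  · rw [h1, pr_inc]; simp
  · rw [h2, pr_inc]; simp

lemma N_inc0 (x : E) : N (inc 0 x) = 0 := by
  unfold N
  rw [J_inc0]
  simp

lemma NN_inc2 (x : E) : N (N (inc 2 x)) = inc 0 x := by
  apply ext_pr
  · rw [pr_N0, pr_N1, pr_inc_same, pr_inc_same]
  · rw [pr_N1, pr_N2, pr_inc]; simp
  · rw [pr_N2, pr_inc]; simp

lemma T_inc0 (x : E) : T (inc 0 x) = inc 0 (sh 1 x) := by
  unfold T
  rw [J_inc0]

namespace Sim

variable {K : Type*} [NormedAddCommGroup K] [InnerProductSpace ℂ K] [CompleteSpace K]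
variable {σ : Sim K}

lemma X_NS (σ : Sim K) (x : K) : σ.X (σ.NS x) = N (σ.X x) := by
  unfold NS
  rw [dn_apply, ContinuousLinearEquiv.apply_symm_apply]

lemma S_inj (σ : Sim K) {x y : K} (h : σ.S x = σ.S y) : x = y := by
  obtain ⟨u, hu⟩ := T_isUnit
  have h1 : T (σ.X x) = T (σ.X y) := by rw [← σ.hS, ← σ.hS, h]
  have h2 := congrArg (((u⁻¹ : (H →L[ℂ] H)ˣ) : H →L[ℂ] H) : H → H) h1
  rw [← hu, ← mul_apply_eq_comp, ← mul_apply_eq_comp, Units.inv_mul, one_apply_eq_self,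
    one_apply_eq_self] at h2
  exact σ.X.injective h2

namespace Grad

variable (γ : Grad σ)

/-- coordinate vector of `w` -/
noncomputable def g : E := pr 0 (σ.X γ.w)

lemma X_w : σ.X γ.w = inc 0 γ.g := by
  apply ker_N
  rw [← X_NS, γ.NSw, map_zero]

/-- the translates of `w` -/
noncomputable def wn (n : ℤ) : K := σ.X.symm (inc 0 (sh n γ.g))

lemma X_wn (n : ℤ) : σ.X (γ.wn n) = inc 0 (sh n γ.g) := by
  unfold wn; rw [ContinuousLinearEquiv.apply_symm_apply]

lemma wn_zero : γ.wn 0 = γ.w := by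
  apply σ.X.injective
  rw [X_wn, X_w, sh_zero, one_apply_eq_self]

lemma S_wn (n : ℤ) : σ.S (γ.wn n) = γ.wn (n + 1) := by
  apply σ.X.injective
  rw [σ.hS, X_wn, X_wn, T_inc0, ← mul_apply_eq_comp, sh_mul, add_comm]

lemma NS_wn (n : ℤ) : σ.NS (γ.wn n) = 0 := by
  apply σ.X.injective
  rw [X_NS, X_wn, N_inc0, map_zero]

lemma g_ne : γ.g ≠ 0 := by
  intro h
  apply γ.w_ne
  apply σ.X.injective
  rw [X_w, h, map_zero, map_zero]

lemma wn_ne (n : ℤ) : γ.wn n ≠ 0 := by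
  intro h
  have h1 := γ.X_wn n
  rw [h, map_zero] at h1
  have h2 := norm_inc 0 (sh n γ.g)
  rw [← h1, norm_zero, norm_sh] at h2
  exact γ.g_ne (norm_eq_zero.mp h2.symm)

lemma ν_norm (k : ℕ) : ‖γ.ν k‖ = 1 := by
  have h1 := unitary_norm _ (γ.hU k).1 γ.w
  rw [γ.hw, norm_smul] at h1
  exact mul_right_cancel₀ (norm_ne_zero_iff.mpr γ.w_ne) (by rw [h1, one_mul])

lemma ν_ne (k : ℕ) : γ.ν k ≠ 0 := by
  intro h
  have := γ.ν_norm k
  rw [h, norm_zero] at this
  norm_num at this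

lemma om_ne (k : ℕ) : om k ≠ 0 := by
  intro h; have := om_norm k; rw [h, norm_zero] at this; norm_num at this

lemma U_wn (k : ℕ) (n : ℤ) : γ.U k (γ.wn n) = (γ.ν k * om k ^ n) • γ.wn n := by
  have hUS : ∀ x, γ.U k (σ.S x) = om k • σ.S (γ.U k x) := fun x => by
    have := congrArg (fun F : K →L[ℂ] K => F x) (γ.hU k).2.1
    simpa only [mul_apply_eq_comp, smul_apply] using this
  have h0 := om_ne k
  induction n using Int.induction_on with
  | zero => rw [wn_zero, γ.hw, zpow_zero, mul_one]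
  | succ n ih =>
    rw [← S_wn, hUS, ih, map_smul, smul_smul, zpow_add₀ h0, zpow_one]
    congr 1
    ring
  | pred n ih =>
    apply σ.S_inj
    have h1 := hUS (γ.wn (-(n : ℤ) - 1))
    rw [S_wn, show -(n : ℤ) - 1 + 1 = -(n : ℤ) by ring, ih] at h1
    rw [map_smul, S_wn, show -(n : ℤ) - 1 + 1 = -(n : ℤ) by ring]
    have h2 : σ.S (γ.U k (γ.wn (-(n : ℤ) - 1))) =
        (om k)⁻¹ • ((γ.ν k * om k ^ (-(n : ℤ))) • γ.wn (-(n : ℤ))) := by
      rw [h1, smul_smul, inv_mul_cancel₀ h0, one_smul]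
    rw [h2, smul_smul, zpow_sub₀ h0, zpow_one]
    congr 1
    field_simp

/-- homogeneous subspaces -/
def Hn (n : ℤ) : Submodule ℂ K where
  carrier := {v | ∀ k, γ.U k v = (γ.ν k * om k ^ n) • v}
  add_mem' := by
    intro a b ha hb k
    rw [map_add, ha k, hb k, smul_add]
  zero_mem' := by intro k; simp
  smul_mem' := by
    intro c x hx k
    rw [map_smul, hx k, smul_comm]

lemma mem_Hn {n : ℤ} {v : K} : v ∈ γ.Hn n ↔ ∀ k, γ.U k v = (γ.ν k * om k ^ n) • v := Iff.rfl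

lemma wn_mem (n : ℤ) : γ.wn n ∈ γ.Hn n := fun k => γ.U_wn k n

lemma Hn_orth {m n : ℤ} (hmn : m ≠ n) {x y : K} (hx : x ∈ γ.Hn m) (hy : y ∈ γ.Hn n) :
    (inner ℂ x y : ℂ) = 0 := by
  obtain ⟨k, hk⟩ := exists_om (sub_ne_zero.mpr hmn.symm)
  have h1 := unitary_inner _ (γ.hU k).1 x y
  rw [hx k, hy k, inner_smul_left, inner_smul_right, ← mul_assoc] at h1
  have h2 : (conj (γ.ν k * om k ^ m) * (γ.ν k * om k ^ n) - 1) * (inner ℂ x y : ℂ) = 0 := by
    rw [sub_mul, h1, one_mul, sub_self]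
  refine (mul_eq_zero.mp h2).resolve_left (fun h3 => hk ?_)
  have h4 : conj (γ.ν k * om k ^ m) * (γ.ν k * om k ^ m) = 1 :=
    unimod_mul (by rw [norm_mul, norm_zpow, γ.ν_norm, om_norm, one_zpow, one_mul])
  have h5 : conj (γ.ν k * om k ^ m) ≠ 0 := by
    intro h; rw [h, zero_mul] at h4; exact zero_ne_one h4
  have h6 : γ.ν k * om k ^ n = γ.ν k * om k ^ m :=
    mul_left_cancel₀ h5 (by rw [h4]; linear_combination h3)
  have h7 := mul_left_cancel₀ (γ.ν_ne k) h6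
  rw [zpow_sub₀ (om_ne k), h7, div_self (zpow_ne_zero _ (om_ne k))]

lemma closed_Hn (n : ℤ) : IsClosed (γ.Hn n : Set K) := by
  have : (γ.Hn n : Set K) = ⋂ k, {v | γ.U k v = (γ.ν k * om k ^ n) • v} := by
    ext v; simp [Hn]
  rw [this]
  exact isClosed_iInter fun k => isClosed_eq (γ.U k).continuous (continuous_id.const_smul _)

instance (n : ℤ) : CompleteSpace (γ.Hn n) := (γ.closed_Hn n).completeSpace_coe

lemma wn_norm_le (n : ℤ) : ‖γ.wn n‖ ≤ ‖(σ.X.symm : H →L[ℂ] K)‖ * ‖γ.g‖ := by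
  have h := σ.Xs_norm (inc 0 (sh n γ.g))
  rw [norm_inc, norm_sh] at h
  exact h

lemma wn_norm_ge (n : ℤ) : ‖γ.g‖ ≤ ‖(σ.X : K →L[ℂ] H)‖ * ‖γ.wn n‖ := by
  have h := σ.X_norm (γ.wn n)
  rw [X_wn, norm_inc, norm_sh] at h
  exact h

lemma X_norm_pos (γ : Grad σ) : 0 < ‖(σ.X : K →L[ℂ] H)‖ := by
  have h := γ.wn_norm_ge 0
  have h2 : 0 < ‖γ.g‖ := norm_pos_iff.mpr γ.g_ne
  by_contra h3
  push Not at h3
  have : ‖(σ.X : K →L[ℂ] H)‖ * ‖γ.wn 0‖ ≤ 0 := mul_nonpos_of_nonpos_of_nonneg h3 (norm_nonneg _)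
  linarith

/-- normalised translates -/
noncomputable def un (n : ℤ) : K := ((‖γ.wn n‖ : ℂ)⁻¹) • γ.wn n

lemma un_orth : Orthonormal ℂ γ.un := by
  rw [orthonormal_iff_ite]
  intro m n
  unfold un
  rw [inner_smul_left, inner_smul_right]
  by_cases h : m = n
  · subst h
    rw [if_pos rfl, inner_self_eq_norm_sq_to_K]
    have : (‖γ.wn m‖ : ℂ) ≠ 0 := by
      rw [Complex.ofReal_ne_zero]; exact norm_ne_zero_iff.mpr (γ.wn_ne m)
    rw [map_inv₀, Complex.conj_ofReal]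
    simp only [Complex.coe_algebraMap]
    field_simp
  · rw [if_neg h, γ.Hn_orth h (γ.wn_mem m) (γ.wn_mem n), mul_zero, mul_zero]

/-- the isometry sending the standard basis to the normalised translates -/
noncomputable def Jw : E →ₗᵢ[ℂ] K := γ.un_orth.orthogonalFamily.linearIsometry

lemma Jw_e (n : ℤ) : γ.Jw (e n) = γ.un n := by
  unfold Jw e
  rw [OrthogonalFamily.linearIsometry_apply_single]
  simp

/-- diagonal weights -/
noncomputable def Dg : E →L[ℂ] E := wsh 0 (fun n => (‖γ.wn n‖ : ℂ))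
  (‖(σ.X.symm : H →L[ℂ] K)‖ * ‖γ.g‖) (fun n => by
    rw [Complex.norm_real, norm_norm]; exact γ.wn_norm_le n)

lemma Dg_e (n : ℤ) : γ.Dg (e n) = (‖γ.wn n‖ : ℂ) • e n := by
  unfold Dg; rw [wsh_e, add_zero]

lemma JD_e (n : ℤ) : γ.Jw (γ.Dg (e n)) = γ.wn n := by
  rw [Dg_e, map_smul, Jw_e]
  unfold un
  rw [smul_smul, mul_inv_cancel₀, one_smul]
  rw [Complex.ofReal_ne_zero]; exact norm_ne_zero_iff.mpr (γ.wn_ne n)

/-- the composite -/
noncomputable def XJD : E →L[ℂ] H :=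
  (σ.X : K →L[ℂ] H) ∘L γ.Jw.toContinuousLinearMap ∘L γ.Dg

lemma XJD_apply (x : E) : γ.XJD x = σ.X (γ.Jw (γ.Dg x)) := rfl

lemma XJD_eq : γ.XJD = inc 0 ∘L (pr 0 ∘L γ.XJD) := by
  apply ext_e
  intro n
  rw [ContinuousLinearMap.comp_apply, ContinuousLinearMap.comp_apply, XJD_apply, JD_e, X_wn,
    pr_inc_same]

/-- the shift-commuting operator -/
noncomputable def G : E →L[ℂ] E := pr 0 ∘L γ.XJD

lemma G_e (n : ℤ) : γ.G (e n) = sh n γ.g := by
  unfold G
  rw [ContinuousLinearMap.comp_apply, XJD_apply, JD_e, X_wn, pr_inc_same]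

lemma G_comm : γ.G * sh 1 = sh 1 * γ.G := by
  apply ext_e
  intro n
  rw [mul_apply_eq_comp, mul_apply_eq_comp, sh_e, G_e, G_e, ← mul_apply_eq_comp, sh_mul, add_comm]

lemma inc_G (x : E) : inc 0 (γ.G x) = σ.X (γ.Jw (γ.Dg x)) := by
  rw [← XJD_apply]
  conv_rhs => rw [XJD_eq]
  rfl

lemma G_star_comm : star γ.G * sh 1 = sh 1 * star γ.G := by
  have h := congrArg star γ.G_comm
  rw [star_mul, star_mul, star_sh] at h
  -- sh (-1) * star G = star G * sh (-1)
  calc star γ.G * sh 1 = sh 1 * (sh (-1) * star γ.G) * sh 1 := by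
        rw [← mul_assoc, sh_isUnit_left, one_mul]
    _ = sh 1 * (star γ.G * sh (-1)) * sh 1 := by rw [h]
    _ = _ := by rw [mul_assoc, mul_assoc, sh_isUnit_right, mul_one]

lemma Dg_lower (x : E) : ‖γ.g‖ * ‖x‖ ≤ ‖(σ.X : K →L[ℂ] H)‖ * ‖γ.Dg x‖ := by
  have h1 := hasSum_sq (γ.Dg x)
  have h2 := hasSum_sq x
  have h3 : ∀ n, ‖γ.g‖ ^ 2 * ‖(x : ℤ → ℂ) n‖ ^ 2 ≤
      ‖(σ.X : K →L[ℂ] H)‖ ^ 2 * ‖(γ.Dg x : ℤ → ℂ) n‖ ^ 2 := by
    intro n
    unfold Dg
    rw [wsh_apply, sub_zero, norm_mul, Complex.norm_real, norm_norm, ← mul_pow, ← mul_pow,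
      ← mul_assoc]
    have := γ.wn_norm_ge n
    gcongr
  have h4 := hasSum_le h3 (h2.mul_left _) (h1.mul_left _)
  rw [← mul_pow, ← mul_pow] at h4
  exact (sq_le_sq₀ (by positivity) (by positivity)).mp h4

lemma G_surj : Function.Surjective γ.G := by
  have hXs := σ.Xs_norm_pos
  have hX := γ.X_norm_pos
  have hg : 0 < ‖γ.g‖ := norm_pos_iff.mpr γ.g_ne
  refine normal_surj γ.G (shift_commutant γ.G_star_comm γ.G_comm)
    (‖γ.g‖ / (‖(σ.X : K →L[ℂ] H)‖ * ‖(σ.X.symm : H →L[ℂ] K)‖)) (by positivity) (fun x => ?_)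
  have h1 : ‖γ.Dg x‖ ≤ ‖(σ.X.symm : H →L[ℂ] K)‖ * ‖γ.G x‖ := by
    have h2 := σ.X_lower (γ.Jw (γ.Dg x))
    rw [← inc_G, norm_inc, LinearIsometry.norm_map] at h2
    exact h2
  have h2 := γ.Dg_lower x
  rw [div_mul_eq_mul_div, div_le_iff₀ (by positivity)]
  calc ‖γ.g‖ * ‖x‖ ≤ ‖(σ.X : K →L[ℂ] H)‖ * ‖γ.Dg x‖ := h2
    _ ≤ ‖(σ.X : K →L[ℂ] H)‖ * (‖(σ.X.symm : H →L[ℂ] K)‖ * ‖γ.G x‖) := by gcongr
    _ = _ := by ring

/-- completeness of the translates in the kernel -/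
lemma complete {y : K} (hy : σ.NS y = 0) (h : ∀ n, (inner ℂ (γ.wn n) y : ℂ) = 0) : y = 0 := by
  have h1 : N (σ.X y) = 0 := by rw [← X_NS, hy, map_zero]
  obtain ⟨z, hz⟩ := γ.G_surj (pr 0 (σ.X y))
  have h2 : y = γ.Jw (γ.Dg z) := by
    apply σ.X.injective
    rw [← inc_G, hz]
    exact ker_N h1
  set v := γ.Dg z with hv
  have h3 : v = 0 := by
    ext n
    rw [co_zero, ← inner_e, ← γ.Jw.inner_map_map, Jw_e, ← h2]
    unfold un
    rw [inner_smul_left, h n, mul_zero]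
  rw [h2, h3, map_zero]

/-- the kernel in each degree is one dimensional -/
lemma ker_Hn {n : ℤ} {y : K} (hy : σ.NS y = 0) (h : y ∈ γ.Hn n) : ∃ c : ℂ, y = c • γ.wn n := by
  refine ⟨inner ℂ (γ.wn n) y / (‖γ.wn n‖ : ℂ) ^ 2, ?_⟩
  rw [← sub_eq_zero]
  apply γ.complete
  · rw [map_sub, map_smul, hy, NS_wn, smul_zero, sub_zero]
  · intro m
    by_cases hm : m = n
    · subst hm
      rw [inner_sub_right, inner_smul_right, inner_self_eq_norm_sq_to_K]
      have : (‖γ.wn m‖ : ℂ) ≠ 0 := by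
        rw [Complex.ofReal_ne_zero]; exact norm_ne_zero_iff.mpr (γ.wn_ne m)
      simp only [Complex.coe_algebraMap]
      field_simp
      ring
    · exact γ.Hn_orth hm (γ.wn_mem m) ((γ.Hn n).sub_mem h ((γ.Hn n).smul_mem _ (γ.wn_mem n)))

end Grad

end Sim

end MPaf71ff

end
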