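import Pool.Agent.Lib.MP_af71ff_an.Defs

/-!
The literal order of the file is contradictory: no operator on a nonzero Hilbert space admits
invertible `Γ φ` with `φ(T) = Γ φ T (Γ φ)⁻¹` and `Γ (φ ∘ ψ) = Γ φ Γ ψ`.
-/

open scoped ComplexConjugate

namespace MPaf71ff

variable {H : Type*} [NormedAddCommGroup H] [InnerProductSpace ℂ H] [CompleteSpace H]

omit [CompleteSpace H] in
lemma isUnit_of_spec {T : H →L[ℂ] H} (hT : spectrum ℂ T ⊆ Metric.closedBall 0 1) {b : ℂ}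
    (hb : ‖b‖ < 1) : IsUnit ((1 : H →L[ℂ] H) - b • T) := by
  by_cases h0 : b = 0
  · rw [h0, zero_smul, sub_zero]; exact isUnit_one
  · have h1 : b⁻¹ ∉ spectrum ℂ T := by
      intro h
      have h2 := hT h
      rw [mem_closedBall_zero_iff, norm_inv] at h2
      have h3 : 0 < ‖b‖ := norm_pos_iff.mpr h0
      have h4 : 1 < ‖b‖⁻¹ := (one_lt_inv₀ h3).mpr hb
      linarith
    rw [spectrum.notMem_iff] at h1
    have h2 : (1 : H →L[ℂ] H) - b • T =
        b • (algebraMap ℂ (H →L[ℂ] H) b⁻¹ - T) := by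
      rw [smul_sub, Algebra.algebraMap_eq_smul_one, smul_smul, mul_inv_cancel₀ h0, one_smul]
    rw [h2]
    exact h1.smul (Units.mk0 b h0)

omit [CompleteSpace H] in
lemma op_mul {T : H →L[ℂ] H} (hT : spectrum ℂ T ⊆ Metric.closedBall 0 1) (φ : Mob) :
    φ.op T * (1 - conj φ.a • T) = φ.lam • (T - φ.a • (1 : H →L[ℂ] H)) := by
  have h := isUnit_of_spec hT (b := conj φ.a) (by rw [RCLike.norm_conj]; exact φ.norm_a)
  unfold Mob.op
  rw [smul_mul_assoc, mul_assoc, Ring.inverse_mul_cancel _ h, mul_one]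

/-- the rotation by `i` -/
noncomputable def rotI : Mob := ⟨Complex.I, 0, by simp, by simp⟩

/-- real parameter automorphism times a unimodular constant -/
noncomputable def rp (l : ℂ) (hl : ‖l‖ = 1) (a : ℝ) (ha : |a| < 1) : Mob :=
  ⟨l, (a : ℂ), hl, by rwa [Complex.norm_real, Real.norm_eq_abs]⟩

lemma literal_step {T : H →L[ℂ] H} (hT : spectrum ℂ T ⊆ Metric.closedBall 0 1)
    {Γ : Mob → (H →L[ℂ] H)ˣ}
    (hΓ : ∀ φ : Mob, φ.op T = (Γ φ : H →L[ℂ] H) * T * ((Γ φ)⁻¹ : (H →L[ℂ] H)ˣ))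
    (hm : ∀ φ ψ χ : Mob, (∀ z : ℂ, ‖z‖ < 1 → χ.toFun z = φ.toFun (ψ.toFun z)) →
      Γ χ = Γ φ * Γ ψ) {a : ℝ} (ha : |a| < 1) (ha0 : a ≠ 0) :
    Complex.I • (T * T) + 1 = ((a : ℂ) * (1 + Complex.I)) • T := by
  set ψ := rp 1 (by simp) a ha with hψ
  set χ := rp Complex.I (by simp) a ha with hχ
  have h1 : Γ χ = Γ rotI * Γ ψ := by
    apply hm
    intro z _
    simp only [Mob.toFun, hχ, hψ, rp, rotI, map_zero, zero_mul, sub_zero, div_one, one_mul]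
    rw [mul_div_assoc]
  have h2 : χ.op T * (1 - (a : ℂ) • T) = Complex.I • (T - (a : ℂ) • (1 : H →L[ℂ] H)) := by
    have := op_mul hT χ
    simpa only [hχ, rp, Complex.conj_ofReal] using this
  have h3 : ψ.op T * (1 - (a : ℂ) • T) = T - (a : ℂ) • (1 : H →L[ℂ] H) := by
    have := op_mul hT ψ
    simpa only [hψ, rp, Complex.conj_ofReal, one_smul] using this
  have h4 : rotI.op T = Complex.I • T := by
    have := op_mul hT rotI
    simpa [rotI] using this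
  set G : (H →L[ℂ] H)ˣ := Γ rotI with hG
  have h5 : (G : H →L[ℂ] H) * T * ((G⁻¹ : (H →L[ℂ] H)ˣ) : H →L[ℂ] H) = Complex.I • T := by
    rw [← h4, hΓ rotI]
  have h6 : χ.op T = (G : H →L[ℂ] H) * ψ.op T * ((G⁻¹ : (H →L[ℂ] H)ˣ) : H →L[ℂ] H) := by
    rw [hΓ χ, hΓ ψ, h1, mul_inv_rev]
    push_cast
    simp only [mul_assoc]
  have h7 : χ.op T * (1 - ((a : ℂ) * Complex.I) • T) =
      Complex.I • T - (a : ℂ) • (1 : H →L[ℂ] H) := by
    have e1 : (1 : H →L[ℂ] H) - ((a : ℂ) * Complex.I) • T = (G : H →L[ℂ] H) *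
        (1 - (a : ℂ) • T) * ((G⁻¹ : (H →L[ℂ] H)ˣ) : H →L[ℂ] H) := by
      rw [mul_sub, sub_mul, mul_one, Units.mul_inv, mul_smul_comm, smul_mul_assoc, h5, smul_smul]
    have e2 : Complex.I • T - (a : ℂ) • (1 : H →L[ℂ] H) = (G : H →L[ℂ] H) *
        (T - (a : ℂ) • (1 : H →L[ℂ] H)) * ((G⁻¹ : (H →L[ℂ] H)ˣ) : H →L[ℂ] H) := by
      rw [mul_sub, sub_mul, h5, mul_smul_comm, mul_one, smul_mul_assoc, Units.mul_inv]
    rw [e1, e2, h6, ← h3]
    calc (G : H →L[ℂ] H) * ψ.op T * ((G⁻¹ : (H →L[ℂ] H)ˣ) : H →L[ℂ] H) *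
          ((G : H →L[ℂ] H) * (1 - (a : ℂ) • T) * ((G⁻¹ : (H →L[ℂ] H)ˣ) : H →L[ℂ] H))
        = (G : H →L[ℂ] H) * ψ.op T * (((G⁻¹ : (H →L[ℂ] H)ˣ) : H →L[ℂ] H) * (G : H →L[ℂ] H)) *
          (1 - (a : ℂ) • T) * ((G⁻¹ : (H →L[ℂ] H)ˣ) : H →L[ℂ] H) := by
          simp only [mul_assoc]
      _ = _ := by rw [Units.inv_mul, mul_one]; simp only [mul_assoc]
  have hcomm : (1 - (a : ℂ) • T) * (1 - ((a : ℂ) * Complex.I) • T) =
      (1 - ((a : ℂ) * Complex.I) • T) * (1 - (a : ℂ) • T) := by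
    simp only [mul_sub, sub_mul, mul_one, one_mul, mul_smul_comm, smul_mul_assoc, smul_smul]
    module
  have h8 : (Complex.I • (T - (a : ℂ) • (1 : H →L[ℂ] H))) * (1 - ((a : ℂ) * Complex.I) • T) =
      (Complex.I • T - (a : ℂ) • (1 : H →L[ℂ] H)) * (1 - (a : ℂ) • T) := by
    rw [← h2, ← h7, mul_assoc, mul_assoc, hcomm]
  have hI : Complex.I * Complex.I = -1 := Complex.I_mul_I
  have h9 : ((a : ℂ) * (1 - Complex.I)) • (Complex.I • (T * T) + 1 -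
      ((a : ℂ) * (1 + Complex.I)) • T) = 0 := by
    rw [← sub_eq_zero] at h8
    rw [← h8]
    simp only [mul_sub, sub_mul, mul_one, one_mul, mul_smul_comm, smul_mul_assoc]
    match_scalars
    · linear_combination (0 : ℂ) * hI
    · linear_combination (0 : ℂ) * hI
    · linear_combination (0 : ℂ) * hI
  have h10 : (a : ℂ) * (1 - Complex.I) ≠ 0 := by
    refine mul_ne_zero (Complex.ofReal_ne_zero.mpr ha0) (fun h => ?_)
    have := congrArg Complex.re h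
    simp at this
  exact sub_eq_zero.mp ((smul_eq_zero.mp h9).resolve_left h10)

/-- the literal order is contradictory -/
theorem literal [Nontrivial H] {T : H →L[ℂ] H} (hT : spectrum ℂ T ⊆ Metric.closedBall 0 1)
    {Γ : Mob → (H →L[ℂ] H)ˣ}
    (hΓ : ∀ φ : Mob, φ.op T = (Γ φ : H →L[ℂ] H) * T * ((Γ φ)⁻¹ : (H →L[ℂ] H)ˣ))
    (hm : ∀ φ ψ χ : Mob, (∀ z : ℂ, ‖z‖ < 1 → χ.toFun z = φ.toFun (ψ.toFun z)) →
      Γ χ = Γ φ * Γ ψ) : False := by
  have h1 := literal_step hT hΓ hm (a := 1 / 2) (by rw [abs_of_pos] <;> norm_num) (by norm_num)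
  have h2 := literal_step hT hΓ hm (a := 1 / 4) (by rw [abs_of_pos] <;> norm_num) (by norm_num)
  rw [h1, ← sub_eq_zero, ← sub_smul] at h2
  have h3 : ((((1 / 2 : ℝ) : ℂ)) * (1 + Complex.I) - (((1 / 4 : ℝ) : ℂ)) * (1 + Complex.I)) ≠ 0 := by
    intro h
    have := congrArg Complex.re h
    simp at this
    norm_num at this
  have h4 : T = 0 := (smul_eq_zero.mp h2).resolve_left h3
  rw [h4] at h1
  simp at h1

end MPaf71ff
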