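import Pool.Agent.Lib.MP_af71ff_an.Irr

section

/-!
Structure of the homogeneous subspaces `Hn n`.
-/

open scoped ComplexConjugate ENNReal Topology
open Filter

namespace MPaf71ff

namespace Sim

variable {K : Type*} [NormedAddCommGroup K] [InnerProductSpace ℂ K] [CompleteSpace K]
variable {σ : Sim K}

lemma star_inner_l (F : K →L[ℂ] K) (x z : K) : (inner ℂ (star F x) z : ℂ) = inner ℂ x (F z) := by
  rw [ContinuousLinearMap.star_eq_adjoint, ContinuousLinearMap.adjoint_inner_left]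

lemma star_inner_r (F : K →L[ℂ] K) (x z : K) : (inner ℂ x (star F z) : ℂ) = inner ℂ (F x) z := by
  rw [ContinuousLinearMap.star_eq_adjoint, ContinuousLinearMap.adjoint_inner_right]

lemma NS_cube (σ : Sim K) (x : K) : σ.NS (σ.NS (σ.NS x)) = 0 := by
  apply σ.X.injective
  rw [X_NS, X_NS, X_NS, map_zero]
  have := congrArg (fun F : H →L[ℂ] H => F (σ.X x)) N_cube
  simpa only [mul_apply_eq_comp, zero_apply] using this

lemma S_NS (σ : Sim K) (x : K) : σ.S (σ.NS x) = σ.NS (σ.S x) := by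
  apply σ.X.injective
  rw [σ.hS, X_NS, X_NS, σ.hS]
  have := congrArg (fun F : H →L[ℂ] H => F (σ.X x)) (N_J (sh 1) A B)
  simp only [mul_apply_eq_comp] at this
  exact this.symm

namespace Grad

variable (γ : Grad σ)

/-- projection on the homogeneous subspace -/
noncomputable def P (n : ℤ) : K →L[ℂ] K := (γ.Hn n).starProjection

lemma P_mem (n : ℤ) (x : K) : γ.P n x ∈ γ.Hn n := Submodule.starProjection_apply_mem _ x

lemma P_self {n : ℤ} {x : K} (h : x ∈ γ.Hn n) : γ.P n x = x :=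
  Submodule.eq_starProjection_of_mem_of_inner_eq_zero h (fun w _ => by rw [sub_self, inner_zero_left])

lemma inner_P {n : ℤ} {z : K} (h : z ∈ γ.Hn n) (x : K) :
    (inner ℂ z (γ.P n x) : ℂ) = inner ℂ z x := by
  have h1 := Submodule.starProjection_inner_eq_zero (K := γ.Hn n) x z h
  have h2 : (inner ℂ z (x - γ.P n x) : ℂ) = 0 := by
    rw [← inner_conj_symm]
    unfold P
    rw [h1, map_zero]
  rw [inner_sub_right, sub_eq_zero] at h2
  exact h2.symm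

lemma P_comm {n n' : ℤ} {F : K →L[ℂ] K} (h1 : ∀ x ∈ γ.Hn n, F x ∈ γ.Hn n')
    (h2 : ∀ x ∈ γ.Hn n', star F x ∈ γ.Hn n) (x : K) : γ.P n' (F x) = F (γ.P n x) := by
  refine Submodule.eq_starProjection_of_mem_of_inner_eq_zero (h1 _ (γ.P_mem n x)) (fun w hw => ?_)
  rw [← map_sub, ← inner_conj_symm, ← star_inner_l, inner_sub_right, γ.inner_P (h2 w hw), sub_self,
    map_zero]

lemma S_mem {n : ℤ} {x : K} (h : x ∈ γ.Hn n) : σ.S x ∈ γ.Hn (n + 1) := by
  intro k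
  have h1 := congrArg (fun F : K →L[ℂ] K => F x) (γ.hU k).2.1
  simp only [mul_apply_eq_comp, smul_apply] at h1
  rw [h1, h k, map_smul, smul_smul, zpow_add₀ (om_ne k), zpow_one]
  congr 1
  ring

lemma Ss_mem {n : ℤ} {x : K} (h : x ∈ γ.Hn (n + 1)) : star σ.S x ∈ γ.Hn n := by
  intro k
  have h1 := congrArg (fun F : K →L[ℂ] K => F x) (γ.hU k).2.2
  simp only [mul_apply_eq_comp, smul_apply] at h1
  rw [h1, h k, map_smul, smul_smul, zpow_add₀ (om_ne k), zpow_one]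
  congr 1
  have h2 := unimod_mul (om_norm k)
  linear_combination (γ.ν k * om k ^ n) * h2

lemma NS_mem {n : ℤ} {x : K} (h : x ∈ γ.Hn n) : σ.NS x ∈ γ.Hn n := by
  intro k
  have h1 := congrArg (fun F : K →L[ℂ] K => F x) (σ.comm_NS ((γ.hU k).rel σ (om_norm k)))
  simp only [mul_apply_eq_comp] at h1
  rw [h1, h k, map_smul]

lemma NSs_mem {n : ℤ} {x : K} (h : x ∈ γ.Hn n) : star σ.NS x ∈ γ.Hn n := by
  intro k
  have h1 := congrArg (fun F : K →L[ℂ] K => F x)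
    (σ.comm_NS_star (γ.hU k).1 ((γ.hU k).rel σ (om_norm k)))
  simp only [mul_apply_eq_comp] at h1
  rw [h1, h k, map_smul]

lemma P_S (n : ℤ) (x : K) : γ.P (n + 1) (σ.S x) = σ.S (γ.P n x) :=
  γ.P_comm (fun _ h => γ.S_mem h) (fun _ h => γ.Ss_mem h) x

lemma P_NS (n : ℤ) (x : K) : γ.P n (σ.NS x) = σ.NS (γ.P n x) :=
  γ.P_comm (fun _ h => γ.NS_mem h) (fun _ h => γ.NSs_mem h) x

lemma P_NSs (n : ℤ) (x : K) : γ.P n (star σ.NS x) = star σ.NS (γ.P n x) :=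
  γ.P_comm (fun _ h => γ.NSs_mem h) (fun _ h => by rw [star_star]; exact γ.NS_mem h) x

/-- structure of the homogeneous subspaces -/
lemma struct {n : ℤ} {v : K} (hv : v ∈ γ.Hn n) (hw : σ.NS (σ.NS v) = γ.wn n) {x : K}
    (hx : x ∈ γ.Hn n) : ∃ α β δ : ℂ, x = α • v + β • σ.NS v + δ • γ.wn n := by
  obtain ⟨α, hα⟩ := γ.ker_Hn (σ.NS_cube x) (γ.NS_mem (γ.NS_mem hx))
  have h1 : σ.NS (σ.NS (x - α • v)) = 0 := by
    rw [map_sub, map_sub, map_smul, map_smul, hα, hw, sub_self]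
  obtain ⟨β, hβ⟩ := γ.ker_Hn h1 (γ.NS_mem ((γ.Hn n).sub_mem hx ((γ.Hn n).smul_mem _ hv)))
  have h2 : σ.NS (x - α • v - β • σ.NS v) = 0 := by
    rw [map_sub, map_smul, hβ, hw, sub_self]
  obtain ⟨δ, hδ⟩ := γ.ker_Hn h2 ((γ.Hn n).sub_mem ((γ.Hn n).sub_mem hx ((γ.Hn n).smul_mem _ hv))
    ((γ.Hn n).smul_mem _ (γ.NS_mem hv)))
  refine ⟨α, β, δ, ?_⟩
  rw [← hδ]
  abel

lemma uniq {n : ℤ} {v : K} (hw : σ.NS (σ.NS v) = γ.wn n) {α β δ α' β' δ' : ℂ}
    (h : α • v + β • σ.NS v + δ • γ.wn n = α' • v + β' • σ.NS v + δ' • γ.wn n) :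
    α = α' ∧ β = β' ∧ δ = δ' := by
  have hne := γ.wn_ne n
  have h1 := congrArg (fun z => σ.NS (σ.NS z)) h
  simp only [map_add, map_smul, hw, NS_wn, smul_zero, add_zero] at h1
  have e1 : α = α' := smul_left_injective ℂ hne h1
  subst e1
  have h2 := congrArg σ.NS h
  simp only [map_add, map_smul, hw, NS_wn, smul_zero, add_zero] at h2
  have e2 : β = β' := smul_left_injective ℂ hne (add_left_cancel h2)
  subst e2
  exact ⟨rfl, rfl, smul_left_injective ℂ hne (add_left_cancel h)⟩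

lemma exists_NSs (n : ℤ) : ∃ c : ℂ, c ≠ 0 ∧
    σ.NS (σ.NS (star σ.NS (star σ.NS (γ.wn n)))) = c • γ.wn n := by
  obtain ⟨c, hc⟩ := γ.ker_Hn (σ.NS_cube (star σ.NS (star σ.NS (γ.wn n))))
    (γ.NS_mem (γ.NS_mem (γ.NSs_mem (γ.NSs_mem (γ.wn_mem n)))))
  refine ⟨c, fun h => ?_, hc⟩
  rw [h, zero_smul] at hc
  have h1 : (inner ℂ (γ.wn n) (σ.NS (σ.NS (star σ.NS (star σ.NS (γ.wn n))))) : ℂ) = 0 := by
    rw [hc, inner_zero_right]
  rw [← star_inner_l, ← star_inner_l, inner_self_eq_zero] at h1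
  -- `w_n` is in the range of `NS²`
  have h2 : γ.wn n = σ.NS (σ.NS (σ.X.symm (inc 2 (sh n γ.g)))) := by
    apply σ.X.injective
    rw [X_NS, X_NS, ContinuousLinearEquiv.apply_symm_apply, NN_inc2, X_wn]
  have h3 : (inner ℂ (γ.wn n) (γ.wn n) : ℂ) = 0 := by
    conv_lhs => rw [h2]
    rw [← star_inner_r, ← star_inner_r]
    rw [← h2, h1, inner_zero_right]
  exact γ.wn_ne n (inner_self_eq_zero.mp h3)

/-- operators of degree zero commuting with the nilpotent and its adjoint are scalar in each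
degree -/
lemma scal {n : ℤ} {A : K →L[ℂ] K} (hA : ∀ v ∈ γ.Hn n, A v ∈ γ.Hn n)
    (h1 : ∀ v ∈ γ.Hn n, A (σ.NS v) = σ.NS (A v))
    (h2 : ∀ v ∈ γ.Hn n, A (star σ.NS v) = star σ.NS (A v)) :
    ∃ c : ℂ, ∀ v ∈ γ.Hn n, A v = c • v := by
  have hw := γ.wn_mem n
  have h3 : σ.NS (A (γ.wn n)) = 0 := by rw [← h1 _ hw, NS_wn, map_zero]
  obtain ⟨c, hc⟩ := γ.ker_Hn h3 (hA _ hw)
  obtain ⟨d, hd, hd'⟩ := γ.exists_NSs n
  refine ⟨c, fun v hv => ?_⟩
  set z := d⁻¹ • star σ.NS (star σ.NS (γ.wn n)) with hz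
  have hzm : z ∈ γ.Hn n := (γ.Hn n).smul_mem _ (γ.NSs_mem (γ.NSs_mem hw))
  have hzw : σ.NS (σ.NS z) = γ.wn n := by
    rw [hz, map_smul, map_smul, hd', smul_smul, inv_mul_cancel₀ hd, one_smul]
  have hAz : A z = c • z := by
    rw [hz, map_smul, h2 _ (γ.NSs_mem hw), h2 _ hw, hc, map_smul, map_smul, smul_comm]
  clear_value z
  obtain ⟨α, β, δ, h⟩ := γ.struct hzm hzw hv
  rw [h, map_add, map_add, map_smul, map_smul, map_smul, h1 _ hzm, hAz, hc, map_smul]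
  simp only [smul_add, smul_smul, mul_comm c]

/-- a cyclic vector in degree zero -/
lemma exists_zt : ∃ z ∈ γ.Hn 0, σ.NS (σ.NS z) = γ.w := by
  obtain ⟨c, hc, h⟩ := γ.exists_NSs 0
  refine ⟨c⁻¹ • star σ.NS (star σ.NS (γ.wn 0)), (γ.Hn 0).smul_mem _
    (γ.NSs_mem (γ.NSs_mem (γ.wn_mem 0))), ?_⟩
  rw [map_smul, map_smul, h, smul_smul, inv_mul_cancel₀ hc, one_smul, wn_zero]

/-- the cyclic vector in degree zero -/
noncomputable def zt0 : K := γ.exists_zt.choose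

/-- cyclic vectors in nonnegative degrees -/
noncomputable def zt (n : ℕ) : K := (σ.S ^ n) γ.zt0

lemma S_zt (n : ℕ) : σ.S (γ.zt n) = γ.zt (n + 1) := by
  unfold zt; rw [pow_succ', mul_apply_eq_comp]

lemma zt_mem (n : ℕ) : γ.zt n ∈ γ.Hn n := by
  induction n with
  | zero =>
    have : γ.zt 0 = γ.zt0 := by unfold zt; rw [pow_zero, one_apply_eq_self]
    rw [this]
    exact γ.exists_zt.choose_spec.1
  | succ n ih => rw [← S_zt]; push_cast; exact γ.S_mem ih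

lemma NN_zt (n : ℕ) : σ.NS (σ.NS (γ.zt n)) = γ.wn n := by
  induction n with
  | zero =>
    have : γ.zt 0 = γ.zt0 := by unfold zt; rw [pow_zero, one_apply_eq_self]
    rw [this]
    push_cast
    rw [wn_zero]
    exact γ.exists_zt.choose_spec.2
  | succ n ih => rw [← S_zt, ← S_NS, ← S_NS, ih, S_wn]; push_cast; rfl

end Grad

end Sim

end MPaf71ff

end

section

/-!
Coefficients of the intertwining unitaries with respect to the grading, and the rigidity of the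
norm ratios.
-/

open scoped ComplexConjugate ENNReal Topology
open Filter

namespace MPaf71ff

namespace Sim

variable {K : Type*} [NormedAddCommGroup K] [InnerProductSpace ℂ K] [CompleteSpace K]
variable {σ : Sim K}

/-- unitaries commuting with the nilpotent and its adjoint -/
structure Good (σ : Sim K) (U : K →L[ℂ] K) : Prop where
  unit : U ∈ unitary (K →L[ℂ] K)
  c1 : ∀ x, U (σ.NS x) = σ.NS (U x)
  c2 : ∀ x, U (star σ.NS x) = star σ.NS (U x)

lemma Good.of_rel {φ : Mob} {U : K →L[ℂ] K} (hU : U ∈ unitary (K →L[ℂ] K)) (h : σ.Rel φ U) :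
    σ.Good U := by
  refine ⟨hU, fun x => ?_, fun x => ?_⟩
  · have := congrArg (fun F : K →L[ℂ] K => F x) (σ.comm_NS h)
    simpa only [mul_apply_eq_comp] using this
  · have := congrArg (fun F : K →L[ℂ] K => F x) (σ.comm_NS_star hU h)
    simpa only [mul_apply_eq_comp] using this

lemma Good.star {U : K →L[ℂ] K} (h : σ.Good U) : σ.Good (star U) := by
  refine ⟨Unitary.star_mem h.unit, fun x => ?_, fun x => ?_⟩
  · refine ext_inner_left ℂ (fun z => ?_)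
    rw [star_inner_r, ← star_inner_l σ.NS (U z) x, ← h.c2, ← star_inner_r U _ x, star_inner_l]
  · refine ext_inner_left ℂ (fun z => ?_)
    rw [star_inner_r, star_inner_r, star_inner_r, ← h.c1, star_inner_r]

namespace Grad

variable (γ : Grad σ)

lemma exists_cf (U : K →L[ℂ] K) (m n : ℕ) : ∃ u : ℂ × ℂ × ℂ, γ.P m (U (γ.zt n)) =
    u.1 • γ.zt m + u.2.1 • σ.NS (γ.zt m) + u.2.2 • γ.wn m := by
  obtain ⟨α, β, δ, h⟩ := γ.struct (γ.zt_mem m) (γ.NN_zt m) (γ.P_mem m (U (γ.zt n)))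
  exact ⟨(α, β, δ), h⟩

/-- coefficients -/
noncomputable def u0 (U : K →L[ℂ] K) (m n : ℕ) : ℂ := (γ.exists_cf U m n).choose.1
noncomputable def u1 (U : K →L[ℂ] K) (m n : ℕ) : ℂ := (γ.exists_cf U m n).choose.2.1
noncomputable def u2 (U : K →L[ℂ] K) (m n : ℕ) : ℂ := (γ.exists_cf U m n).choose.2.2

lemma cf_zt (U : K →L[ℂ] K) (m n : ℕ) : γ.P m (U (γ.zt n)) =
    γ.u0 U m n • γ.zt m + γ.u1 U m n • σ.NS (γ.zt m) + γ.u2 U m n • γ.wn m :=
  (γ.exists_cf U m n).choose_spec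

variable {U : K →L[ℂ] K}

lemma cf_Nzt (hU : σ.Good U) (m n : ℕ) : γ.P m (U (σ.NS (γ.zt n))) =
    γ.u0 U m n • σ.NS (γ.zt m) + γ.u1 U m n • γ.wn m := by
  rw [hU.c1, P_NS, cf_zt, map_add, map_add, map_smul, map_smul, map_smul, NN_zt, NS_wn, smul_zero,
    add_zero]

lemma cf_wn (hU : σ.Good U) (m n : ℕ) : γ.P m (U (γ.wn n)) = γ.u0 U m n • γ.wn m := by
  rw [← NN_zt, hU.c1, P_NS, cf_Nzt γ hU, map_add, map_smul, map_smul, NN_zt, NS_wn, smul_zero,
    add_zero]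

lemma S_cf (α β δ : ℂ) (m : ℕ) : σ.S (α • γ.zt m + β • σ.NS (γ.zt m) + δ • γ.wn m) =
    α • γ.zt (m + 1) + β • σ.NS (γ.zt (m + 1)) + δ • γ.wn ((m + 1 : ℕ) : ℤ) := by
  rw [map_add, map_add, map_smul, map_smul, map_smul, S_NS, S_zt, S_wn]
  push_cast
  rfl

/-- the recurrence for the coefficients -/
lemma cf_rel {a : ℂ} (hrel : ∀ x, U (σ.S x) - a • σ.S (U (σ.S x)) = σ.S (U x) - a • U x)
    (m n : ℕ) :
    γ.u0 U (m + 1) (n + 1) - γ.u0 U m n = a * (γ.u0 U m (n + 1) - γ.u0 U (m + 1) n) ∧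
    γ.u1 U (m + 1) (n + 1) - γ.u1 U m n = a * (γ.u1 U m (n + 1) - γ.u1 U (m + 1) n) ∧
    γ.u2 U (m + 1) (n + 1) - γ.u2 U m n = a * (γ.u2 U m (n + 1) - γ.u2 U (m + 1) n) := by
  have h1 := congrArg (γ.P ((m + 1 : ℕ) : ℤ)) (hrel (γ.zt n))
  have h2 : ∀ x, γ.P ((m + 1 : ℕ) : ℤ) (σ.S x) = σ.S (γ.P (m : ℤ) x) := fun x => by
    push_cast; exact γ.P_S _ x
  rw [map_sub, map_sub, map_smul, map_smul, h2, h2, S_zt, cf_zt, cf_zt, cf_zt, cf_zt, S_cf,
    S_cf] at h1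
  have h3 : (γ.u0 U (m + 1) (n + 1) - a * γ.u0 U m (n + 1)) • γ.zt (m + 1) +
      (γ.u1 U (m + 1) (n + 1) - a * γ.u1 U m (n + 1)) • σ.NS (γ.zt (m + 1)) +
      (γ.u2 U (m + 1) (n + 1) - a * γ.u2 U m (n + 1)) • γ.wn ((m + 1 : ℕ) : ℤ) =
      (γ.u0 U m n - a * γ.u0 U (m + 1) n) • γ.zt (m + 1) +
      (γ.u1 U m n - a * γ.u1 U (m + 1) n) • σ.NS (γ.zt (m + 1)) +
      (γ.u2 U m n - a * γ.u2 U (m + 1) n) • γ.wn ((m + 1 : ℕ) : ℤ) := by
    simp only [sub_smul, mul_smul]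
    simp only [smul_add] at h1
    rw [← sub_eq_zero] at h1 ⊢
    rw [← h1]
    abel
  obtain ⟨e0, e1, e2⟩ := γ.uniq (γ.NN_zt (m + 1)) h3
  exact ⟨by linear_combination e0, by linear_combination e1, by linear_combination e2⟩

lemma diag (hU : σ.Good U) (n : ℕ) : γ.u1 U n n = 0 ∧ γ.u2 U n n = 0 := by
  obtain ⟨c, hc⟩ := γ.scal (n := n) (A := γ.P n * U) (fun v _ => γ.P_mem _ _)
    (fun v _ => by rw [mul_apply_eq_comp, mul_apply_eq_comp, hU.c1, P_NS])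
    (fun v _ => by rw [mul_apply_eq_comp, mul_apply_eq_comp, hU.c2, P_NSs])
  have h1 := hc _ (γ.zt_mem n)
  rw [mul_apply_eq_comp, cf_zt] at h1
  have h2 : γ.u0 U n n • γ.zt n + γ.u1 U n n • σ.NS (γ.zt n) + γ.u2 U n n • γ.wn n =
      c • γ.zt n + (0 : ℂ) • σ.NS (γ.zt n) + (0 : ℂ) • γ.wn n := by
    rw [h1]; simp
  obtain ⟨_, e1, e2⟩ := γ.uniq (γ.NN_zt n) h2
  exact ⟨e1, e2⟩

lemma p1_zero (hU : σ.Good U) {a : ℂ} (ha : a ≠ 0)
    (hrel : ∀ x, U (σ.S x) - a • σ.S (U (σ.S x)) = σ.S (U x) - a • U x) (n : ℕ) :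
    γ.u1 U n (n + 1) = 0 := by
  obtain ⟨_, r1, r2⟩ := γ.cf_rel hrel n n
  obtain ⟨d1, d2⟩ := γ.diag hU n
  obtain ⟨d1', d2'⟩ := γ.diag hU (n + 1)
  rw [d1, d1', sub_self] at r1
  rw [d2, d2', sub_self] at r2
  have e1 : γ.u1 U n (n + 1) = γ.u1 U (n + 1) n :=
    sub_eq_zero.mp ((mul_eq_zero.mp r1.symm).resolve_left ha)
  have e2 : γ.u2 U n (n + 1) = γ.u2 U (n + 1) n :=
    sub_eq_zero.mp ((mul_eq_zero.mp r2.symm).resolve_left ha)
  obtain ⟨c, hc⟩ := γ.scal (n := n) (A := γ.P n * U * γ.P ((n + 1 : ℕ) : ℤ) * U)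
    (fun v _ => γ.P_mem _ _)
    (fun v _ => by
      simp only [mul_apply_eq_comp]
      rw [hU.c1, P_NS, hU.c1, P_NS])
    (fun v _ => by
      simp only [mul_apply_eq_comp]
      rw [hU.c2, P_NSs, hU.c2, P_NSs])
  have h1 := hc _ (γ.zt_mem n)
  simp only [mul_apply_eq_comp] at h1
  rw [cf_zt] at h1
  simp only [map_add, map_smul] at h1
  rw [cf_zt, cf_Nzt γ hU, cf_wn γ hU] at h1
  set p0 := γ.u0 U n (n + 1)
  set p1 := γ.u1 U n (n + 1)
  set p2 := γ.u2 U n (n + 1)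
  set q0 := γ.u0 U (n + 1) n
  rw [← e1, ← e2] at h1
  have h2 : (q0 * p0) • γ.zt n + (q0 * p1 + p1 * p0) • σ.NS (γ.zt n) +
      (q0 * p2 + p1 * p1 + p2 * p0) • γ.wn n =
      c • γ.zt n + (0 : ℂ) • σ.NS (γ.zt n) + (0 : ℂ) • γ.wn n := by
    rw [zero_smul, zero_smul, add_zero, add_zero, ← h1]
    simp only [add_smul, smul_add, mul_smul]
    abel
  obtain ⟨_, f1, f2⟩ := γ.uniq (γ.NN_zt n) h2
  have g1 : p1 * (p0 + q0) = 0 := by linear_combination f1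
  rcases mul_eq_zero.mp g1 with h | h
  · exact h
  · have g2 : p1 * p1 = 0 := by linear_combination f2 - p2 * h
    exact (mul_self_eq_zero.mp g2)

/-- rigidity of norm ratios -/
lemma ratio (hU : σ.Good U) {a : ℂ} (ha : a ≠ 0)
    (hrel : ∀ x, U (σ.S x) - a • σ.S (U (σ.S x)) = σ.S (U x) - a • U x) (n : ℕ)
    (h0 : γ.u0 U n (n + 1) ≠ 0) :
    ‖σ.NS (γ.zt (n + 1))‖ * ‖γ.wn n‖ = ‖σ.NS (γ.zt n)‖ * ‖γ.wn ((n + 1 : ℕ) : ℤ)‖ := by
  have hp1 := γ.p1_zero hU ha hrel n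
  have hUs := hU.star
  obtain ⟨c, hc⟩ := γ.scal (n := ((n + 1 : ℕ) : ℤ))
    (A := γ.P ((n + 1 : ℕ) : ℤ) * star U * γ.P n * U)
    (fun v _ => γ.P_mem _ _)
    (fun v _ => by
      simp only [mul_apply_eq_comp]
      rw [hU.c1, P_NS, hUs.c1, P_NS])
    (fun v _ => by
      simp only [mul_apply_eq_comp]
      rw [hU.c2, P_NSs, hUs.c2, P_NSs])
  have hnorm : ∀ v ∈ γ.Hn ((n + 1 : ℕ) : ℤ), ((‖γ.P n (U v)‖ ^ 2 : ℝ) : ℂ) =
      c * ((‖v‖ ^ 2 : ℝ) : ℂ) := by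
    intro v hv
    have h1 : (inner ℂ v ((γ.P ((n + 1 : ℕ) : ℤ) * star U * γ.P n * U) v) : ℂ) =
        inner ℂ (γ.P n (U v)) (γ.P n (U v)) := by
      simp only [mul_apply_eq_comp]
      rw [γ.inner_P hv, star_inner_r, ← inner_conj_symm, ← γ.inner_P (γ.P_mem n (U v)),
        inner_conj_symm]
    rw [hc v hv, inner_smul_right, inner_self_eq_norm_sq_to_K, inner_self_eq_norm_sq_to_K] at h1
    push_cast
    exact h1.symm
  have h1 := hnorm _ (γ.wn_mem ((n + 1 : ℕ) : ℤ))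
  have h2 := hnorm _ (γ.NS_mem (γ.zt_mem (n + 1)))
  rw [γ.cf_wn hU n (n + 1), norm_smul] at h1
  rw [γ.cf_Nzt hU n (n + 1), hp1, zero_smul, add_zero, norm_smul] at h2
  set p0 := γ.u0 U n (n + 1)
  have hp0 : 0 < ‖p0‖ := norm_pos_iff.mpr h0
  have hwn : 0 < ‖γ.wn n‖ := norm_pos_iff.mpr (γ.wn_ne n)
  have hwn' : 0 < ‖γ.wn ((n + 1 : ℕ) : ℤ)‖ := norm_pos_iff.mpr (γ.wn_ne _)
  have h3 : ((‖p0‖ * ‖γ.wn n‖) ^ 2 * ‖σ.NS (γ.zt (n + 1))‖ ^ 2 : ℝ) =
      ((‖p0‖ * ‖σ.NS (γ.zt n)‖) ^ 2 * ‖γ.wn ((n + 1 : ℕ) : ℤ)‖ ^ 2 : ℝ) := by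
    apply Complex.ofReal_injective
    rw [Complex.ofReal_mul, Complex.ofReal_mul, h1, h2]
    ring
  have h4 : ‖p0‖ ^ 2 * (‖σ.NS (γ.zt (n + 1))‖ * ‖γ.wn n‖) ^ 2 =
      ‖p0‖ ^ 2 * (‖σ.NS (γ.zt n)‖ * ‖γ.wn ((n + 1 : ℕ) : ℤ)‖) ^ 2 := by
    linear_combination h3
  have h5 := mul_left_cancel₀ (by positivity : ‖p0‖ ^ 2 ≠ 0) h4
  exact (sq_eq_sq₀ (by positivity) (by positivity)).mp h5

end Grad

end Sim

end MPaf71ff

end

section

/-!
Behaviour of the intertwining unitaries as the automorphism tends to the identity.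
-/

open scoped ComplexConjugate ENNReal Topology
open Filter

namespace MPaf71ff

/-- the small hyperbolic automorphisms -/
noncomputable def sa (j : ℕ) : ℝ := 1 / ((j : ℝ) + 2)

lemma sa_pos (j : ℕ) : 0 < sa j := by unfold sa; positivity

lemma sa_le (j : ℕ) : sa j ≤ 1 / 2 := by
  unfold sa
  apply one_div_le_one_div_of_le (by norm_num)
  have : (0 : ℝ) ≤ j := Nat.cast_nonneg j
  linarith

lemma sa_tendsto : Tendsto sa atTop (𝓝 0) := by
  unfold sa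
  have h : Tendsto (fun j : ℕ => ((j : ℝ) + 2)) atTop atTop :=
    tendsto_atTop_add_const_right _ _ tendsto_natCast_atTop_atTop
  simp only [one_div]
  exact h.inv_tendsto_atTop

/-- the automorphism with real parameter `sa j` -/
noncomputable def Mob.sm (j : ℕ) : Mob := ⟨1, (sa j : ℂ), by simp, by
  rw [Complex.norm_real, Real.norm_eq_abs, abs_of_pos (sa_pos j)]
  have := sa_le j
  linarith⟩

lemma Mob.sm_a (j : ℕ) : (Mob.sm j).a = (sa j : ℂ) := rfl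
lemma Mob.sm_lam (j : ℕ) : (Mob.sm j).lam = 1 := rfl

lemma Mob.sm_den (j : ℕ) (z : Tc) : 1 / 2 ≤ ‖1 - conj (Mob.sm j).a * (z : ℂ)‖ := by
  have h1 : ‖conj (Mob.sm j).a * (z : ℂ)‖ ≤ 1 / 2 := by
    rw [norm_mul, RCLike.norm_conj, Mob.sm_a, Tc_norm, mul_one, Complex.norm_real,
      Real.norm_eq_abs, abs_of_pos (sa_pos j)]
    exact sa_le j
  have h2 := norm_sub_norm_le (1 : ℂ) (conj (Mob.sm j).a * (z : ℂ))
  rw [norm_one] at h2
  linarith

lemma Mob.sm_pull_one (j : ℕ) : ‖(Mob.sm j).pull (zp 1) - zp 1‖ ≤ 4 * sa j := by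
  have hs := sa_pos j
  rw [ContinuousMap.norm_le _ (by positivity)]
  intro z
  have hd := Mob.sm_den j z
  have hne := (Mob.sm j).den_ne (Tc_norm z).le
  have h1 : ((Mob.sm j).pull (zp 1) - zp 1) z =
      (sa j : ℂ) * ((z : ℂ) ^ 2 - 1) / (1 - conj (Mob.sm j).a * (z : ℂ)) := by
    rw [ContinuousMap.sub_apply, Mob.pull_apply, zp_apply, zp_apply, Mob.phiC_apply, zpow_one,
      zpow_one]
    unfold Mob.toFun
    rw [eq_div_iff hne, sub_mul, div_mul_cancel₀ _ hne, Mob.sm_lam, Mob.sm_a, Complex.conj_ofReal]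
    ring
  rw [h1, norm_div, norm_mul, Complex.norm_real, Real.norm_eq_abs, abs_of_pos hs]
  rw [div_le_iff₀ (by linarith)]
  have h2 : ‖(z : ℂ) ^ 2 - 1‖ ≤ 2 := by
    refine (norm_sub_le _ _).trans ?_
    rw [norm_pow, Tc_norm, norm_one]
    norm_num
  nlinarith

lemma Mob.sm_gC (j : ℕ) : ‖(Mob.sm j).gC - 1‖ ≤ 4 * sa j := by
  have hs := sa_pos j
  have hs2 := sa_le j
  rw [ContinuousMap.norm_le _ (by positivity)]
  intro z
  have hd := Mob.sm_den j z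
  rw [ContinuousMap.sub_apply, Mob.gC_apply, ContinuousMap.one_apply, ← Complex.ofReal_one,
    ← Complex.ofReal_sub, Complex.norm_real, Real.norm_eq_abs]
  unfold Mob.gf
  have hk : (Mob.sm j).kap = 1 - sa j ^ 2 := by
    unfold Mob.kap
    rw [Mob.sm_a, Complex.norm_real, Real.norm_eq_abs, abs_of_pos hs]
  rw [hk]
  set d := ‖1 - conj (Mob.sm j).a * (z : ℂ)‖ with hdd
  have hn : ‖conj (Mob.sm j).a * (z : ℂ)‖ = sa j := by
    rw [norm_mul, RCLike.norm_conj, Mob.sm_a, Tc_norm, mul_one, Complex.norm_real,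
      Real.norm_eq_abs, abs_of_pos hs]
  have hd1 : 1 - sa j ≤ d := by
    have h2 := norm_sub_norm_le (1 : ℂ) (conj (Mob.sm j).a * (z : ℂ))
    rw [norm_one, hn] at h2
    exact h2
  have hd2 : d ≤ 1 + sa j := by
    have h2 := norm_sub_le (1 : ℂ) (conj (Mob.sm j).a * (z : ℂ))
    rw [norm_one, hn] at h2
    exact h2
  have hs3 : Real.sqrt (1 - sa j ^ 2) ≤ 1 := by
    rw [Real.sqrt_le_one]
    nlinarith
  have hs4 : 1 - sa j ≤ Real.sqrt (1 - sa j ^ 2) := by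
    apply Real.le_sqrt_of_sq_le
    nlinarith
  have h1 : Real.sqrt (1 - sa j ^ 2) / d - 1 = (Real.sqrt (1 - sa j ^ 2) - d) / d := by
    have : d ≠ 0 := by linarith
    field_simp
  rw [h1, abs_div, abs_of_pos (show 0 < d by linarith), div_le_iff₀ (by linarith)]
  have h3 : |Real.sqrt (1 - sa j ^ 2) - d| ≤ 2 * sa j := by
    rw [abs_le]
    constructor <;> linarith
  nlinarith

lemma Mob.sm_pull_one_tendsto : Tendsto (fun j => (Mob.sm j).pull (zp 1)) atTop (𝓝 (zp 1)) := by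
  rw [tendsto_iff_norm_sub_tendsto_zero]
  refine squeeze_zero (fun j => norm_nonneg _) Mob.sm_pull_one ?_
  simpa using sa_tendsto.const_mul 4

lemma Mob.sm_gC_tendsto : Tendsto (fun j => (Mob.sm j).gC) atTop (𝓝 1) := by
  rw [tendsto_iff_norm_sub_tendsto_zero]
  refine squeeze_zero (fun j => norm_nonneg _) Mob.sm_gC ?_
  simpa using sa_tendsto.const_mul 4

lemma zp_nat (n : ℕ) : zp n = zp 1 ^ n := by
  ext z
  simp

lemma Mob.sm_pull_tendsto (n : ℤ) : Tendsto (fun j => (Mob.sm j).pull (zp n)) atTop (𝓝 (zp n)) := by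
  have hnat : ∀ n : ℕ, Tendsto (fun j => (Mob.sm j).pull (zp n)) atTop (𝓝 (zp n)) := by
    intro n
    simp only [Mob.pull_zp_nat]
    rw [zp_nat]
    exact Mob.sm_pull_one_tendsto.pow n
  obtain ⟨k, rfl | rfl⟩ := n.eq_nat_or_neg
  · exact hnat k
  · rw [← star_zp]
    exact (continuous_star.tendsto _).comp (hnat k)

lemma Mob.sm_rho_tendsto (n : ℤ) : Tendsto (fun j => (Mob.sm j).rho (e n)) atTop (𝓝 (e n)) := by
  have h1 : Tendsto (fun j => Phi ((Mob.sm j).pull (zp n) * (Mob.sm j).gC)) atTop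
      (𝓝 (Phi (zp n * 1))) :=
    (Phi_cont.tendsto _).comp ((Mob.sm_pull_tendsto n).mul Mob.sm_gC_tendsto)
  have h2 : Tendsto (fun j => Phi ((Mob.sm j).pull (zp n) * (Mob.sm j).gC) (e 0)) atTop
      (𝓝 (Phi (zp n * 1) (e 0))) :=
    ((ContinuousLinearMap.apply ℂ E (e 0)).continuous.tendsto _).comp h1
  have h3 : Phi (zp n * 1) (e 0) = e n := by
    rw [mul_one, Phi_zp, sh_e, zero_add]
  rw [h3] at h2
  refine h2.congr (fun j => ?_)
  rw [Mob.rho_e]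
  rfl

namespace Sim

variable {K : Type*} [NormedAddCommGroup K] [InnerProductSpace ℂ K] [CompleteSpace K]
variable (σ : Sim K)

lemma rel_apply {j : ℕ} {U : K →L[ℂ] K} (h : σ.Rel (Mob.sm j) U) (x : K) :
    U (σ.S x) - (sa j : ℂ) • σ.S (U (σ.S x)) = σ.S (U x) - (sa j : ℂ) • U x := by
  unfold Rel at h
  rw [Mob.sm_a, Mob.sm_lam, Complex.conj_ofReal, one_smul] at h
  have := congrArg (fun F : K →L[ℂ] K => F x) h
  simpa [mul_apply_eq_comp] using this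

lemma relS_apply {j : ℕ} {U : K →L[ℂ] K} (h : σ.RelS (Mob.sm j) U) (x : K) :
    U (star σ.S x) - (sa j : ℂ) • star σ.S (U (star σ.S x)) =
      star σ.S (U x) - (sa j : ℂ) • U x := by
  unfold RelS at h
  rw [Mob.sm_a, Mob.sm_lam, Complex.conj_ofReal, map_one, one_smul] at h
  have := congrArg (fun F : K →L[ℂ] K => F x) h
  simpa [mul_apply_eq_comp] using this

lemma lead_sm {j : ℕ} {U : K →L[ℂ] K} (h : σ.Rel (Mob.sm j) U) (m : ℤ) :
    lead ((Mob.sm j).G0i * σ.up U) m =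
      inner ℂ ((Mob.sm j).rho (e m)) (pr 0 (σ.up U x0)) := by
  have h1 : N (σ.up U x0) = 0 := by
    have h2 := congrArg (fun F : H →L[ℂ] H => F x0) (σ.up_comm_N h)
    simp only [mul_apply_eq_comp] at h2
    rw [← h2]
    unfold x0
    rw [N_inc0, map_zero]
  unfold lead
  rw [mul_apply_eq_comp, ker_N h1]
  unfold Mob.G0i
  rw [J_inc0, pr_inc_same, pr_inc_same, ← inner_e, star_inner_r]

/-- limits of the intertwining unitaries -/
lemma exists_c {U : ℕ → K →L[ℂ] K} (hU : ∀ j, U j ∈ unitary (K →L[ℂ] K))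
    (hR : ∀ j, σ.Rel (Mob.sm j) (U j)) (hRS : ∀ j, σ.RelS (Mob.sm j) (U j)) :
    ∃ c : ℂ, c ≠ 0 ∧ ∀ x y, Tendsto (fun j => (inner ℂ x (U j y) : ℂ)) (hyperfilter ℕ)
      (𝓝 (c * inner ℂ x y)) := by
  obtain ⟨V, hV⟩ := exists_wlim U 1 (fun j => unitary_opNorm _ (hU j)) (hyperfilter ℕ)
  have hsa : Tendsto (fun j => (sa j : ℂ)) (hyperfilter ℕ) (𝓝 0) := by
    have h1 : Tendsto (fun j => (sa j : ℂ)) atTop (𝓝 ((0 : ℝ) : ℂ)) :=
      (Complex.continuous_ofReal.tendsto _).comp sa_tendsto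
    rw [Complex.ofReal_zero] at h1
    exact h1.mono_left Nat.hyperfilter_le_atTop
  have key : ∀ B : K →L[ℂ] K, (∀ j x, U j (B x) - (sa j : ℂ) • B (U j (B x)) =
      B (U j x) - (sa j : ℂ) • U j x) → V * B = B * V := by
    intro B hB
    ext1 y
    refine ext_inner_left ℂ (fun x => ?_)
    rw [mul_apply_eq_comp, mul_apply_eq_comp]
    have h1 := hV x (B y)
    have h2 := hV (star B x) y
    have h3 := hV (star B x) (B y)
    have h4 := hV x y
    have h5 : Tendsto (fun j => (inner ℂ (star B x) (U j y) : ℂ) +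
        (sa j : ℂ) * ((inner ℂ (star B x) (U j (B y)) : ℂ) - inner ℂ x (U j y)))
        (hyperfilter ℕ) (𝓝 ((inner ℂ (star B x) (V y) : ℂ) +
          0 * ((inner ℂ (star B x) (V (B y)) : ℂ) - inner ℂ x (V y)))) :=
      h2.add (hsa.mul (h3.sub h4))
    rw [zero_mul, add_zero, star_inner_l] at h5
    refine tendsto_nhds_unique h1 (h5.congr (fun j => ?_))
    have h6 := congrArg (fun z => (inner ℂ x z : ℂ)) (hB j y)
    simp only [inner_sub_right, inner_smul_right] at h6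
    rw [star_inner_l, star_inner_l]
    linear_combination -h6
  have hCC : σ.CC V := ⟨key _ (fun j x => σ.rel_apply (hR j) x),
    key _ (fun j x => σ.relS_apply (hRS j) x)⟩
  have hVc := σ.irr hCC
  set c := σ.ld V 0 with hc
  refine ⟨c, fun h0 => ?_, fun x y => ?_⟩
  · rw [h0, zero_smul] at hVc
    obtain ⟨M, c0, hc0, hwin⟩ := σ.exists_window
    have hlead : ∀ m : ℤ, Tendsto (fun j => ‖lead ((Mob.sm j).G0i * σ.up (U j)) m‖ ^ 2)
        (hyperfilter ℕ) (𝓝 0) := by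
      intro m
      have h1 : Tendsto (fun j => lead (σ.up (U j)) m) (hyperfilter ℕ) (𝓝 0) := by
        simp only [lead_up]
        have h2 := hV (σ.eta m) σ.xi
        rw [hVc, zero_apply, inner_zero_right] at h2
        exact h2
      have h2 : Tendsto (fun j => (inner ℂ ((Mob.sm j).rho (e m) - e m)
          (pr 0 (σ.up (U j) x0)) : ℂ)) (hyperfilter ℕ) (𝓝 0) := by
        apply squeeze_zero_norm (a := fun j => ‖(Mob.sm j).rho (e m) - e m‖ * σ.kp)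
        · intro j
          refine (norm_inner_le_norm _ _).trans ?_
          have h3 : ‖pr 0 (σ.up (U j) x0)‖ ≤ σ.kp := by
            refine (norm_pr_le 0 _).trans ?_
            refine ((σ.up (U j)).le_opNorm _).trans ?_
            rw [norm_x0, mul_one]
            refine (σ.up_norm _).trans ?_
            have h4 := unitary_opNorm _ (hU j)
            have h5 := σ.kp_nonneg
            nlinarith
          gcongr
        · have h3 := (tendsto_iff_norm_sub_tendsto_zero.mp (Mob.sm_rho_tendsto m)).mul_const σ.kp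
          rw [zero_mul] at h3
          exact h3.mono_left Nat.hyperfilter_le_atTop
      have h3 := h1.add h2
      rw [add_zero] at h3
      have h4 : Tendsto (fun j => lead ((Mob.sm j).G0i * σ.up (U j)) m) (hyperfilter ℕ)
          (𝓝 0) := by
        refine h3.congr (fun j => ?_)
        rw [σ.lead_sm (hR j), inner_sub_left, inner_e]
        unfold lead
        ring
      have h5 := (h4.norm).pow 2
      simpa using h5
    have hsum := tendsto_finsetSum (win M) (fun m _ => hlead m)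
    rw [Finset.sum_const_zero] at hsum
    have := ge_of_tendsto' hsum (fun j => hwin (Mob.sm j) (U j) (hU j) (hR j))
    linarith
  · have h1 := hV x y
    rw [hVc, smul_apply, one_apply_eq_self, inner_smul_right] at h1
    exact h1

end Sim

end MPaf71ff

end

section

/-!
`T` is not similar to a homogeneous operator.
-/

open scoped ComplexConjugate ENNReal Topology
open Filter

namespace MPaf71ff

namespace Sim

variable {K : Type*} [NormedAddCommGroup K] [InnerProductSpace ℂ K] [CompleteSpace K]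
variable {σ : Sim K}

namespace Grad

variable (γ : Grad σ)

lemma u0_formula {U : K →L[ℂ] K} (hU : σ.Good U) (m n : ℕ) :
    γ.u0 U m n = (inner ℂ (γ.wn m) (U (γ.wn n)) : ℂ) / (‖γ.wn m‖ : ℂ) ^ 2 := by
  have h1 := γ.inner_P (γ.wn_mem m) (U (γ.wn n))
  rw [γ.cf_wn hU m n, inner_smul_right, inner_self_eq_norm_sq_to_K] at h1
  have h2 : (‖γ.wn m‖ : ℂ) ≠ 0 := by
    rw [Complex.ofReal_ne_zero]; exact norm_ne_zero_iff.mpr (γ.wn_ne m)
  rw [← h1]
  simp only [Complex.coe_algebraMap]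
  field_simp

lemma exists_large {U : ℕ → K →L[ℂ] K} (hU : ∀ j, U j ∈ unitary (K →L[ℂ] K))
    (hR : ∀ j, σ.Rel (Mob.sm j) (U j)) (hRS : ∀ j, σ.RelS (Mob.sm j) (U j)) :
    ∃ n0 : ℕ, ∀ n, n0 ≤ n → ∃ j, γ.u0 (U j) n (n + 1) ≠ 0 := by
  obtain ⟨c, hc, hlim⟩ := σ.exists_c hU hR hRS
  have hgood : ∀ j, σ.Good (U j) := fun j => Good.of_rel (hU j) (hR j)
  have hu0 : ∀ m n : ℕ, Tendsto (fun j => γ.u0 (U j) m n) (hyperfilter ℕ)
      (𝓝 (if m = n then c else 0)) := by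
    intro m n
    have h1 := (hlim (γ.wn m) (γ.wn n)).div_const ((‖γ.wn m‖ : ℂ) ^ 2)
    have h2 : c * (inner ℂ (γ.wn m) (γ.wn n) : ℂ) / (‖γ.wn m‖ : ℂ) ^ 2 =
        if m = n then c else 0 := by
      by_cases h : m = n
      · subst h
        rw [if_pos rfl, inner_self_eq_norm_sq_to_K]
        have h2 : (‖γ.wn m‖ : ℂ) ≠ 0 := by
          rw [Complex.ofReal_ne_zero]; exact norm_ne_zero_iff.mpr (γ.wn_ne m)
        simp only [Complex.coe_algebraMap]
        field_simp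
      · rw [if_neg h, γ.Hn_orth (by exact_mod_cast h) (γ.wn_mem m) (γ.wn_mem n), mul_zero,
          zero_div]
    rw [h2] at h1
    refine h1.congr (fun j => ?_)
    rw [γ.u0_formula (hgood j)]
  -- two bad indices are impossible
  have htwo : ∀ n1 k : ℕ, (∀ j, γ.u0 (U j) n1 (n1 + 1) = 0) →
      (∀ j, γ.u0 (U j) (n1 + (k + 1)) (n1 + (k + 1) + 1) = 0) → False := by
    intro n1 k h1 h2
    have hsum : ∀ j, ∑ i ∈ Finset.range (k + 1),
        (γ.u0 (U j) (n1 + i) (n1 + i + 2) - γ.u0 (U j) (n1 + i + 1) (n1 + i + 1)) = 0 := by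
      intro j
      have h3 : ∀ i, γ.u0 (U j) (n1 + (i + 1)) (n1 + (i + 1) + 1) -
          γ.u0 (U j) (n1 + i) (n1 + i + 1) = (sa j : ℂ) *
          (γ.u0 (U j) (n1 + i) (n1 + i + 2) - γ.u0 (U j) (n1 + i + 1) (n1 + i + 1)) := fun i =>
        (γ.cf_rel (σ.rel_apply (hR j)) (n1 + i) (n1 + i + 1)).1
      have h4 := Finset.sum_range_sub (fun i => γ.u0 (U j) (n1 + i) (n1 + i + 1)) (k + 1)
      rw [Finset.sum_congr rfl (fun i _ => h3 i), ← Finset.mul_sum] at h4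
      simp only [h2 j, add_zero, h1 j, sub_zero] at h4
      have h5 : (sa j : ℂ) ≠ 0 := by
        rw [Complex.ofReal_ne_zero]; exact (sa_pos j).ne'
      exact (mul_eq_zero.mp h4).resolve_left h5
    have hl := tendsto_finsetSum (Finset.range (k + 1)) (fun i _ =>
      (hu0 (n1 + i) (n1 + i + 2)).sub (hu0 (n1 + i + 1) (n1 + i + 1)))
    simp only [hsum] at hl
    have h3 := tendsto_nhds_unique hl tendsto_const_nhds
    simp at h3
    rcases h3 with h4 | h4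
    · have h5 : ((k : ℂ) + 1) = ((k + 1 : ℕ) : ℂ) := by push_cast; ring
      rw [h5] at h4
      exact absurd h4 (Nat.cast_ne_zero.mpr (Nat.succ_ne_zero k))
    · exact hc h4
  by_cases hbad : ∃ n1, ∀ j, γ.u0 (U j) n1 (n1 + 1) = 0
  · obtain ⟨n1, h1⟩ := hbad
    refine ⟨n1 + 1, fun n hn => ?_⟩
    by_contra hne
    push Not at hne
    obtain ⟨k, rfl⟩ := Nat.exists_eq_add_of_le hn
    refine htwo n1 k h1 (fun j => ?_)
    have := hne j
    rw [show n1 + 1 + k = n1 + (k + 1) by ring] at this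
    exact this
  · push Not at hbad
    exact ⟨0, fun n _ => hbad n⟩

lemma false_of_grad {K : Type*} [NormedAddCommGroup K] [InnerProductSpace ℂ K] [CompleteSpace K]
    {σ : Sim K} (γ : Grad σ) : False := by
  have hex : ∀ j, ∃ U ∈ unitary (K →L[ℂ] K), σ.Rel (Mob.sm j) U ∧ σ.RelS (Mob.sm j) U :=
    fun j => σ.exists_U (Mob.sm j)
  choose U hU hR hRS using hex
  obtain ⟨n0, hn0⟩ := γ.exists_large hU hR hRS
  have hratio : ∀ n, n0 ≤ n → ‖σ.NS (γ.zt (n + 1))‖ * ‖γ.wn n‖ =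
      ‖σ.NS (γ.zt n)‖ * ‖γ.wn ((n + 1 : ℕ) : ℤ)‖ := by
    intro n hn
    obtain ⟨j, hj⟩ := hn0 n hn
    refine γ.ratio (Good.of_rel (hU j) (hR j)) (a := (sa j : ℂ)) ?_ (σ.rel_apply (hR j)) n hj
    rw [Complex.ofReal_ne_zero]; exact (sa_pos j).ne'
  have hconst : ∀ k : ℕ, ‖σ.NS (γ.zt (n0 + k))‖ * ‖γ.wn n0‖ =
      ‖σ.NS (γ.zt n0)‖ * ‖γ.wn ((n0 + k : ℕ) : ℤ)‖ := by
    intro k
    induction k with
    | zero => simp
    | succ k ih =>
      have h1 := hratio (n0 + k) (by omega)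
      have h2 : 0 < ‖γ.wn ((n0 + k : ℕ) : ℤ)‖ := norm_pos_iff.mpr (γ.wn_ne _)
      rw [← add_assoc]
      apply mul_left_cancel₀ h2.ne'
      linear_combination ‖γ.wn (n0 : ℤ)‖ * h1 + ‖γ.wn ((n0 + k + 1 : ℕ) : ℤ)‖ * ih
  have hw0 : 0 < ‖γ.wn (n0 : ℤ)‖ := norm_pos_iff.mpr (γ.wn_ne _)
  set C1 : ℝ := ‖σ.NS (γ.zt n0)‖ * (‖(σ.X.symm : H →L[ℂ] K)‖ * ‖γ.g‖) / ‖γ.wn (n0 : ℤ)‖ with hC1
  have hbd : ∀ k : ℕ, ‖σ.NS (γ.zt (n0 + k))‖ ≤ C1 := by
    intro k
    rw [hC1, le_div_iff₀ hw0, hconst k]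
    have := γ.wn_norm_le ((n0 + k : ℕ) : ℤ)
    gcongr
  have hTn : ∀ k : ℕ, (T ^ k) (σ.X (σ.NS (γ.zt n0))) = σ.X (σ.NS (γ.zt (n0 + k))) := by
    intro k
    induction k with
    | zero => simp
    | succ k ih =>
      rw [pow_succ', mul_apply_eq_comp, ih, ← σ.hS, S_NS, S_zt]
      rfl
  have h2 : pr 2 (σ.X (σ.NS (γ.zt n0))) = 0 := by rw [X_NS, pr_N2]
  have h3 := growth h2 (‖(σ.X : K →L[ℂ] H)‖ * C1) (fun k => by
    rw [hTn]
    refine (σ.X_norm _).trans ?_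
    have := hbd k
    gcongr)
  rw [← pr_N0, ← X_NS, NN_zt, X_wn, pr_inc_same] at h3
  have h4 := norm_sh n0 γ.g
  rw [h3, norm_zero] at h4
  exact γ.g_ne (norm_eq_zero.mp h4.symm)

end Grad

end Sim

/-- `T` is not similar to a homogeneous operator -/
theorem no_sim (K : Type*) [NormedAddCommGroup K] [InnerProductSpace ℂ K] [CompleteSpace K]
    (σ : Sim K) : False := by
  obtain ⟨γ⟩ := σ.exists_grad
  exact γ.false_of_grad

end MPaf71ff

end
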