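import Pool.Agent.Lib.MP_af71ff_an.Defs

section

/-!
Basic facts about the sequence space `ℓ²(ℤ)`: matrix entries of operators, weighted shifts,
and the relation `IsDer` (formal commutator with a diagonal operator).
-/

open scoped ComplexConjugate ENNReal Topology
open Filter

namespace MPaf71ff

/-- The Hilbert space `ℓ²(ℤ)`. -/
abbrev E : Type := lp (fun _ : ℤ => ℂ) 2

lemma co_add (x y : E) (m : ℤ) : ((x + y : E) : ℤ → ℂ) m = (x : ℤ → ℂ) m + (y : ℤ → ℂ) m := rfl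

lemma co_sub (x y : E) (m : ℤ) : ((x - y : E) : ℤ → ℂ) m = (x : ℤ → ℂ) m - (y : ℤ → ℂ) m := rfl

lemma co_neg (x : E) (m : ℤ) : ((-x : E) : ℤ → ℂ) m = -(x : ℤ → ℂ) m := rfl

lemma co_smul (c : ℂ) (x : E) (m : ℤ) : ((c • x : E) : ℤ → ℂ) m = c * (x : ℤ → ℂ) m := rfl

lemma co_zero (m : ℤ) : ((0 : E) : ℤ → ℂ) m = 0 := rfl

/-- the standard basis -/
noncomputable def e (n : ℤ) : E := lp.single 2 n (1 : ℂ)

lemma e_apply (n m : ℤ) : (e n : ℤ → ℂ) m = if m = n then 1 else 0 := by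
  unfold e
  rw [lp.single_apply]
  simp [Pi.single_apply]

@[simp] lemma e_self (n : ℤ) : (e n : ℤ → ℂ) n = 1 := by simp [e_apply]

lemma e_ne {n m : ℤ} (h : m ≠ n) : (e n : ℤ → ℂ) m = 0 := by simp [e_apply, h]

lemma inner_e (n : ℤ) (x : E) : inner ℂ (e n) x = (x : ℤ → ℂ) n := by
  unfold e
  rw [lp.inner_single_left]
  simp

lemma inner_e' (n : ℤ) (x : E) : inner ℂ x (e n) = conj ((x : ℤ → ℂ) n) := by
  rw [← inner_conj_symm, inner_e]

lemma norm_e (n : ℤ) : ‖e n‖ = 1 := by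
  unfold e
  rw [lp.norm_single (by norm_num)]
  simp

/-- the coordinate functional -/
noncomputable def co (n : ℤ) : E →L[ℂ] ℂ := innerSL ℂ (e n)

lemma co_apply (n : ℤ) (x : E) : co n x = (x : ℤ → ℂ) n := by
  unfold co; rw [innerSL_apply_apply, inner_e]

lemma hasSum_e (x : E) : HasSum (fun n => (x : ℤ → ℂ) n • e n) x := by
  have h := lp.hasSum_single (p := 2) (by norm_num) x
  convert! h using 2 with n
  unfold e
  rw [← lp.single_smul]
  simp

lemma norm_apply_le (x : E) (n : ℤ) : ‖(x : ℤ → ℂ) n‖ ≤ ‖x‖ :=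
  lp.norm_apply_le_norm (by norm_num) x n

lemma hasSum_sq (x : E) : HasSum (fun n => ‖(x : ℤ → ℂ) n‖ ^ 2) (‖x‖ ^ 2) := by
  have h := lp.hasSum_norm (p := 2) (by norm_num) x
  simpa using h

lemma ext_e {F : Type*} [NormedAddCommGroup F] [NormedSpace ℂ F] {S T : E →L[ℂ] F}
    (h : ∀ n, S (e n) = T (e n)) : S = T := by
  ext x
  have h1 := (hasSum_e x).mapL S
  have h2 := (hasSum_e x).mapL T
  simp only [map_smul, h] at h1 h2
  exact h1.unique h2

lemma ext_entries {S T : E →L[ℂ] E}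
    (h : ∀ m n, (S (e n) : ℤ → ℂ) m = (T (e n) : ℤ → ℂ) m) : S = T := by
  apply ext_e
  intro n
  ext m
  exact h m n

/-- matrix product formula -/
lemma hasSum_entry (S : E →L[ℂ] E) (x : E) (m : ℤ) :
    HasSum (fun k => (x : ℤ → ℂ) k * (S (e k) : ℤ → ℂ) m) ((S x : E) m) := by
  have h1 := ((hasSum_e x).mapL S).mapL (co m)
  simp only [map_smul, co_apply] at h1
  simpa [smul_eq_mul] using h1

/-- a weighted shift `e n ↦ w n • e (n + k)` -/
lemma wsh_mem (k : ℤ) (w : ℤ → ℂ) (C : ℝ) (hC : ∀ n, ‖w n‖ ≤ C) (x : E) :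
    Memℓp (fun m => w (m - k) * (x : ℤ → ℂ) (m - k)) 2 := by
  apply memℓp_gen
  have h1 : Summable (fun m => ‖(x : ℤ → ℂ) m‖ ^ 2) := (hasSum_sq x).summable
  have h2 : Summable (fun m => ‖(x : ℤ → ℂ) (m - k)‖ ^ 2) :=
    ((Equiv.subRight k).summable_iff (f := fun m => ‖(x : ℤ → ℂ) m‖ ^ 2)).mpr h1
  have h3 : ∀ m : ℤ, ‖w (m - k) * (x : ℤ → ℂ) (m - k)‖ ^ (2 : ℝ≥0∞).toReal
      = ‖w (m - k)‖ ^ 2 * ‖(x : ℤ → ℂ) (m - k)‖ ^ 2 := by
    intro m
    rw [ENNReal.toReal_ofNat, Real.rpow_ofNat, norm_mul, mul_pow]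
  refine (summable_congr h3).mpr ?_
  exact Summable.of_nonneg_of_le (fun m => mul_nonneg (sq_nonneg _) (sq_nonneg _))
    (fun m => mul_le_mul_of_nonneg_right (pow_le_pow_left₀ (norm_nonneg _) (hC _) 2) (sq_nonneg _))
    (h2.mul_left (C ^ 2))

noncomputable def wshFun (k : ℤ) (w : ℤ → ℂ) (C : ℝ) (hC : ∀ n, ‖w n‖ ≤ C) : E →ₗ[ℂ] E where
  toFun x := ⟨fun m => w (m - k) * (x : ℤ → ℂ) (m - k), wsh_mem k w C hC x⟩
  map_add' x y := by
    ext m
    simp only [lp.coeFn_add, Pi.add_apply, mul_add]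
  map_smul' c x := by
    ext m
    exact mul_left_comm (w (m - k)) c ((x : ℤ → ℂ) (m - k))

noncomputable def wsh (k : ℤ) (w : ℤ → ℂ) (C : ℝ) (hC : ∀ n, ‖w n‖ ≤ C) : E →L[ℂ] E :=
  (wshFun k w C hC).mkContinuous C (by
    intro x
    have hC0 : 0 ≤ C := (norm_nonneg _).trans (hC 0)
    have h1 : HasSum (fun m => ‖(x : ℤ → ℂ) (m - k)‖ ^ 2) (‖x‖ ^ 2) :=
      ((Equiv.subRight k).hasSum_iff (f := fun m => ‖(x : ℤ → ℂ) m‖ ^ 2)).mpr (hasSum_sq x)
    have h2 := hasSum_sq (wshFun k w C hC x)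
    have h4 : ∀ m : ℤ, ‖(wshFun k w C hC x : ℤ → ℂ) m‖ ^ 2
        ≤ C ^ 2 * ‖(x : ℤ → ℂ) (m - k)‖ ^ 2 := by
      intro m
      have h5 : (wshFun k w C hC x : ℤ → ℂ) m = w (m - k) * (x : ℤ → ℂ) (m - k) := rfl
      rw [h5, norm_mul, mul_pow]
      exact mul_le_mul_of_nonneg_right (pow_le_pow_left₀ (norm_nonneg _) (hC _) 2) (sq_nonneg _)
    have h3 : ‖wshFun k w C hC x‖ ^ 2 ≤ C ^ 2 * ‖x‖ ^ 2 :=
      hasSum_le h4 h2 (h1.mul_left (C ^ 2))
    rw [← mul_pow] at h3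
    exact (sq_le_sq₀ (norm_nonneg _) (by positivity)).mp h3)

lemma wsh_apply (k : ℤ) (w : ℤ → ℂ) (C : ℝ) (hC : ∀ n, ‖w n‖ ≤ C) (x : E) (m : ℤ) :
    (wsh k w C hC x : ℤ → ℂ) m = w (m - k) * (x : ℤ → ℂ) (m - k) := rfl

lemma wsh_e (k : ℤ) (w : ℤ → ℂ) (C : ℝ) (hC : ∀ n, ‖w n‖ ≤ C) (n : ℤ) :
    wsh k w C hC (e n) = w n • e (n + k) := by
  ext m
  rw [wsh_apply, lp.coeFn_smul, Pi.smul_apply, e_apply, e_apply, smul_eq_mul]
  by_cases h : m = n + k
  · subst h; simp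
  · have : ¬ (m - k = n) := by omega
    simp [h, this]

lemma wsh_norm (k : ℤ) (w : ℤ → ℂ) (C : ℝ) (hC : ∀ n, ‖w n‖ ≤ C) :
    ‖wsh k w C hC‖ ≤ C :=
  LinearMap.mkContinuous_norm_le _ ((norm_nonneg _).trans (hC 0)) _

/-- the bilateral shift power -/
noncomputable def sh (k : ℤ) : E →L[ℂ] E := wsh k (fun _ => 1) 1 (by simp)

lemma sh_apply (k : ℤ) (x : E) (m : ℤ) : (sh k x : ℤ → ℂ) m = (x : ℤ → ℂ) (m - k) := by
  unfold sh; rw [wsh_apply, one_mul]

lemma sh_e (k n : ℤ) : sh k (e n) = e (n + k) := by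
  unfold sh; rw [wsh_e, one_smul]

lemma sh_zero : sh 0 = 1 := by
  apply ext_e; intro n; rw [sh_e]; simp

lemma sh_mul (j k : ℤ) : sh j * sh k = sh (j + k) := by
  apply ext_e; intro n
  rw [mul_apply_eq_comp, sh_e, sh_e, sh_e]
  congr 1; ring

/-- `F'` is the formal commutator of `F` with the diagonal operator `L`. -/
def IsDer (L : ℤ → ℂ) (F F' : E →L[ℂ] E) : Prop :=
  ∀ m n, (F' (e n) : ℤ → ℂ) m = (L m - L n) * (F (e n) : ℤ → ℂ) m

lemma IsDer.unique {L : ℤ → ℂ} {F F' F'' : E →L[ℂ] E} (h1 : IsDer L F F')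
    (h2 : IsDer L F F'') : F' = F'' := by
  apply ext_entries; intro m n; rw [h1, h2]

lemma IsDer.one (L : ℤ → ℂ) : IsDer L 1 0 := by
  intro m n
  by_cases h : m = n
  · subst h; simp
  · simp [e_ne h]

lemma IsDer.zero (L : ℤ → ℂ) : IsDer L 0 0 := by
  intro m n; simp

lemma IsDer.add {L : ℤ → ℂ} {F F' G G' : E →L[ℂ] E} (h1 : IsDer L F F')
    (h2 : IsDer L G G') : IsDer L (F + G) (F' + G') := by
  intro m n
  have a := h1 m n
  have b := h2 m n
  simp only [add_apply, lp.coeFn_add, Pi.add_apply, a, b]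
  ring

lemma IsDer.smul {L : ℤ → ℂ} {F F' : E →L[ℂ] E} (c : ℂ) (h1 : IsDer L F F') :
    IsDer L (c • F) (c • F') := by
  intro m n
  have a := h1 m n
  simp only [smul_apply, lp.coeFn_smul, Pi.smul_apply, a, smul_eq_mul]
  ring

lemma IsDer.sum {L : ℤ → ℂ} {ι : Type*} (s : Finset ι) {F F' : ι → E →L[ℂ] E}
    (h1 : ∀ i ∈ s, IsDer L (F i) (F' i)) : IsDer L (∑ i ∈ s, F i) (∑ i ∈ s, F' i) := by
  classical
  induction s using Finset.induction_on with
  | empty => simpa using IsDer.zero L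
  | insert i s hi ih =>
    rw [Finset.sum_insert hi, Finset.sum_insert hi]
    exact (h1 i (Finset.mem_insert_self _ _)).add
      (ih fun j hj => h1 j (Finset.mem_insert_of_mem hj))

lemma IsDer.mul {L : ℤ → ℂ} {F F' G G' : E →L[ℂ] E} (h1 : IsDer L F F')
    (h2 : IsDer L G G') : IsDer L (F * G) (F' * G + F * G') := by
  intro m n
  have a := hasSum_entry F' (G (e n)) m
  have b := hasSum_entry F (G' (e n)) m
  have c := (hasSum_entry F (G (e n)) m).mul_left (L m - L n)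
  have d := a.add b
  simp only [add_apply, lp.coeFn_add, Pi.add_apply,
    mul_apply_eq_comp]
  refine d.unique ?_
  convert! c using 2 with k
  rw [h1 m k, h2 k n]
  ring

lemma IsDer.tendsto {L : ℤ → ℂ} {ι : Type*} {l : Filter ι} [l.NeBot] {F F' : ι → E →L[ℂ] E}
    {G G' : E →L[ℂ] E} (h1 : Tendsto F l (𝓝 G)) (h2 : Tendsto F' l (𝓝 G'))
    (h : ∀ i, IsDer L (F i) (F' i)) : IsDer L G G' := by
  intro m n
  have key : ∀ (S : E →L[ℂ] E), (S (e n) : ℤ → ℂ) m = co m (S (e n)) := fun S => (co_apply m _).symm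
  have c1 : Tendsto (fun i => co m (F' i (e n))) l (𝓝 (co m (G' (e n)))) :=
    ((co m).continuous.tendsto _).comp (((ContinuousLinearMap.apply ℂ E (e n)).continuous.tendsto _).comp h2)
  have c2 : Tendsto (fun i => (L m - L n) * co m (F i (e n))) l (𝓝 ((L m - L n) * co m (G (e n)))) :=
    (((co m).continuous.tendsto _).comp
      (((ContinuousLinearMap.apply ℂ E (e n)).continuous.tendsto _).comp h1)).const_mul _
  have c3 : (fun i => co m (F' i (e n))) = (fun i => (L m - L n) * co m (F i (e n))) := by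
    funext i; rw [← key, ← key]; exact h i m n
  rw [c3] at c1
  rw [key, key]
  exact tendsto_nhds_unique c1 c2

lemma IsDer.hasSum {L : ℤ → ℂ} {ι : Type*} {F F' : ι → E →L[ℂ] E}
    {G G' : E →L[ℂ] E} (h1 : HasSum F G) (h2 : HasSum F' G')
    (h : ∀ i, IsDer L (F i) (F' i)) : IsDer L G G' :=
  IsDer.tendsto h1 h2 (fun s => IsDer.sum s fun i _ => h i)

lemma IsDer.pow {L : ℤ → ℂ} {F F' : E →L[ℂ] E} (h1 : IsDer L F F') (hc : F * F' = F' * F)
    (n : ℕ) : IsDer L (F ^ n) ((n : ℂ) • (F' * F ^ (n - 1))) := by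
  induction n with
  | zero => simpa using IsDer.one L
  | succ n ih =>
    rw [pow_succ]
    convert! ih.mul h1 using 1
    rcases n with _ | n
    · simp
    · have hc2 : F ^ (n + 1) * F' = F' * F ^ (n + 1) := by
        exact (Commute.pow_left (show Commute F F' from hc) _).eq
      simp only [Nat.add_sub_cancel]
      rw [hc2, smul_mul_assoc, mul_assoc, ← pow_succ]
      push_cast
      module

/-- exponentials -/
lemma IsDer.exp {L : ℤ → ℂ} {F F' : E →L[ℂ] E} (h1 : IsDer L F F') (hc : F * F' = F' * F) :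
    IsDer L (NormedSpace.exp F) (F' * NormedSpace.exp F) := by
  have hs := NormedSpace.exp_series_hasSum_exp' (𝕂 := ℂ) F
  have hs2 : HasSum (fun n : ℕ => ((n.factorial : ℂ)⁻¹) • ((n : ℂ) • (F' * F ^ (n - 1))))
      (F' * NormedSpace.exp F) := by
    rw [← hasSum_nat_add_iff' 1]
    simp only [Finset.range_one, Finset.sum_singleton, Nat.cast_zero, zero_smul, smul_zero,
      sub_zero]
    convert! hs.mul_left F' using 2 with n
    rw [smul_smul, Nat.add_sub_cancel, mul_smul_comm]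
    congr 1
    rw [Nat.factorial_succ]
    push_cast
    have : ((n : ℂ) + 1) ≠ 0 := by exact_mod_cast Nat.succ_ne_zero n
    field_simp
  exact IsDer.hasSum hs hs2 (fun n => (h1.pow hc n).smul _)

end MPaf71ff

end

section

/-!
Functional calculus of the bilateral shift: `Phi : C(circle) → B(ℓ²(ℤ))`.
-/

open scoped ComplexConjugate ENNReal Topology
open Filter

namespace MPaf71ff

/-- unit circle -/
abbrev Tc : Set ℂ := Metric.sphere (0 : ℂ) 1

lemma star_entry (F : E →L[ℂ] E) (m n : ℤ) :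
    ((star F) (e n) : ℤ → ℂ) m = conj ((F (e m) : ℤ → ℂ) n) := by
  rw [← inner_e, ContinuousLinearMap.star_eq_adjoint, ContinuousLinearMap.adjoint_inner_right,
    inner_e']

lemma star_sh (k : ℤ) : star (sh k) = sh (-k) := by
  apply ext_entries
  intro m n
  rw [star_entry, sh_e, sh_e, e_apply, e_apply]
  by_cases h : n = m + k
  · have : m = n + -k := by omega
    simp [h]
  · have : ¬ (m = n + -k) := by omega
    simp [h, this]

lemma sh_unitary (k : ℤ) : sh k ∈ unitary (E →L[ℂ] E) := by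
  rw [Unitary.mem_iff, star_sh, sh_mul, sh_mul]
  simp [sh_zero]

lemma sh_normal (k : ℤ) : IsStarNormal (sh k) := by
  constructor
  rw [star_sh]
  change _ * _ = _ * _
  rw [sh_mul, sh_mul, add_comm]

lemma spec_sh : spectrum ℂ (sh 1) ⊆ Tc := spectrum.subset_circle_of_unitary (sh_unitary 1)

/-- inclusion of the spectrum in the circle -/
noncomputable def incl : C(spectrum ℂ (sh 1), Tc) :=
  ⟨Set.inclusion spec_sh, continuous_inclusion spec_sh⟩

/-- functional calculus of the bilateral shift -/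
noncomputable def Phi : C(Tc, ℂ) →⋆ₐ[ℂ] (E →L[ℂ] E) :=
  (cfcHom (R := ℂ) (sh_normal 1)).comp (ContinuousMap.compStarAlgHom' ℂ ℂ incl)

lemma Phi_norm_le (f : C(Tc, ℂ)) : ‖Phi f‖ ≤ ‖f‖ := NonUnitalStarAlgHom.norm_apply_le Phi f

lemma Phi_cont : Continuous Phi :=
  (cfcHom_continuous (R := ℂ) (sh_normal 1)).comp (ContinuousMap.continuous_precomp incl)

/-- the character `z ↦ z ^ n` -/
noncomputable def zp (n : ℤ) : C(Tc, ℂ) :=
  ⟨fun z => (z : ℂ) ^ n, continuous_subtype_val.zpow₀ n (fun z => Or.inl (by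
    have := z.2
    intro h
    simp [h] at this))⟩

lemma Tc_ne (z : Tc) : (z : ℂ) ≠ 0 := by
  have := z.2
  intro h
  simp [h] at this

lemma Tc_norm (z : Tc) : ‖(z : ℂ)‖ = 1 := by simp

lemma Tc_conj (z : Tc) : conj (z : ℂ) = (z : ℂ)⁻¹ := by
  rw [Complex.inv_def, Complex.normSq_eq_norm_sq, Tc_norm]
  simp

@[simp] lemma zp_apply (n : ℤ) (z : Tc) : zp n z = (z : ℂ) ^ n := rfl

lemma zp_add (m n : ℤ) : zp (m + n) = zp m * zp n := by
  ext z
  simp [zpow_add₀ (Tc_ne z)]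

lemma zp_zero : zp 0 = 1 := by
  ext z
  simp

lemma star_zp (n : ℤ) : star (zp n) = zp (-n) := by
  ext z
  simp [Tc_conj]

lemma zp_one_eq : zp 1 = ContinuousMap.restrict Tc (.id ℂ) := by
  ext z; simp

lemma Phi_zp_one : Phi (zp 1) = sh 1 := by
  unfold Phi
  rw [StarAlgHom.comp_apply]
  have : (ContinuousMap.compStarAlgHom' ℂ ℂ incl) (zp 1) =
      (ContinuousMap.id ℂ).restrict (spectrum ℂ (sh 1)) := by
    ext z
    simp [incl]
  rw [this]
  exact cfcHom_id (sh_normal 1)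

lemma Phi_zp (n : ℤ) : Phi (zp n) = sh n := by
  have hnat : ∀ n : ℕ, Phi (zp n) = sh n := by
    intro n
    induction n with
    | zero => simp [zp_zero, sh_zero]
    | succ n ih =>
      push_cast
      rw [zp_add, map_mul, ih, Phi_zp_one, sh_mul]
  rcases Int.eq_nat_or_neg n with ⟨k, rfl | rfl⟩
  · exact hnat k
  · rw [← star_zp, map_star, hnat, star_sh]

/-- Fourier coefficients -/
noncomputable def fc (f : C(Tc, ℂ)) (n : ℤ) : ℂ := (Phi f (e 0) : ℤ → ℂ) n

lemma Phi_comm (f g : C(Tc, ℂ)) : Phi f * Phi g = Phi g * Phi f := by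
  rw [← map_mul, ← map_mul, mul_comm]

lemma Phi_entry (f : C(Tc, ℂ)) (m n : ℤ) : (Phi f (e m) : ℤ → ℂ) n = fc f (n - m) := by
  have h1 : e m = Phi (zp m) (e 0) := by rw [Phi_zp, sh_e]; simp
  have h2 : Phi f (e m) = sh m (Phi f (e 0)) := by
    rw [h1, ← Phi_zp m, ← mul_apply_eq_comp, ← mul_apply_eq_comp, Phi_comm]
  rw [h2, sh_apply]
  rfl

lemma fc_star (f : C(Tc, ℂ)) (n : ℤ) : fc (star f) n = conj (fc f (-n)) := by
  unfold fc
  rw [map_star, star_entry, Phi_entry]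
  simp [fc]

lemma fc_add (f g : C(Tc, ℂ)) (n : ℤ) : fc (f + g) n = fc f n + fc g n := by
  simp [fc]

lemma fc_sub (f g : C(Tc, ℂ)) (n : ℤ) : fc (f - g) n = fc f n - fc g n := by
  simp [fc]

lemma fc_smul (c : ℂ) (f : C(Tc, ℂ)) (n : ℤ) : fc (c • f) n = c * fc f n := by
  simp [fc]

lemma fc_zp (k n : ℤ) : fc (zp k) n = if n = k then 1 else 0 := by
  unfold fc; rw [Phi_zp, sh_e, e_apply]; simp

lemma fc_one (n : ℤ) : fc 1 n = if n = 0 then 1 else 0 := by
  rw [← zp_zero, fc_zp]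

/-- operators preserving the analytic half -/
def Ana (F : E →L[ℂ] E) : Prop :=
  ∀ x : E, (∀ m < 0, (x : ℤ → ℂ) m = 0) → ∀ m < 0, (F x : ℤ → ℂ) m = 0

lemma Ana.mul {F G : E →L[ℂ] E} (hF : Ana F) (hG : Ana G) : Ana (F * G) := by
  intro x hx
  exact hF _ (hG x hx)

lemma Ana.add {F G : E →L[ℂ] E} (hF : Ana F) (hG : Ana G) : Ana (F + G) := by
  intro x hx m hm
  rw [add_apply, lp.coeFn_add, Pi.add_apply, hF x hx m hm, hG x hx m hm, add_zero]

lemma Ana.smul {F : E →L[ℂ] E} (c : ℂ) (hF : Ana F) : Ana (c • F) := by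
  intro x hx m hm
  rw [smul_apply, lp.coeFn_smul, Pi.smul_apply, hF x hx m hm, smul_zero]

lemma Ana.one : Ana 1 := fun _ hx => hx

lemma Ana.sh_one : Ana (sh 1) := by
  intro x hx m hm
  rw [sh_apply]
  exact hx _ (by omega)

lemma Ana.pow {F : E →L[ℂ] E} (hF : Ana F) (n : ℕ) : Ana (F ^ n) := by
  induction n with
  | zero => simpa using Ana.one
  | succ n ih => rw [pow_succ]; exact ih.mul hF

/-- if `(1 - b z) q = 1` with `|b| < 1`, then `Phi q` is analytic -/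
lemma Ana.of_inv {b : ℂ} (hb : ‖b‖ < 1) {q : C(Tc, ℂ)} (hq : (1 - b • zp 1) * q = 1) :
    Ana (Phi q) := by
  intro x hx
  set y := Phi q x with hy
  have h1 : y - b • sh 1 y = x := by
    have : (Phi ((1 - b • zp 1) * q)) x = x := by rw [hq, map_one]; rfl
    rw [map_mul, map_sub, map_one, map_smul, Phi_zp] at this
    simpa using this
  have h2 : ∀ m, (y : ℤ → ℂ) m - b * (y : ℤ → ℂ) (m - 1) = (x : ℤ → ℂ) m := by
    intro m
    rw [← h1, co_sub, co_smul, sh_apply]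
  have h3 : ∀ m < 0, (y : ℤ → ℂ) m = b * (y : ℤ → ℂ) (m - 1) := by
    intro m hm
    have := h2 m
    rw [hx m hm] at this
    linear_combination this
  have h4 : ∀ j : ℕ, ∀ m < 0, ‖(y : ℤ → ℂ) m‖ ≤ ‖b‖ ^ j * ‖y‖ := by
    intro j
    induction j with
    | zero => intro m _; simpa using norm_apply_le y m
    | succ j ih =>
      intro m hm
      rw [h3 m hm, norm_mul, pow_succ']
      rw [mul_assoc]
      gcongr
      exact ih (m - 1) (by omega)
  intro m hm
  have h5 : Tendsto (fun j : ℕ => ‖b‖ ^ j * ‖y‖) atTop (𝓝 (0 * ‖y‖)) :=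
    (tendsto_pow_atTop_nhds_zero_of_lt_one (norm_nonneg _) hb).mul_const _
  rw [zero_mul] at h5
  have h6 : ‖(y : ℤ → ℂ) m‖ ≤ 0 := ge_of_tendsto' h5 (fun j => h4 j m hm)
  simpa using h6

lemma fc_inv {b : ℂ} (hb : ‖b‖ < 1) {q : C(Tc, ℂ)} (hq : (1 - b • zp 1) * q = 1) :
    fc q 0 = 1 := by
  have hA := Ana.of_inv hb hq
  have h0 : ∀ m < 0, (e 0 : ℤ → ℂ) m = 0 := fun m hm => e_ne (by omega)
  have h1 : fc q (-1) = 0 := hA (e 0) h0 (-1) (by omega)
  have h2 : fc ((1 - b • zp 1) * q) 0 = 1 := by rw [hq, fc_one]; simp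
  unfold fc at h2
  rw [map_mul, map_sub, map_one, map_smul, Phi_zp, mul_apply_eq_comp] at h2
  have h3 : ((1 - b • sh 1) (Phi q (e 0)) : ℤ → ℂ) 0 = fc q 0 - b * fc q (-1) := by
    rw [sub_apply, smul_apply, one_apply_eq_self, co_sub, co_smul, sh_apply]
    rfl
  rw [h3, h1] at h2
  simpa using h2

end MPaf71ff

end

section

/-!
Disc automorphisms on the circle: the conformal factor, its logarithm, chain rules.
-/

open scoped ComplexConjugate ENNReal Topology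
open Filter

namespace MPaf71ff

namespace Mob

variable (φ ψ χ : Mob)

/-- `1 - |a|²` -/
noncomputable def kap : ℝ := 1 - ‖φ.a‖ ^ 2

lemma kap_pos : 0 < φ.kap := by
  unfold kap
  have h1 := φ.norm_a
  have h2 := norm_nonneg φ.a
  nlinarith

lemma den_norm {z : ℂ} (hz : ‖z‖ ≤ 1) : ‖conj φ.a * z‖ < 1 := by
  rw [norm_mul, RCLike.norm_conj]
  calc ‖φ.a‖ * ‖z‖ ≤ ‖φ.a‖ * 1 := by gcongr
    _ < 1 := by rw [mul_one]; exact φ.norm_a

lemma den_ne {z : ℂ} (hz : ‖z‖ ≤ 1) : 1 - conj φ.a * z ≠ 0 := by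
  intro h
  have h1 := φ.den_norm hz
  rw [← sub_eq_zero.mp h] at h1
  simp at h1

lemma kap_coe : (φ.kap : ℂ) = 1 - conj φ.a * φ.a := by
  unfold kap
  rw [mul_comm, Complex.mul_conj, Complex.normSq_eq_norm_sq]
  push_cast; ring

lemma norm_conj_sub (z : ℂ) :
    ‖1 - conj φ.a * z‖ ^ 2 - ‖z - φ.a‖ ^ 2 = (1 - ‖z‖ ^ 2) * φ.kap := by
  have h1 : ((‖1 - conj φ.a * z‖ ^ 2 : ℝ) : ℂ) = (1 - conj φ.a * z) * (1 - φ.a * conj z) := by
    rw [← Complex.normSq_eq_norm_sq, ← Complex.mul_conj]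
    simp
  have h2 : ((‖z - φ.a‖ ^ 2 : ℝ) : ℂ) = (z - φ.a) * (conj z - conj φ.a) := by
    rw [← Complex.normSq_eq_norm_sq, ← Complex.mul_conj]
    simp
  have h3 : ((‖z‖ ^ 2 : ℝ) : ℂ) = z * conj z := by
    rw [← Complex.normSq_eq_norm_sq, ← Complex.mul_conj]
  have : (((‖1 - conj φ.a * z‖ ^ 2 - ‖z - φ.a‖ ^ 2 : ℝ)) : ℂ) =
      (((1 - ‖z‖ ^ 2) * φ.kap : ℝ) : ℂ) := by
    rw [Complex.ofReal_sub, h1, h2, Complex.ofReal_mul, Complex.ofReal_sub, h3, kap_coe]
    push_cast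
    ring
  exact_mod_cast this

lemma one_sub_norm_sq {z : ℂ} (hz : ‖z‖ ≤ 1) :
    1 - ‖φ.toFun z‖ ^ 2 = (1 - ‖z‖ ^ 2) * φ.kap / ‖1 - conj φ.a * z‖ ^ 2 := by
  have h0 : ‖1 - conj φ.a * z‖ ^ 2 ≠ 0 := by
    have := norm_ne_zero_iff.mpr (φ.den_ne hz)
    positivity
  unfold toFun
  rw [norm_div, norm_mul, φ.norm_lam, one_mul, div_pow, ← norm_conj_sub, sub_div, div_self h0]

lemma norm_lt_one {z : ℂ} (hz : ‖z‖ < 1) : ‖φ.toFun z‖ < 1 := by
  have h := φ.one_sub_norm_sq hz.le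
  have h0 : 0 < ‖1 - conj φ.a * z‖ := norm_pos_iff.mpr (φ.den_ne hz.le)
  have h1 : 0 < (1 - ‖z‖ ^ 2) * φ.kap / ‖1 - conj φ.a * z‖ ^ 2 := by
    have := φ.kap_pos
    have : 0 < 1 - ‖z‖ ^ 2 := by nlinarith [norm_nonneg z]
    positivity
  rw [← h] at h1
  nlinarith [norm_nonneg (φ.toFun z)]

lemma norm_eq_one {z : ℂ} (hz : ‖z‖ = 1) : ‖φ.toFun z‖ = 1 := by
  have h := φ.one_sub_norm_sq hz.le
  rw [hz] at h
  simp only [one_pow, sub_self, zero_mul, zero_div] at h
  nlinarith [norm_nonneg (φ.toFun z), sq_nonneg (‖φ.toFun z‖ - 1)]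

lemma norm_le_one {z : ℂ} (hz : ‖z‖ ≤ 1) : ‖φ.toFun z‖ ≤ 1 := by
  rcases hz.lt_or_eq with h | h
  · exact (φ.norm_lt_one h).le
  · exact (φ.norm_eq_one h).le

lemma continuousOn_toFun : ContinuousOn φ.toFun (Metric.closedBall 0 1) := by
  unfold toFun
  refine ContinuousOn.div (by fun_prop) (by fun_prop) ?_
  intro z hz
  exact φ.den_ne (by simpa using hz)

/-- square root of the conformal factor -/
noncomputable def gf (z : ℂ) : ℝ := Real.sqrt φ.kap / ‖1 - conj φ.a * z‖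

lemma gf_pos {z : ℂ} (hz : ‖z‖ ≤ 1) : 0 < φ.gf z := by
  have h0 : 0 < ‖1 - conj φ.a * z‖ := norm_pos_iff.mpr (φ.den_ne hz)
  have h1 : 0 < Real.sqrt φ.kap := Real.sqrt_pos.mpr φ.kap_pos
  unfold gf
  positivity

lemma gf_sq (z : ℂ) : φ.gf z ^ 2 = φ.kap / ‖1 - conj φ.a * z‖ ^ 2 := by
  unfold gf
  rw [div_pow, Real.sq_sqrt φ.kap_pos.le]

lemma continuousOn_gf : ContinuousOn φ.gf (Metric.closedBall 0 1) := by
  unfold gf
  refine ContinuousOn.div (by fun_prop) (by fun_prop) ?_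
  intro z hz
  exact norm_ne_zero_iff.mpr (φ.den_ne (by simpa using hz))

/-- `χ = ψ ∘ φ` on the open disc -/
def IsComp (χ ψ φ : Mob) : Prop := ∀ z : ℂ, ‖z‖ < 1 → χ.toFun z = ψ.toFun (φ.toFun z)

variable {φ ψ χ}

lemma IsComp.closed (h : IsComp χ ψ φ) {z : ℂ} (hz : ‖z‖ ≤ 1) :
    χ.toFun z = ψ.toFun (φ.toFun z) := by
  have h1 : Set.EqOn χ.toFun (fun z => ψ.toFun (φ.toFun z)) (Metric.closedBall 0 1) := by
    refine Set.EqOn.of_subset_closure (s := Metric.ball 0 1) ?_ χ.continuousOn_toFun ?_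
      Metric.ball_subset_closedBall ?_
    · intro w hw
      exact h w (by simpa using hw)
    · refine ψ.continuousOn_toFun.comp φ.continuousOn_toFun ?_
      intro w hw
      have : ‖w‖ ≤ 1 := by simpa using hw
      simpa using φ.norm_le_one this
    · rw [closure_ball _ (by norm_num)]
  exact h1 (by simpa using hz)

lemma IsComp.gf (h : IsComp χ ψ φ) {z : ℂ} (hz : ‖z‖ ≤ 1) :
    χ.gf z = ψ.gf (φ.toFun z) * φ.gf z := by
  have h1 : Set.EqOn χ.gf (fun z => ψ.gf (φ.toFun z) * φ.gf z) (Metric.closedBall 0 1) := by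
    refine Set.EqOn.of_subset_closure (s := Metric.ball 0 1) ?_ χ.continuousOn_gf ?_
      Metric.ball_subset_closedBall ?_
    · intro w hw
      have hw : ‖w‖ < 1 := by simpa using hw
      have hw2 := φ.norm_lt_one hw
      have hd : 0 < 1 - ‖w‖ ^ 2 := by nlinarith [norm_nonneg w]
      have hd2 : 0 < 1 - ‖φ.toFun w‖ ^ 2 := by nlinarith [norm_nonneg (φ.toFun w)]
      have e1 := χ.one_sub_norm_sq hw.le
      have e2 := ψ.one_sub_norm_sq hw2.le
      have e3 := φ.one_sub_norm_sq hw.le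
      rw [h w hw] at e1
      rw [mul_div_assoc, ← gf_sq] at e1 e2 e3
      have p1 := χ.gf_pos hw.le
      have p2 := ψ.gf_pos hw2.le
      have p3 := φ.gf_pos hw.le
      have : χ.gf w ^ 2 = (ψ.gf (φ.toFun w) * φ.gf w) ^ 2 := by
        have : (1 - ‖w‖ ^ 2) * χ.gf w ^ 2 =
            (1 - ‖w‖ ^ 2) * (ψ.gf (φ.toFun w) * φ.gf w) ^ 2 := by
          rw [← e1, e2, e3]; ring
        exact mul_left_cancel₀ hd.ne' this
      exact (sq_eq_sq₀ p1.le (mul_pos p2 p3).le).mp this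
    · refine ContinuousOn.mul (ψ.continuousOn_gf.comp φ.continuousOn_toFun ?_) φ.continuousOn_gf
      intro w hw
      have : ‖w‖ ≤ 1 := by simpa using hw
      simpa using φ.norm_le_one this
    · rw [closure_ball _ (by norm_num)]
  exact h1 (by simpa using hz)

variable (φ ψ χ)

/-- the map of the circle -/
noncomputable def phiC : C(Tc, Tc) :=
  ⟨fun z => ⟨φ.toFun z, by simpa using φ.norm_eq_one (Tc_norm z)⟩, by
    refine Continuous.subtype_mk ?_ _
    exact φ.continuousOn_toFun.comp_continuous continuous_subtype_val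
      (fun z => by simp)⟩

lemma phiC_apply (z : Tc) : ((φ.phiC z : Tc) : ℂ) = φ.toFun z := rfl

/-- composition with the automorphism -/
noncomputable def pull (f : C(Tc, ℂ)) : C(Tc, ℂ) := f.comp φ.phiC

lemma pull_apply (f : C(Tc, ℂ)) (z : Tc) : φ.pull f z = f (φ.phiC z) := rfl

/-- `|φ'|^{1/2}` -/
noncomputable def gC : C(Tc, ℂ) :=
  ⟨fun z => (φ.gf z : ℂ), Complex.continuous_ofReal.comp
    (φ.continuousOn_gf.comp_continuous continuous_subtype_val (fun z => by simp))⟩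

/-- `-log |φ'|` -/
noncomputable def MC : C(Tc, ℂ) :=
  ⟨fun z => ((-2 * Real.log (φ.gf z) : ℝ) : ℂ), by
    refine Complex.continuous_ofReal.comp (continuous_const.mul ?_)
    refine Continuous.log (φ.continuousOn_gf.comp_continuous continuous_subtype_val
      (fun z => by simp)) ?_
    intro z
    exact (φ.gf_pos (Tc_norm z).le).ne'⟩

/-- `(1 - conj a z)⁻¹` -/
noncomputable def qC : C(Tc, ℂ) :=
  ⟨fun z => (1 - conj φ.a * z)⁻¹, by
    refine Continuous.inv₀ (by fun_prop) ?_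
    intro z
    exact φ.den_ne (Tc_norm z).le⟩

lemma gC_apply (z : Tc) : φ.gC z = (φ.gf z : ℂ) := rfl
lemma MC_apply (z : Tc) : φ.MC z = ((-2 * Real.log (φ.gf z) : ℝ) : ℂ) := rfl
lemma qC_apply (z : Tc) : φ.qC z = (1 - conj φ.a * z)⁻¹ := rfl

lemma qC_inv : (1 - conj φ.a • zp 1) * φ.qC = 1 := by
  ext z
  have := φ.den_ne (Tc_norm z).le
  simp [qC_apply, this]

lemma den2_ne (z : Tc) : (z : ℂ) - φ.a ≠ 0 := by
  intro h
  have h1 := φ.norm_a
  rw [← sub_eq_zero.mp h, Tc_norm] at h1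
  exact lt_irrefl _ h1

lemma gsq (z : Tc) : ((φ.gf z : ℝ) : ℂ) ^ 2 =
    φ.kap * (1 - conj φ.a * z)⁻¹ * (z * ((z : ℂ) - φ.a)⁻¹) := by
  have h1 : ((‖1 - conj φ.a * z‖ ^ 2 : ℝ) : ℂ) = (1 - conj φ.a * z) * (1 - φ.a * (z : ℂ)⁻¹) := by
    rw [← Complex.normSq_eq_norm_sq, ← Complex.mul_conj, ← Tc_conj]
    simp
  have h2 := φ.gf_sq z
  have h3 : ((φ.gf z : ℝ) : ℂ) ^ 2 = φ.kap / ((‖1 - conj φ.a * z‖ ^ 2 : ℝ) : ℂ) := by
    exact_mod_cast congrArg (fun x : ℝ => (x : ℂ)) h2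
  rw [h3, h1]
  have h4 := φ.den_ne (Tc_norm z).le
  have h5 := φ.den2_ne z
  have h6 := Tc_ne z
  field_simp

lemma gC_sq : φ.gC * φ.gC = φ.qC + star φ.qC - 1 := by
  ext z
  have h4 := φ.den_ne (Tc_norm z).le
  have h5 := φ.den2_ne z
  have h6 := Tc_ne z
  have h7 := φ.gsq z
  rw [sq] at h7
  simp only [ContinuousMap.mul_apply, ContinuousMap.sub_apply, ContinuousMap.add_apply,
    ContinuousMap.star_apply, ContinuousMap.one_apply, gC_apply, qC_apply, h7, kap_coe]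
  have h8 : star ((1 - conj φ.a * (z : ℂ))⁻¹) = (1 - φ.a * (z : ℂ)⁻¹)⁻¹ := by
    rw [← Tc_conj]; simp
  rw [h8]
  have h9 : (1 - φ.a * (z : ℂ)⁻¹) ≠ 0 := by
    intro h; apply h5
    have : (z : ℂ) - φ.a = z * (1 - φ.a * (z : ℂ)⁻¹) := by field_simp
    rw [this, h, mul_zero]
  field_simp
  ring

lemma pull_zp_one : φ.pull (zp 1) = φ.lam • ((zp 1 - φ.a • 1) * φ.qC) := by
  ext z
  simp only [pull_apply, zp_apply, phiC_apply, zpow_one, ContinuousMap.smul_apply,
    ContinuousMap.mul_apply, ContinuousMap.sub_apply, ContinuousMap.one_apply, qC_apply,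
    smul_eq_mul, mul_one]
  unfold toFun
  rw [mul_div_assoc]; rfl

lemma pull_g : φ.pull (zp 1) * (φ.gC * φ.gC) =
    (φ.lam * φ.kap) • (zp 1 * (φ.qC * φ.qC)) := by
  ext z
  have h4 := φ.den_ne (Tc_norm z).le
  have h5 := φ.den2_ne z
  have h7 := φ.gsq z
  rw [sq] at h7
  simp only [pull_zp_one, ContinuousMap.mul_apply, gC_apply, h7, ContinuousMap.smul_apply,
    ContinuousMap.sub_apply, ContinuousMap.one_apply, smul_eq_mul, mul_one, zp_apply, zpow_one,
    qC_apply]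
  field_simp

lemma pull_mul (f g : C(Tc, ℂ)) : φ.pull (f * g) = φ.pull f * φ.pull g := rfl

lemma pull_one : φ.pull 1 = 1 := rfl

lemma pull_star (f : C(Tc, ℂ)) : φ.pull (star f) = star (φ.pull f) := rfl

lemma pull_add (f g : C(Tc, ℂ)) : φ.pull (f + g) = φ.pull f + φ.pull g := rfl

lemma pull_cont : Continuous φ.pull := ContinuousMap.continuous_precomp φ.phiC

lemma pull_zp_nat (n : ℕ) : φ.pull (zp n) = (φ.pull (zp 1)) ^ n := by
  induction n with
  | zero => simp [zp_zero, pull_one]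
  | succ n ih => push_cast; rw [zp_add, pull_mul, ih, pow_succ]

variable {φ ψ χ}

lemma IsComp.pull (h : IsComp χ ψ φ) (f : C(Tc, ℂ)) : χ.pull f = φ.pull (ψ.pull f) := by
  ext z
  simp only [pull_apply]
  congr 1
  apply Subtype.ext
  rw [phiC_apply, phiC_apply, phiC_apply]
  exact h.closed (Tc_norm z).le

lemma IsComp.gC (h : IsComp χ ψ φ) : χ.gC = φ.pull ψ.gC * φ.gC := by
  ext z
  simp only [ContinuousMap.mul_apply, pull_apply, gC_apply, phiC_apply]
  rw [h.gf (Tc_norm z).le]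
  push_cast
  rfl

lemma IsComp.MC (h : IsComp χ ψ φ) : χ.MC = φ.pull ψ.MC + φ.MC := by
  ext z
  simp only [ContinuousMap.add_apply, pull_apply, MC_apply, phiC_apply]
  rw [h.gf (Tc_norm z).le, Real.log_mul]
  · push_cast; ring
  · exact (ψ.gf_pos (φ.norm_eq_one (Tc_norm z)).le).ne'
  · exact (φ.gf_pos (Tc_norm z).le).ne'

/-- identity automorphism -/
def one : Mob := ⟨1, 0, by simp, by simp⟩

lemma one_toFun (z : ℂ) : one.toFun z = z := by simp [toFun, one]

lemma one_gf (z : ℂ) : one.gf z = 1 := by simp [gf, one, kap]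

/-- inverse automorphism -/
noncomputable def inv (φ : Mob) : Mob :=
  ⟨conj φ.lam, -(φ.lam * φ.a), by rw [RCLike.norm_conj, φ.norm_lam], by
    rw [norm_neg, norm_mul, φ.norm_lam, one_mul]; exact φ.norm_a⟩

lemma lam_conj (φ : Mob) : φ.lam * conj φ.lam = 1 := by
  rw [Complex.mul_conj, Complex.normSq_eq_norm_sq, φ.norm_lam]; simp

lemma inv_toFun (φ : Mob) {z : ℂ} (hz : ‖z‖ ≤ 1) : φ.inv.toFun (φ.toFun z) = z := by
  have h1 := φ.den_ne hz
  have h2 := φ.inv.den_ne (φ.norm_le_one hz)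
  have h3 := φ.lam_conj
  have hk : (φ.kap : ℂ) ≠ 0 := by exact_mod_cast φ.kap_pos.ne'
  rw [kap_coe] at hk
  have h4 : φ.inv.toFun (φ.toFun z) = conj φ.lam * (φ.toFun z + φ.lam * φ.a) /
      (1 + conj φ.a * conj φ.lam * φ.toFun z) := by
    simp only [toFun, inv, map_neg, map_mul]
    congr 1
    · ring
    · ring
  have h7 : φ.toFun z * (1 - conj φ.a * z) = φ.lam * (z - φ.a) := by
    unfold toFun
    exact div_mul_cancel₀ _ h1
  have h5 : conj φ.lam * (φ.toFun z + φ.lam * φ.a) =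
      z * (1 - conj φ.a * φ.a) / (1 - conj φ.a * z) := by
    rw [eq_div_iff h1]
    linear_combination (z - φ.a + φ.a * (1 - conj φ.a * z)) * h3 + conj φ.lam * h7
  have h6 : (1 + conj φ.a * conj φ.lam * φ.toFun z) =
      (1 - conj φ.a * φ.a) / (1 - conj φ.a * z) := by
    rw [eq_div_iff h1]
    linear_combination (conj φ.a * (z - φ.a)) * h3 + conj φ.a * conj φ.lam * h7
  rw [h4, h5, h6, div_div_div_cancel_right₀ h1, mul_div_assoc, div_self hk, mul_one]

lemma toFun_inv (φ : Mob) {z : ℂ} (hz : ‖z‖ ≤ 1) : φ.toFun (φ.inv.toFun z) = z := by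
  have h := φ.inv.inv_toFun hz
  have h2 : φ.inv.inv = φ := by
    rcases φ with ⟨l, a, h1, h2⟩
    have h3 : l * conj l = 1 := by
      rw [Complex.mul_conj, Complex.normSq_eq_norm_sq, h1]; simp
    simp only [inv, Mob.mk.injEq, Complex.conj_conj, true_and]
    linear_combination a * h3
  rwa [h2] at h

end Mob

end MPaf71ff

end

section

/-!
The unitary representation `rho φ : f ↦ |φ'|^{1/2} f ∘ φ` on `ℓ²(ℤ) = L²(circle)`.
-/

open scoped ComplexConjugate ENNReal Topology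
open Filter

namespace MPaf71ff

lemma inner_Phi (f g : C(Tc, ℂ)) :
    inner ℂ (Phi f (e 0)) (Phi g (e 0)) = fc (star f * g) 0 := by
  unfold fc
  rw [← inner_e, map_mul, map_star, mul_apply_eq_comp, ContinuousLinearMap.star_eq_adjoint,
    ContinuousLinearMap.adjoint_inner_right]

namespace Mob

variable (φ ψ χ : Mob)

lemma star_gC : star φ.gC = φ.gC := by
  ext z
  simp [gC_apply]

lemma ana_qC : Ana (Phi φ.qC) :=
  Ana.of_inv (b := conj φ.a) (by rw [RCLike.norm_conj]; exact φ.norm_a) φ.qC_inv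

lemma ana_u : Ana (Phi (φ.pull (zp 1))) := by
  rw [pull_zp_one, map_smul, map_mul, map_sub, map_smul, map_one, Phi_zp]
  refine (Ana.mul ?_ φ.ana_qC).smul _
  rw [sub_eq_add_neg, ← neg_smul]
  exact Ana.sh_one.add (Ana.one.smul _)

lemma fc_tau_pos (j : ℕ) : fc (φ.pull (zp ((j : ℤ) + 1)) * (φ.gC * φ.gC)) 0 = 0 := by
  have h1 : φ.pull (zp ((j : ℤ) + 1)) * (φ.gC * φ.gC) =
      (φ.lam * φ.kap) • (zp 1 * ((φ.pull (zp 1)) ^ j * (φ.qC * φ.qC))) := by
    rw [zp_add, pull_mul, pull_zp_nat, mul_assoc, pull_g, mul_smul_comm]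
    congr 1
    ring
  have hA : Ana (Phi ((φ.pull (zp 1)) ^ j * (φ.qC * φ.qC))) := by
    rw [map_mul, map_pow, map_mul]
    exact (φ.ana_u.pow j).mul (φ.ana_qC.mul φ.ana_qC)
  have h0 : ∀ m < 0, (e 0 : ℤ → ℂ) m = 0 := fun m hm => e_ne (by omega)
  have h2 := hA (e 0) h0 (-1) (by omega)
  rw [h1, fc_smul]
  unfold fc
  rw [map_mul, Phi_zp, mul_apply_eq_comp, sh_apply, zero_sub, h2, mul_zero]

lemma fc_tau (k : ℤ) : fc (φ.pull (zp k) * (φ.gC * φ.gC)) 0 = if k = 0 then 1 else 0 := by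
  have hpos : ∀ k : ℤ, 0 < k → fc (φ.pull (zp k) * (φ.gC * φ.gC)) 0 = 0 := by
    intro k hk
    obtain ⟨j, hj⟩ := Int.eq_ofNat_of_zero_le (show 0 ≤ k - 1 by omega)
    have : k = (j : ℤ) + 1 := by omega
    rw [this]
    exact φ.fc_tau_pos j
  rcases lt_trichotomy k 0 with hk | hk | hk
  · have h1 := hpos (-k) (by omega)
    have h2 : star (φ.pull (zp (-k)) * (φ.gC * φ.gC)) = φ.pull (zp k) * (φ.gC * φ.gC) := by
      rw [star_mul, star_mul, star_gC, ← pull_star, star_zp, neg_neg, mul_comm]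
    rw [← h2, fc_star, neg_zero, h1, map_zero, if_neg hk.ne]
  · subst hk
    rw [zp_zero, pull_one, one_mul, gC_sq, fc_sub, fc_add, fc_star, fc_one, neg_zero,
      fc_inv (b := conj φ.a) (by rw [RCLike.norm_conj]; exact φ.norm_a) φ.qC_inv]
    simp
  · rw [hpos k hk, if_neg hk.ne']

/-- images of the basis vectors -/
noncomputable def v (n : ℤ) : E := Phi (φ.pull (zp n) * φ.gC) (e 0)

lemma v_orthonormal : Orthonormal ℂ φ.v := by
  rw [orthonormal_iff_ite]
  intro m n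
  unfold v
  rw [inner_Phi, star_mul, star_gC, ← pull_star, star_zp]
  have h : φ.gC * φ.pull (zp (-m)) * (φ.pull (zp n) * φ.gC) =
      φ.pull (zp (n - m)) * (φ.gC * φ.gC) := by
    rw [show n - m = n + -m by ring, zp_add, pull_mul]
    ring
  rw [h, fc_tau]
  by_cases hmn : m = n
  · subst hmn; simp
  · have : n - m ≠ 0 := by omega
    simp [hmn, this]

/-- the unitary representation, first as an isometry -/
noncomputable def rho0 : E →ₗᵢ[ℂ] E := φ.v_orthonormal.orthogonalFamily.linearIsometry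

lemma rho0_e (n : ℤ) : φ.rho0 (e n) = φ.v n := by
  unfold rho0 e
  rw [OrthogonalFamily.linearIsometry_apply_single]
  simp

/-- the unitary representation as a bounded operator -/
noncomputable def rho : E →L[ℂ] E := φ.rho0.toContinuousLinearMap

lemma rho_e (n : ℤ) : φ.rho (e n) = φ.v n := φ.rho0_e n

lemma rho_norm_apply (x : E) : ‖φ.rho x‖ = ‖x‖ := φ.rho0.norm_map x

lemma rho_norm_le : ‖φ.rho‖ ≤ 1 :=
  ContinuousLinearMap.opNorm_le_bound _ zero_le_one (fun x => by rw [rho_norm_apply, one_mul])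

lemma rho_Phi (f : C(Tc, ℂ)) : φ.rho * Phi f = Phi (φ.pull f) * φ.rho := by
  have hz : ∀ k : ℤ, φ.rho * Phi (zp k) = Phi (φ.pull (zp k)) * φ.rho := by
    intro k
    apply ext_e
    intro n
    rw [mul_apply_eq_comp, mul_apply_eq_comp, Phi_zp, sh_e, rho_e, rho_e]
    unfold v
    rw [← mul_apply_eq_comp, ← map_mul, add_comm, zp_add, pull_mul, mul_assoc]
  induction f using ContinuousMap.induction_on_of_compact with
  | const r =>
    have h1 : (ContinuousMap.const (↥Tc) r : C(Tc, ℂ)) = r • 1 := by ext z; simp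
    have h2 : φ.pull (r • 1) = r • 1 := rfl
    rw [h1, h2, map_smul, map_one, mul_smul_comm, smul_mul_assoc, mul_one, one_mul]
  | id => rw [← zp_one_eq]; exact hz 1
  | star_id => rw [← zp_one_eq, star_zp]; exact hz (-1)
  | add f g hf hg => rw [pull_add, map_add, map_add, mul_add, add_mul, hf, hg]
  | mul f g hf hg =>
    rw [pull_mul, map_mul, map_mul, ← mul_assoc, hf, mul_assoc, hg, mul_assoc]
  | frequently f hf =>
    have hc : IsClosed {f : C(Tc, ℂ) | φ.rho * Phi f = Phi (φ.pull f) * φ.rho} := by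
      refine isClosed_eq ?_ ?_
      · exact continuous_const.mul Phi_cont
      · exact (Phi_cont.comp φ.pull_cont).mul continuous_const
    exact hc.closure_subset (mem_closure_iff_frequently.mpr hf)

lemma rho_Phi_e (f : C(Tc, ℂ)) : φ.rho (Phi f (e 0)) = Phi (φ.pull f * φ.gC) (e 0) := by
  rw [← mul_apply_eq_comp, rho_Phi, mul_apply_eq_comp, rho_e]
  unfold v
  rw [zp_zero, pull_one, one_mul, ← mul_apply_eq_comp, ← map_mul]

variable {φ ψ χ}

lemma IsComp.rho (h : IsComp χ ψ φ) : χ.rho = φ.rho * ψ.rho := by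
  apply ext_e
  intro n
  rw [mul_apply_eq_comp, rho_e, rho_e]
  unfold v
  rw [rho_Phi_e, h.pull, h.gC, pull_mul]
  congr 2
  ring

variable (φ)

lemma rho_one : one.rho = 1 := by
  apply ext_e
  intro n
  rw [rho_e]
  unfold v
  have h1 : one.pull (zp n) = zp n := by
    ext z
    rw [pull_apply, zp_apply, zp_apply, phiC_apply, one_toFun]
  have h2 : one.gC = 1 := by
    ext z
    rw [gC_apply, one_gf]; simp
  rw [h1, h2, mul_one, Phi_zp, sh_e]
  simp

lemma isComp_inv : IsComp one φ.inv φ := fun z hz => by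
  rw [one_toFun, φ.inv_toFun hz.le]

lemma isComp_inv' : IsComp one φ φ.inv := fun z hz => by
  rw [one_toFun, φ.toFun_inv hz.le]

lemma rho_inv_mul : φ.inv.rho * φ.rho = 1 := by
  rw [← φ.isComp_inv'.rho, rho_one]

lemma rho_mul_inv : φ.rho * φ.inv.rho = 1 := by
  rw [← φ.isComp_inv.rho, rho_one]

end Mob

end MPaf71ff

end

section

/-!
The weight sequence `ell`, the operator `A`, and the derivation identities.
-/

open scoped ComplexConjugate ENNReal Topology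
open Filter

namespace MPaf71ff

/-- the weights `1/(n+1/2)` -/
noncomputable def tw (n : ℤ) : ℝ := 1 / ((n : ℝ) + 1 / 2)

lemma half_ne (n : ℤ) : (n : ℝ) + 1 / 2 ≠ 0 := by
  intro h
  have h1 : (2 * n + 1 : ℤ) = 0 := by
    have : (2 * (n : ℝ) + 1) = 0 := by linarith
    exact_mod_cast this
  omega

lemma tw_mul (n : ℤ) : tw n * ((n : ℝ) + 1 / 2) = 1 := by
  unfold tw
  exact one_div_mul_cancel (half_ne n)

lemma twC_mul (n : ℤ) : ((tw n : ℝ) : ℂ) * ((n : ℂ) + 1 / 2) = 1 := by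
  have h := tw_mul n
  rw [← Complex.ofReal_inj] at h
  push_cast at h
  exact h

lemma tw_abs (n : ℤ) : |tw n| ≤ 2 := by
  unfold tw
  rw [abs_div, abs_one]
  rw [div_le_iff₀ (abs_pos.mpr (half_ne n))]
  rcases le_or_gt 0 n with h | h
  · have : (0 : ℝ) ≤ n := by exact_mod_cast h
    rw [abs_of_nonneg (by linarith)]
    linarith
  · have : (n : ℝ) ≤ -1 := by exact_mod_cast (show n ≤ -1 by omega)
    rw [abs_of_neg (by linarith)]
    linarith

/-- partial sums -/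
noncomputable def hh (n : ℕ) : ℝ := ∑ i ∈ Finset.range n, 1 / ((i : ℝ) + 1 / 2)

lemma hh_succ (n : ℕ) : hh (n + 1) = hh n + 1 / ((n : ℝ) + 1 / 2) := by
  unfold hh; rw [Finset.sum_range_succ]

/-- the even sequence with increments `tw` -/
noncomputable def ell (n : ℤ) : ℝ := hh n.natAbs

lemma ell_zero : ell 0 = 0 := by simp [ell, hh]

lemma ell_neg (n : ℤ) : ell (-n) = ell n := by simp [ell]

lemma ell_succ (n : ℤ) : ell (n + 1) = ell n + tw n := by
  unfold ell tw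
  rcases le_or_gt 0 n with h | h
  · obtain ⟨k, rfl⟩ := Int.eq_ofNat_of_zero_le h
    have : ((k : ℤ) + 1).natAbs = k + 1 := by omega
    rw [this, hh_succ]
    simp
  · obtain ⟨k, hk⟩ := Int.eq_ofNat_of_zero_le (show 0 ≤ -n - 1 by omega)
    have hn : n = -((k : ℤ) + 1) := by omega
    subst hn
    have h1 : (-((k : ℤ) + 1) + 1).natAbs = k := by omega
    have h2 : (-((k : ℤ) + 1)).natAbs = k + 1 := by omega
    rw [h1, h2, hh_succ]
    push_cast
    have h3 : ((k : ℝ) + 1 / 2) ≠ 0 := by positivity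
    have h4 : (-((k : ℝ) + 1) + 1 / 2) = -((k : ℝ) + 1 / 2) := by ring
    rw [h4]
    field_simp
    ring

/-- complex version -/
noncomputable def ellC (n : ℤ) : ℂ := (ell n : ℂ)

/-- identity sequence -/
def idC (n : ℤ) : ℂ := (n : ℂ)

/-- the operator `A e_n = t_n e_{n+1}` -/
noncomputable def A : E →L[ℂ] E := wsh 1 (fun n => (tw n : ℂ)) 2 (fun n => by
  rw [Complex.norm_real]; exact tw_abs n)

lemma A_e (n : ℤ) : A (e n) = (tw n : ℂ) • e (n + 1) := wsh_e _ _ _ _ n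

lemma A_apply (x : E) (m : ℤ) :
    (A x : ℤ → ℂ) m = (tw (m - 1) : ℂ) * (x : ℤ → ℂ) (m - 1) := wsh_apply _ _ _ _ x m

lemma A_norm : ‖A‖ ≤ 2 := wsh_norm _ _ _ _

/-! ### derivative of the shifts -/

/-- Lipschitz sequences -/
def Lip (L : ℤ → ℂ) : Prop := ∀ n, ‖L (n + 1) - L n‖ ≤ 2

lemma Lip.nat {L : ℤ → ℂ} (hL : Lip L) (n : ℤ) (k : ℕ) : ‖L (n + k) - L n‖ ≤ 2 * k := by
  induction k with
  | zero => simp
  | succ k ih =>
    have h1 := hL (n + k)
    have : L (n + ((k + 1 : ℕ) : ℤ)) - L n = (L (n + k + 1) - L (n + k)) + (L (n + k) - L n) := by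
      push_cast; rw [← add_assoc]; ring
    rw [this]
    refine (norm_add_le _ _).trans ?_
    push_cast
    linarith

lemma Lip.int {L : ℤ → ℂ} (hL : Lip L) (n k : ℤ) : ‖L (n + k) - L n‖ ≤ 2 * |(k : ℝ)| := by
  rcases Int.eq_nat_or_neg k with ⟨j, rfl | rfl⟩
  · simpa using hL.nat n j
  · have h := hL.nat (n + -(j : ℤ)) j
    rw [neg_add_cancel_right, norm_sub_rev] at h
    simpa using h

lemma ellC_lip : Lip ellC := by
  intro n
  unfold ellC
  rw [ell_succ]
  push_cast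
  rw [add_sub_cancel_left, Complex.norm_real]
  exact tw_abs n

lemma idC_lip : Lip idC := by
  intro n
  unfold idC
  push_cast
  rw [add_sub_cancel_left]
  simp

/-- derivative of the `k`-th shift -/
noncomputable def dsh {L : ℤ → ℂ} (hL : Lip L) (k : ℤ) : E →L[ℂ] E :=
  wsh k (fun n => L (n + k) - L n) (2 * |(k : ℝ)|) (fun n => hL.int n k)

lemma dsh_norm {L : ℤ → ℂ} (hL : Lip L) (k : ℤ) : ‖dsh hL k‖ ≤ 2 * |(k : ℝ)| := wsh_norm _ _ _ _

lemma dsh_isDer {L : ℤ → ℂ} (hL : Lip L) (k : ℤ) : IsDer L (sh k) (dsh hL k) := by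
  intro m n
  unfold dsh
  rw [wsh_e, sh_e, co_smul, e_apply]
  by_cases h : m = n + k
  · subst h; simp
  · simp [h]

lemma A_isDer : IsDer ellC (sh 1) A := by
  intro m n
  rw [A_e, sh_e, co_smul, e_apply]
  by_cases h : m = n + 1
  · subst h
    unfold ellC
    rw [ell_succ]
    simp
  · simp [h]

lemma dsh_one : dsh ellC_lip 1 = A := (dsh_isDer ellC_lip 1).unique A_isDer

lemma isDer_id_sh (k : ℤ) : IsDer idC (sh k) ((k : ℂ) • sh k) := by
  intro m n
  rw [smul_apply, co_smul, sh_e, e_apply]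
  by_cases h : m = n + k
  · subst h; simp [idC]
  · simp [h]

lemma dsh_id (k : ℤ) : dsh idC_lip k = (k : ℂ) • sh k :=
  (dsh_isDer idC_lip k).unique (isDer_id_sh k)

lemma isDer_id_iff (f f' : C(Tc, ℂ)) :
    IsDer idC (Phi f) (Phi f') ↔ ∀ k : ℤ, fc f' k = (k : ℂ) * fc f k := by
  constructor
  · intro h k
    have := h k 0
    simpa [fc, idC] using this
  · intro h m n
    rw [Phi_entry, Phi_entry, h]
    simp [idC]

/-- real sequences: the adjoint -/
lemma IsDer.star {L : ℤ → ℂ} (hL : ∀ n, conj (L n) = L n) {F F' : E →L[ℂ] E} (h : IsDer L F F') :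
    IsDer L (star F) (-star F') := by
  intro m n
  rw [neg_apply, co_neg, star_entry, star_entry, h]
  rw [map_mul, map_sub, hL, hL]
  ring

/-- commutator of a function of the shift with `A` -/
lemma comm_A {f f' : C(Tc, ℂ)} (h : IsDer idC (Phi f) (Phi f')) :
    Phi f * A - A * Phi f = A * (sh (-1) * (Phi f' * A)) := by
  apply ext_entries
  intro m n
  rw [isDer_id_iff] at h
  rw [sub_apply, co_sub]
  simp only [mul_apply_eq_comp]
  rw [A_e, map_smul, co_smul, Phi_entry, A_apply, Phi_entry, A_apply, sh_apply, map_smul,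
    co_smul, Phi_entry, h]
  have h1 : m - 1 - -1 - (n + 1) = m - (n + 1) := by ring
  have h2 : m - 1 - n = m - (n + 1) := by ring
  rw [h1, h2]
  have h3 := twC_mul n
  have h4 := twC_mul (m - 1)
  push_cast at h4
  push_cast
  linear_combination (-(tw n : ℂ) * fc f (m - (n + 1))) * h4 +
    ((tw (m - 1) : ℂ) * fc f (m - (n + 1))) * h3

lemma A_half {h h' : C(Tc, ℂ)} (hd : IsDer idC (Phi h) (Phi h')) :
    A (Phi (h' + (1 / 2 : ℂ) • h) (e 0)) = Phi (zp 1 * h) (e 0) := by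
  rw [isDer_id_iff] at hd
  ext m
  rw [A_apply, map_mul, mul_apply_eq_comp, Phi_zp, sh_apply]
  change _ * fc (h' + (1 / 2 : ℂ) • h) (m - 1) = fc h (m - 1)
  rw [fc_add, fc_smul, hd]
  have h4 := twC_mul (m - 1)
  push_cast at h4
  push_cast
  linear_combination fc h (m - 1) * h4

/-! ### series -/

lemma hasSum_of_pointwise {f : ℕ → C(Tc, ℂ)} {g : C(Tc, ℂ)} {b : ℕ → ℝ} (hb : Summable b)
    (h1 : ∀ k, ‖f k‖ ≤ b k) (h2 : ∀ z, HasSum (fun k => f k z) (g z)) : HasSum f g := by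
  have hs : Summable f := Summable.of_norm_bounded hb h1
  have h3 := hs.hasSum
  have h4 : ∑' k, f k = g := by
    ext z
    have h5 := h3.mapL (ContinuousMap.evalCLM ℂ z)
    exact h5.unique (h2 z)
  rwa [h4] at h3

lemma zp_norm (k : ℤ) : ‖zp k‖ ≤ 1 := by
  rw [ContinuousMap.norm_le _ zero_le_one]
  intro z
  rw [zp_apply, norm_zpow, Tc_norm, one_zpow]

namespace Mob

variable (φ : Mob)

lemma summable_a : Summable (fun k : ℕ => ‖φ.a‖ ^ k) :=
  summable_geometric_of_lt_one (norm_nonneg _) φ.norm_a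

lemma qC_hasSum : HasSum (fun k : ℕ => (conj φ.a) ^ k • zp k) φ.qC := by
  refine hasSum_of_pointwise φ.summable_a (fun k => ?_) (fun z => ?_)
  · rw [norm_smul, norm_pow, RCLike.norm_conj]
    exact mul_le_of_le_one_right (by positivity) (zp_norm _)
  · have h := hasSum_geometric_of_norm_lt_one (φ.den_norm (Tc_norm z).le)
    rw [qC_apply]
    convert! h using 2 with k
    simp [mul_pow]

lemma MC_hasSum : HasSum (fun k : ℕ => -(((conj φ.a) ^ k / k) • zp k + (φ.a ^ k / k) • zp (-k)))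
    (φ.MC + (Real.log φ.kap : ℂ) • 1) := by
  refine hasSum_of_pointwise (φ.summable_a.mul_left 2) (fun k => ?_) (fun z => ?_)
  · rw [norm_neg]
    refine (norm_add_le _ _).trans ?_
    rw [norm_smul, norm_smul, norm_div, norm_div, norm_pow, norm_pow, RCLike.norm_conj]
    have h1 : ‖φ.a‖ ^ k / ‖(k : ℂ)‖ ≤ ‖φ.a‖ ^ k := by
      rcases k with _ | k
      · simp
      · apply div_le_self (by positivity)
        rw [Complex.norm_natCast]
        push_cast
        have : (0 : ℝ) ≤ k := by positivity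
        linarith
    have h2 := zp_norm k
    have h3 := zp_norm (-k)
    have h4 : 0 ≤ ‖φ.a‖ ^ k / ‖(k : ℂ)‖ := by positivity
    nlinarith [norm_nonneg (zp k), norm_nonneg (zp (-k))]
  · have h1 := Complex.hasSum_taylorSeries_neg_log (φ.den_norm (Tc_norm z).le)
    have h2 : HasSum (fun k : ℕ => conj ((conj φ.a * (z : ℂ)) ^ k / k))
        (conj (-Complex.log (1 - conj φ.a * z))) := h1.mapL (Complex.conjCLE : ℂ →L[ℝ] ℂ)
    have h3 := (h1.add h2).neg
    convert! h3 using 2 with k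
    · simp only [ContinuousMap.neg_apply, ContinuousMap.add_apply, ContinuousMap.smul_apply,
        zp_apply, smul_eq_mul, map_div₀, map_pow, map_mul, Complex.conj_conj, Tc_conj,
        Complex.conj_natCast]
      rw [mul_pow, mul_pow, zpow_neg, zpow_natCast, inv_pow]
      ring
    · have h5 := φ.kap_pos
      have h6 : 0 < ‖1 - conj φ.a * (z : ℂ)‖ := norm_pos_iff.mpr (φ.den_ne (Tc_norm z).le)
      simp only [ContinuousMap.add_apply, MC_apply, ContinuousMap.smul_apply,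
        ContinuousMap.one_apply, smul_eq_mul, mul_one]
      unfold gf
      rw [Real.log_div (Real.sqrt_pos.mpr h5).ne' h6.ne', Real.log_sqrt h5.le, Complex.add_conj,
        Complex.neg_re, Complex.log_re]
      push_cast
      ring

lemma norm_coef (k : ℕ) (c : ℂ) (hc : ‖c‖ = ‖φ.a‖) {L : ℤ → ℂ} (hL : Lip L) (j : ℤ)
    (hj : |(j : ℝ)| = k) : ‖(c ^ k / k) • dsh hL j‖ ≤ 2 * ‖φ.a‖ ^ k := by
  rw [norm_smul, norm_div, norm_pow, hc, Complex.norm_natCast]
  have h1 := dsh_norm hL j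
  rw [hj] at h1
  have h0 : 0 ≤ ‖φ.a‖ ^ k := by positivity
  calc ‖φ.a‖ ^ k / k * ‖dsh hL j‖ ≤ ‖φ.a‖ ^ k / k * (2 * k) := by gcongr
    _ ≤ 2 * ‖φ.a‖ ^ k := by
      rcases k with _ | k
      · simp
      · have : ((k + 1 : ℕ) : ℝ) ≠ 0 := by positivity
        field_simp
        rfl

lemma dM_summable {L : ℤ → ℂ} (hL : Lip L) : Summable (fun k : ℕ =>
    -(((conj φ.a) ^ k / k) • dsh hL k + (φ.a ^ k / k) • dsh hL (-k))) := by
  refine Summable.of_norm_bounded (φ.summable_a.mul_left 4) (fun k => ?_)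
  rw [norm_neg]
  refine (norm_add_le _ _).trans ?_
  have h1 := φ.norm_coef k (conj φ.a) (RCLike.norm_conj _) hL k (by simp)
  have h2 := φ.norm_coef k φ.a rfl hL (-k) (by simp)
  linarith

/-- derivative of `Phi MC` -/
noncomputable def dM {L : ℤ → ℂ} (hL : Lip L) : E →L[ℂ] E :=
  ∑' k : ℕ, -(((conj φ.a) ^ k / k) • dsh hL k + (φ.a ^ k / k) • dsh hL (-k))

lemma dM_hasSum {L : ℤ → ℂ} (hL : Lip L) : HasSum (fun k : ℕ =>
    -(((conj φ.a) ^ k / k) • dsh hL k + (φ.a ^ k / k) • dsh hL (-k))) (φ.dM hL) :=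
  (φ.dM_summable hL).hasSum

lemma Phi_MC_hasSum : HasSum
    (fun k : ℕ => -(((conj φ.a) ^ k / k) • sh k + (φ.a ^ k / k) • sh (-k)))
    (Phi φ.MC + (Real.log φ.kap : ℂ) • 1) := by
  have h := φ.MC_hasSum.map Phi Phi_cont
  simp only [map_add, map_smul, map_one] at h
  convert! h using 2 with k
  simp [Phi_zp]

lemma dM_isDer {L : ℤ → ℂ} (hL : Lip L) : IsDer L (Phi φ.MC) (φ.dM hL) := by
  have h1 := IsDer.hasSum (L := L) φ.Phi_MC_hasSum (φ.dM_hasSum hL) (fun k => by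
    have h3 := (((dsh_isDer hL k).smul ((conj φ.a) ^ k / k)).add
      ((dsh_isDer hL (-k)).smul (φ.a ^ k / k))).smul (-1)
    rwa [neg_one_smul, neg_one_smul] at h3)
  have h2 := h1.add ((IsDer.one L).smul (-(Real.log φ.kap : ℂ)))
  simpa using h2

lemma dM_id : φ.dM idC_lip = Phi (star φ.qC - φ.qC) := by
  have h1 := φ.dM_hasSum idC_lip
  have h2 := (φ.qC_hasSum.star.sub φ.qC_hasSum).map Phi Phi_cont
  refine h1.unique ?_
  convert! h2 using 2 with k
  simp only [Function.comp, star_smul, star_zp, map_sub, map_smul, Phi_zp, dsh_id, smul_smul]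
  rcases k with _ | k
  · simp
  · have h0 : ((k + 1 : ℕ) : ℂ) ≠ 0 := by exact_mod_cast Nat.succ_ne_zero k
    have e1 : (conj φ.a) ^ (k + 1) / ((k + 1 : ℕ) : ℂ) * (((k + 1 : ℕ) : ℤ) : ℂ) =
        (conj φ.a) ^ (k + 1) := by
      rw [Int.cast_natCast]; exact div_mul_cancel₀ _ h0
    have e2 : φ.a ^ (k + 1) / ((k + 1 : ℕ) : ℂ) * ((-((k + 1 : ℕ) : ℤ) : ℤ) : ℂ) =
        -(φ.a ^ (k + 1)) := by
      rw [Int.cast_neg, Int.cast_natCast, mul_neg]
      rw [div_mul_cancel₀ _ h0]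
    rw [e1, e2]
    simp [sub_eq_add_neg, add_comm]

end Mob

end MPaf71ff

end

section

/-!
The covariance relation `rho * A = A' * rho`.
-/

open scoped ComplexConjugate ENNReal Topology
open Filter

namespace MPaf71ff

lemma map_exp' {𝔸 𝔹 : Type*} [NormedRing 𝔸] [NormedAlgebra ℂ 𝔸] [CompleteSpace 𝔸] [NormedRing 𝔹]
    [NormedAlgebra ℂ 𝔹] {F : Type*} [FunLike F 𝔸 𝔹] [RingHomClass F 𝔸 𝔹] (f : F)
    (hf : Continuous f) (x : 𝔸) : f (NormedSpace.exp x) = NormedSpace.exp (f x) :=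
  NormedSpace.map_exp_of_mem_ball (𝕂 := ℂ) f hf x <|
    (NormedSpace.expSeries_radius_eq_top ℂ 𝔸).symm ▸ edist_lt_top _ _

lemma IsDer.mulPhi {f f' g g' : C(Tc, ℂ)} (h1 : IsDer idC (Phi f) (Phi f'))
    (h2 : IsDer idC (Phi g) (Phi g')) : IsDer idC (Phi (f * g)) (Phi (f' * g + f * g')) := by
  rw [map_mul, map_add, map_mul, map_mul]
  exact h1.mul h2

lemma isDer_zp (k : ℤ) : IsDer idC (Phi (zp k)) (Phi ((k : ℂ) • zp k)) := by
  rw [map_smul, Phi_zp]
  exact isDer_id_sh k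

lemma idC_real (n : ℤ) : conj (idC n) = idC n := by simp [idC]

lemma ellC_real (n : ℤ) : conj (ellC n) = ellC n := by simp [ellC]

namespace Mob

variable (φ : Mob)

lemma gC_exp : φ.gC = NormedSpace.exp ((-1 / 2 : ℂ) • φ.MC) := by
  ext z
  have h1 : (NormedSpace.exp ((-1 / 2 : ℂ) • φ.MC)) z =
      NormedSpace.exp (((-1 / 2 : ℂ) • φ.MC) z) :=
    map_exp' (ContinuousMap.evalAlgHom ℂ ℂ z) (continuous_eval_const z) _
  rw [h1, ← Complex.exp_eq_exp_ℂ, ContinuousMap.smul_apply, MC_apply, gC_apply]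
  have h2 : (-1 / 2 : ℂ) • (((-2 * Real.log (φ.gf z) : ℝ)) : ℂ) = ((Real.log (φ.gf z) : ℝ) : ℂ) := by
    rw [smul_eq_mul]; push_cast; ring
  rw [h2, ← Complex.ofReal_exp, Real.exp_log (φ.gf_pos (Tc_norm z).le)]

lemma isDer_gC : IsDer idC (Phi φ.gC) (Phi (((-1 / 2 : ℂ) • (star φ.qC - φ.qC)) * φ.gC)) := by
  have h1 : IsDer idC (Phi φ.MC) (Phi (star φ.qC - φ.qC)) := by
    rw [← φ.dM_id]; exact φ.dM_isDer idC_lip
  have h2 := h1.smul (-1 / 2)
  rw [← map_smul, ← map_smul] at h2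
  have h3 := h2.exp (Phi_comm _ _)
  have h4 : Phi φ.gC = NormedSpace.exp (Phi ((-1 / 2 : ℂ) • φ.MC)) := by
    rw [gC_exp]; exact map_exp' Phi Phi_cont _
  rw [map_mul, h4]
  exact h3

/-- `P = |φ'|` -/
noncomputable def P : C(Tc, ℂ) := φ.gC * φ.gC

lemma P_eq : φ.P = φ.qC + star φ.qC - 1 := φ.gC_sq

end Mob

/-- general derivative of `(1 - conj a Z)⁻¹` -/
lemma Mob.exists_der_q (φ : Mob) {L : ℤ → ℂ} (hL : Lip L) :
    IsDer L (Phi φ.qC) ((conj φ.a) • (Phi φ.qC * dsh hL 1 * Phi φ.qC)) := by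
  have hs : Summable (fun k : ℕ => (conj φ.a) ^ k • dsh hL k) := by
    have h0 : Summable (fun k : ℕ => (2 : ℝ) * (‖conj φ.a‖ ^ k * k)) := by
      have := summable_pow_mul_geometric_of_norm_lt_one 1
        (show ‖‖conj φ.a‖‖ < 1 by rw [norm_norm, RCLike.norm_conj]; exact φ.norm_a)
      simp only [pow_one] at this
      convert! this.mul_left 2 using 2 with k
      ring
    refine Summable.of_norm_bounded h0 (fun k => ?_)
    rw [norm_smul, norm_pow]
    have h1 := dsh_norm hL k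
    have h2 : |(((k : ℤ)) : ℝ)| = k := by simp
    rw [h2] at h1
    calc ‖conj φ.a‖ ^ k * ‖dsh hL k‖ ≤ ‖conj φ.a‖ ^ k * (2 * k) := by gcongr
      _ = _ := by ring
  have hq := φ.qC_hasSum.map Phi Phi_cont
  have hd : IsDer L (Phi φ.qC) (∑' k : ℕ, (conj φ.a) ^ k • dsh hL k) := by
    refine IsDer.hasSum hq hs.hasSum (fun k => ?_)
    simp only [Function.comp, map_smul, Phi_zp]
    exact (dsh_isDer hL k).smul _
  set Q' := ∑' k : ℕ, (conj φ.a) ^ k • dsh hL k with hQ'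
  have h1 : IsDer L (Phi (1 - conj φ.a • zp 1)) (-(conj φ.a • dsh hL 1)) := by
    rw [map_sub, map_one, map_smul, Phi_zp, sub_eq_add_neg, ← neg_smul]
    have := (IsDer.one L).add ((dsh_isDer hL 1).smul (-conj φ.a))
    rwa [zero_add, neg_smul (conj φ.a) (dsh hL 1)] at this
  have h2 := h1.mul hd
  rw [← map_mul, φ.qC_inv, map_one] at h2
  have h3 := h2.unique (IsDer.one L)
  have h4 : Phi φ.qC * Phi (1 - conj φ.a • zp 1) = 1 := by
    rw [← map_mul, mul_comm, φ.qC_inv, map_one]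
  have h5 : Q' = (conj φ.a) • (Phi φ.qC * dsh hL 1 * Phi φ.qC) := by
    have h6 : Phi (1 - conj φ.a • zp 1) * Q' = conj φ.a • (dsh hL 1 * Phi φ.qC) := by
      rw [neg_mul, neg_add_eq_zero] at h3
      rw [← h3, smul_mul_assoc]
    calc Q' = Phi φ.qC * (Phi (1 - conj φ.a • zp 1) * Q') := by rw [← mul_assoc, h4, one_mul]
      _ = _ := by rw [h6, mul_smul_comm, mul_assoc]
  rw [← h5]
  exact hd

namespace Mob

variable (φ : Mob)

lemma one_add_q : 1 + conj φ.a • ((zp 1 - φ.a • 1) * φ.qC) = (φ.kap : ℂ) • φ.qC := by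
  ext z
  have h4 := φ.den_ne (Tc_norm z).le
  simp only [ContinuousMap.add_apply, ContinuousMap.one_apply, ContinuousMap.smul_apply,
    ContinuousMap.mul_apply, ContinuousMap.sub_apply, zp_apply, zpow_one, qC_apply, smul_eq_mul,
    mul_one, kap_coe]
  field_simp
  ring

lemma isDer_u {L : ℤ → ℂ} (hL : Lip L) : IsDer L (Phi (φ.pull (zp 1)))
    ((φ.lam * φ.kap) • (Phi φ.qC * dsh hL 1 * Phi φ.qC)) := by
  have h1 : IsDer L (Phi (zp 1 - φ.a • 1)) (dsh hL 1) := by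
    rw [map_sub, map_smul, map_one, Phi_zp, sub_eq_add_neg, ← neg_smul]
    have := (dsh_isDer hL 1).add ((IsDer.one L).smul (-φ.a))
    simpa using this
  have h2 := (h1.mul (φ.exists_der_q hL)).smul φ.lam
  rw [pull_zp_one, map_smul, map_mul]
  convert! h2 using 1
  have h3 : Phi (1 + conj φ.a • ((zp 1 - φ.a • 1) * φ.qC)) = (φ.kap : ℂ) • Phi φ.qC := by
    rw [one_add_q, map_smul]
  rw [map_add, map_one, map_smul, map_mul] at h3
  rw [mul_smul]
  congr 1
  calc (φ.kap : ℂ) • (Phi φ.qC * dsh hL 1 * Phi φ.qC)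
      = ((φ.kap : ℂ) • Phi φ.qC) * (dsh hL 1 * Phi φ.qC) := by
        rw [smul_mul_assoc, mul_assoc]
    _ = _ := by
      rw [← h3]
      simp only [add_mul, one_mul, smul_mul_assoc, mul_smul_comm, mul_assoc]

lemma isDer_u_id : IsDer idC (Phi (φ.pull (zp 1))) (Phi (φ.pull (zp 1) * φ.P)) := by
  have h := φ.isDer_u idC_lip
  rw [dsh_id, Int.cast_one, one_smul] at h
  convert! h using 1
  unfold P
  rw [pull_g, map_smul, map_mul, map_mul, Phi_zp]
  congr 1
  rw [← Phi_zp, ← map_mul, ← map_mul, ← map_mul, ← map_mul]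
  congr 1
  ring

lemma isDer_pull (k : ℤ) :
    IsDer idC (Phi (φ.pull (zp k))) (Phi ((k : ℂ) • (φ.pull (zp k) * φ.P))) := by
  have hnat : ∀ n : ℕ,
      IsDer idC (Phi (φ.pull (zp n))) (Phi (((n : ℤ) : ℂ) • (φ.pull (zp n) * φ.P))) := by
    intro n
    have h := φ.isDer_u_id.pow (Phi_comm _ _) n
    rw [pull_zp_nat, map_pow]
    convert! h using 1
    rw [map_smul, Int.cast_natCast]
    rcases n with _ | n
    · simp
    · congr 1
      rw [← map_pow, ← map_mul]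
      congr 1
      rw [Nat.add_sub_cancel, pow_succ]
      ring
  rcases Int.eq_nat_or_neg k with ⟨n, rfl | rfl⟩
  · exact hnat n
  · have h := (hnat n).star idC_real
    rw [← map_star, ← map_star, ← map_neg, ← pull_star, star_zp] at h
    convert! h using 2
    have hP : star φ.P = φ.P := by unfold P; rw [star_mul, star_gC]
    rw [star_smul, star_mul, hP, ← pull_star, star_zp]
    simp [mul_comm]

/-- the auxiliary function `h = z⁻¹ (1 - conj a z) φ^{n+1} g` -/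
noncomputable def hC (n : ℤ) : C(Tc, ℂ) :=
  zp (-1) * ((1 - conj φ.a • zp 1) * (φ.pull (zp (n + 1)) * φ.gC))

lemma isDer_hC (n : ℤ) : IsDer idC (Phi (φ.hC n))
    (Phi (φ.hC n * (((n : ℂ) + 1 / 2) • φ.P - (1 / 2 : ℂ) • 1))) := by
  have h1 := (φ.isDer_pull (n + 1)).mulPhi φ.isDer_gC
  have h2 : IsDer idC (Phi (1 - conj φ.a • zp 1)) (Phi (-(conj φ.a • zp 1))) := by
    have := (IsDer.one idC).add ((isDer_zp 1).smul (-conj φ.a))
    rw [zero_add, Int.cast_one, one_smul, ← map_smul, neg_smul, ← map_one Phi, ← map_add] at this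
    rw [sub_eq_add_neg]
    exact this
  have h3 := (isDer_zp (-1)).mulPhi (h2.mulPhi h1)
  convert! h3 using 2
  unfold hC
  have hz : conj φ.a • zp 1 = (1 - conj φ.a • zp 1) * (φ.qC - 1) := by
    rw [mul_sub, φ.qC_inv]; ring
  have hz' : (-(conj φ.a • zp 1)) = (1 - conj φ.a • zp 1) * (1 - φ.qC) := by
    rw [mul_sub, φ.qC_inv]; ring
  rw [hz']
  have hP := φ.P_eq
  set w := (1 - conj φ.a • zp 1) with hw
  rw [hP]
  push_cast
  simp only [Algebra.smul_def]
  set c := (algebraMap ℂ C(Tc, ℂ)) (n : ℂ) with hc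
  have e1 : (algebraMap ℂ C(Tc, ℂ)) ((n : ℂ) + 1 / 2) = c + (algebraMap ℂ C(Tc, ℂ)) (1 / 2) := by
    rw [map_add]
  have e2 : (algebraMap ℂ C(Tc, ℂ)) ((n : ℂ) + 1) = c + 1 := by rw [map_add, map_one]
  have e3 : (algebraMap ℂ C(Tc, ℂ)) (-1 / 2) = -(algebraMap ℂ C(Tc, ℂ)) (1 / 2) := by
    rw [← map_neg]; congr 1; ring
  have e4 : (algebraMap ℂ C(Tc, ℂ)) (-1) = -1 := by rw [map_neg, map_one]
  have e5 : 2 * (algebraMap ℂ C(Tc, ℂ)) (1 / 2) = 1 := by
    rw [← map_ofNat (algebraMap ℂ C(Tc, ℂ)) 2, ← map_mul]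
    norm_num
  rw [e1, e2, e3, e4]
  set H := (algebraMap ℂ C(Tc, ℂ)) (1 / 2) with hH
  linear_combination (zp (-1) * w * φ.pull (zp (n + 1)) * φ.gC * (star φ.qC - 1)) * e5

/-- the key relation: `A' v_n = t_n v_{n+1}` -/
lemma A'_v (n : ℤ) :
    ((φ.lam * φ.kap) • (Phi φ.qC * A * Phi φ.qC)) (φ.v n) = (tw n : ℂ) • φ.v (n + 1) := by
  have h1 := A_half (φ.isDer_hC n)
  have h2 : φ.hC n * (((n : ℂ) + 1 / 2) • φ.P - (1 / 2 : ℂ) • 1) + (1 / 2 : ℂ) • φ.hC n =
      ((n : ℂ) + 1 / 2) • ((φ.lam * φ.kap) • (φ.qC * (φ.pull (zp n) * φ.gC))) := by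
    have h3 : φ.hC n * φ.P = (φ.lam * φ.kap) • (φ.qC * (φ.pull (zp n) * φ.gC)) := by
      unfold hC P
      have h4 := φ.pull_g
      have h5 : zp (-1) * zp 1 = 1 := by rw [← zp_add]; simp [zp_zero]
      have h6 := φ.qC_inv
      rw [zp_add, pull_mul]
      set w := (1 - conj φ.a • zp 1) with hw
      calc zp (-1) * (w * (φ.pull (zp n) * φ.pull (zp 1) * φ.gC)) * (φ.gC * φ.gC)
          = (zp (-1) * (w * (φ.pull (zp n) * φ.gC))) * (φ.pull (zp 1) * (φ.gC * φ.gC)) := by ring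
        _ = (φ.lam * φ.kap) • ((zp (-1) * zp 1) * (w * φ.qC) *
            (φ.qC * (φ.pull (zp n) * φ.gC))) := by
          rw [h4, mul_smul_comm]; congr 1; ring
        _ = _ := by rw [h5, h6, one_mul, one_mul]
    rw [mul_sub, mul_smul_comm, h3, mul_smul_comm, mul_one]
    simp
  rw [h2, map_smul] at h1
  have h7 : Phi (zp 1 * φ.hC n) (e 0) = Phi (1 - conj φ.a • zp 1) (φ.v (n + 1)) := by
    unfold v hC
    rw [← mul_apply_eq_comp, ← map_mul]
    congr 2
    have h5 : zp 1 * zp (-1) = 1 := by rw [← zp_add]; simp [zp_zero]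
    rw [← mul_assoc, h5, one_mul]
  rw [h7] at h1
  have h8 : Phi φ.qC (Phi (1 - conj φ.a • zp 1) (φ.v (n + 1))) = φ.v (n + 1) := by
    rw [← mul_apply_eq_comp, ← map_mul, mul_comm, φ.qC_inv, map_one]; rfl
  have h9 : Phi ((φ.lam * φ.kap) • (φ.qC * (φ.pull (zp n) * φ.gC))) (e 0) =
      (φ.lam * φ.kap) • Phi φ.qC (φ.v n) := by
    unfold v
    rw [map_smul, map_mul, smul_apply, mul_apply_eq_comp]
  rw [smul_apply, h9, map_smul] at h1
  have h10 := twC_mul n
  have h11 : Phi φ.qC (A ((φ.lam * φ.kap) • Phi φ.qC (φ.v n))) = (tw n : ℂ) • φ.v (n + 1) := by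
    set y := A ((φ.lam * φ.kap) • Phi φ.qC (φ.v n)) with hy
    rw [← h8, ← h1, map_smul (Phi φ.qC), smul_smul, h10, one_smul]
  rw [map_smul, map_smul] at h11
  rw [smul_apply, mul_apply_eq_comp, mul_apply_eq_comp]
  exact h11

/-- the operator `A'` -/
noncomputable def A' : E →L[ℂ] E := (φ.lam * φ.kap) • (Phi φ.qC * A * Phi φ.qC)

lemma rho_A : φ.rho * A = φ.A' * φ.rho := by
  apply ext_e
  intro n
  rw [mul_apply_eq_comp, mul_apply_eq_comp, A_e, map_smul, rho_e, rho_e]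
  exact (φ.A'_v n).symm

lemma isDer_u_ell : IsDer ellC (Phi (φ.pull (zp 1))) φ.A' := by
  have h := φ.isDer_u ellC_lip
  rw [dsh_one] at h
  exact h

end Mob

end MPaf71ff

end

section

/-!
The Schur test for the matrix `|ell m - ell n| / |m - n|`.
-/

open scoped ComplexConjugate ENNReal Topology
open Filter

namespace MPaf71ff

/-- Schur weights -/
noncomputable def cs : ℕ → ℝ
  | 0 => 1
  | n + 1 => cs n * (((n : ℝ) + 1 / 2) / ((n : ℝ) + 1))

lemma cs_succ (n : ℕ) : cs (n + 1) = cs n * (((n : ℝ) + 1 / 2) / ((n : ℝ) + 1)) := rfl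

lemma cs_pos (n : ℕ) : 0 < cs n := by
  induction n with
  | zero => simp [cs]
  | succ n ih => rw [cs_succ]; positivity

lemma cs_sum (N : ℕ) : ∑ n ∈ Finset.range N, cs n / ((n : ℝ) + 1 / 2) ≤ 4 := by
  have h : ∑ n ∈ Finset.range N, cs n / ((n : ℝ) + 1 / 2) ≤ 4 * (cs 0 - cs N) := by
    induction N with
    | zero => simp
    | succ N ih =>
      rw [Finset.sum_range_succ]
      have h1 : cs N / ((N : ℝ) + 1 / 2) ≤ 4 * (cs N - cs (N + 1)) := by
        rw [cs_succ]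
        have h2 := cs_pos N
        have h3 : cs N - cs N * (((N : ℝ) + 1 / 2) / ((N : ℝ) + 1)) =
            cs N / (2 * ((N : ℝ) + 1)) := by
          field_simp; ring
        rw [h3]
        have h4 : 4 * (cs N / (2 * ((N : ℝ) + 1))) = cs N / (((N : ℝ) + 1) / 2) := by
          field_simp; ring
        rw [h4]
        apply div_le_div_of_nonneg_left h2.le (by positivity)
        have : (0 : ℝ) ≤ N := by positivity
        linarith
      linarith
  have h1 := cs_pos N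
  have h2 : cs 0 = 1 := rfl
  linarith

/-- partial sums of the Hilbert matrix -/
noncomputable def Sl (l N : ℕ) : ℝ := ∑ n ∈ Finset.range N, cs n / ((n : ℝ) + l + 1 / 2)

lemma Sl_tele (l N : ℕ) : ((l : ℝ) + 1 / 2) * Sl l N - ((l : ℝ) + 1) * Sl (l + 1) N =
    N * cs N / ((N : ℝ) + l + 1 / 2) := by
  unfold Sl
  induction N with
  | zero => simp
  | succ N ih =>
    rw [Finset.sum_range_succ, Finset.sum_range_succ, mul_add, mul_add, cs_succ]
    have h1 : ((N : ℝ) + l + 1 / 2) ≠ 0 := by positivity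
    have h2 : ((N : ℝ) + (l + 1 : ℕ) + 1 / 2) ≠ 0 := by positivity
    have h3 : ((N : ℝ) + 1) ≠ 0 := by positivity
    have h4 : (((N + 1 : ℕ) : ℝ) + l + 1 / 2) ≠ 0 := by positivity
    have key : ((l : ℝ) + 1 / 2) * (cs N / ((N : ℝ) + l + 1 / 2)) -
        ((l : ℝ) + 1) * (cs N / ((N : ℝ) + (l + 1 : ℕ) + 1 / 2)) =
        ((N + 1 : ℕ) : ℝ) * (cs N * (((N : ℝ) + 1 / 2) / ((N : ℝ) + 1))) /
          (((N + 1 : ℕ) : ℝ) + l + 1 / 2) - N * cs N / ((N : ℝ) + l + 1 / 2) := by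
      push_cast at h2 h4 ⊢
      have h5 : ((N : ℝ) + 1 + l + 1 / 2) = ((N : ℝ) + (l + 1) + 1 / 2) := by ring
      rw [h5]
      field_simp
      ring
    linarith

lemma Sl_le (l N : ℕ) : Sl l N ≤ 4 * cs l := by
  induction l with
  | zero =>
    have h := cs_sum N
    unfold Sl
    have h2 : cs 0 = 1 := rfl
    simp only [Nat.cast_zero, add_zero, h2, mul_one]
    exact h
  | succ l ih =>
    have h := Sl_tele l N
    have h1 : 0 ≤ N * cs N / ((N : ℝ) + l + 1 / 2) := by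
      have := cs_pos N
      positivity
    have h2 : ((l : ℝ) + 1) * Sl (l + 1) N ≤ ((l : ℝ) + 1 / 2) * (4 * cs l) := by
      have : ((l : ℝ) + 1 / 2) * Sl l N ≤ ((l : ℝ) + 1 / 2) * (4 * cs l) := by gcongr
      linarith
    rw [cs_succ]
    have h3 : 4 * (cs l * (((l : ℝ) + 1 / 2) / ((l : ℝ) + 1))) =
        (((l : ℝ) + 1 / 2) * (4 * cs l)) / ((l : ℝ) + 1) := by ring
    rw [h3, le_div_iff₀ (by positivity)]
    linarith

/-- kernel on the naturals -/
noncomputable def kn (i j : ℕ) : ℝ := |hh i - hh j| / |(i : ℝ) - j|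

lemma kn_nonneg (i j : ℕ) : 0 ≤ kn i j := by unfold kn; positivity

lemma kn_symm (i j : ℕ) : kn i j = kn j i := by
  unfold kn; rw [abs_sub_comm, abs_sub_comm (i : ℝ)]

lemma hh_add (L i : ℕ) : hh (L + i) = hh i + ∑ l ∈ Finset.range L, 1 / ((l : ℝ) + i + 1 / 2) := by
  induction L with
  | zero => simp
  | succ L ih =>
    rw [show L + 1 + i = (L + i) + 1 by ring, hh_succ, ih, Finset.sum_range_succ]
    push_cast; ring

lemma hh_diff (j d : ℕ) : hh (j + d) - hh j ≤ d / ((j : ℝ) + 1 / 2) ∧ 0 ≤ hh (j + d) - hh j := by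
  induction d with
  | zero => simp
  | succ d ih =>
    rw [← add_assoc, hh_succ]
    have h1 : 1 / (((j + d : ℕ) : ℝ) + 1 / 2) ≤ 1 / ((j : ℝ) + 1 / 2) := by
      apply one_div_le_one_div_of_le (by positivity)
      push_cast
      have : (0 : ℝ) ≤ d := by positivity
      linarith
    have h2 : 0 ≤ 1 / (((j + d : ℕ) : ℝ) + 1 / 2) := by positivity
    have h3 : ((d + 1 : ℕ) : ℝ) / ((j : ℝ) + 1 / 2) = d / ((j : ℝ) + 1 / 2) + 1 / ((j : ℝ) + 1 / 2) := by
      push_cast; ring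
    rw [h3]
    constructor <;> linarith [ih.1, ih.2]

lemma kn_le (i j L : ℕ) :
    kn i j ≤ ∑ l ∈ Finset.range L, (1 / ((l : ℝ) + i + 1 / 2)) * (1 / ((l : ℝ) + j + 1 / 2)) +
      1 / ((L : ℝ) + 1 / 2) := by
  have main : ∀ j d : ℕ, 0 < d → kn (j + d) j ≤
      ∑ l ∈ Finset.range L, (1 / ((l : ℝ) + (j + d : ℕ) + 1 / 2)) * (1 / ((l : ℝ) + j + 1 / 2)) +
      1 / ((L : ℝ) + 1 / 2) := by
    intro j d hd
    have hd' : (0 : ℝ) < d := by exact_mod_cast hd
    have h1 := (hh_diff j d).2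
    unfold kn
    rw [abs_of_nonneg h1]
    have h2 : |(((j + d : ℕ) : ℝ)) - j| = d := by
      push_cast; rw [add_sub_cancel_left]; exact abs_of_pos hd'
    rw [h2, div_le_iff₀ hd']
    have h3 := hh_add L (j + d)
    have h4 := hh_add L j
    have h5 := (hh_diff (L + j) d).1
    rw [← add_assoc] at h3
    have h6 : ∑ l ∈ Finset.range L, 1 / ((l : ℝ) + j + 1 / 2) -
        ∑ l ∈ Finset.range L, 1 / ((l : ℝ) + (j + d : ℕ) + 1 / 2) =
        (∑ l ∈ Finset.range L, (1 / ((l : ℝ) + (j + d : ℕ) + 1 / 2)) *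
          (1 / ((l : ℝ) + j + 1 / 2))) * d := by
      rw [← Finset.sum_sub_distrib, Finset.sum_mul]
      apply Finset.sum_congr rfl
      intro l _
      have h7 : ((l : ℝ) + (j + d : ℕ) + 1 / 2) ≠ 0 := by positivity
      have h8 : ((l : ℝ) + j + 1 / 2) ≠ 0 := by positivity
      field_simp
      push_cast; ring
    have h9 : (d : ℝ) / (((L + j : ℕ) : ℝ) + 1 / 2) ≤ 1 / ((L : ℝ) + 1 / 2) * d := by
      rw [div_mul_eq_mul_div, one_mul]
      apply div_le_div_of_nonneg_left hd'.le (by positivity)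
      push_cast
      have : (0 : ℝ) ≤ j := by positivity
      linarith
    linarith
  rcases lt_trichotomy i j with h | h | h
  · obtain ⟨d, rfl⟩ := Nat.exists_eq_add_of_lt h
    have := main i (d + 1) (by omega)
    rw [kn_symm, add_assoc]
    refine this.trans (le_of_eq ?_)
    congr 1
    exact Finset.sum_congr rfl (fun l _ => mul_comm _ _)
  · subst h
    have h0 : kn i i = 0 := by simp [kn]
    rw [h0]
    positivity
  · obtain ⟨d, rfl⟩ := Nat.exists_eq_add_of_lt h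
    have := main j (d + 1) (by omega)
    rw [add_assoc]
    exact this

lemma kn_schur (i N : ℕ) : ∑ j ∈ Finset.range N, kn i j * cs j ≤ 16 * cs i := by
  have h1 : ∀ L : ℕ, ∑ j ∈ Finset.range N, kn i j * cs j ≤
      16 * cs i + (∑ j ∈ Finset.range N, cs j) * (1 / ((L : ℝ) + 1 / 2)) := by
    intro L
    have h2 : ∑ j ∈ Finset.range N, kn i j * cs j ≤ ∑ j ∈ Finset.range N,
        (∑ l ∈ Finset.range L, (1 / ((l : ℝ) + i + 1 / 2)) * (1 / ((l : ℝ) + j + 1 / 2)) +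
          1 / ((L : ℝ) + 1 / 2)) * cs j := by
      apply Finset.sum_le_sum
      intro j _
      exact mul_le_mul_of_nonneg_right (kn_le i j L) (cs_pos j).le
    refine h2.trans ?_
    simp only [add_mul, Finset.sum_add_distrib]
    have h3 : ∑ j ∈ Finset.range N, (∑ l ∈ Finset.range L, (1 / ((l : ℝ) + i + 1 / 2)) *
        (1 / ((l : ℝ) + j + 1 / 2))) * cs j ≤ 16 * cs i := by
      have e1 : ∑ j ∈ Finset.range N, (∑ l ∈ Finset.range L, (1 / ((l : ℝ) + i + 1 / 2)) *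
          (1 / ((l : ℝ) + j + 1 / 2))) * cs j =
          ∑ l ∈ Finset.range L, (1 / ((l : ℝ) + i + 1 / 2)) * Sl l N := by
        simp only [Finset.sum_mul]
        rw [Finset.sum_comm]
        apply Finset.sum_congr rfl
        intro l _
        unfold Sl
        rw [Finset.mul_sum]
        apply Finset.sum_congr rfl
        intro j _
        rw [show (j : ℝ) + l + 1 / 2 = (l : ℝ) + j + 1 / 2 by ring]
        ring
      rw [e1]
      calc ∑ l ∈ Finset.range L, (1 / ((l : ℝ) + i + 1 / 2)) * Sl l N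
          ≤ ∑ l ∈ Finset.range L, (1 / ((l : ℝ) + i + 1 / 2)) * (4 * cs l) := by
            apply Finset.sum_le_sum
            intro l _
            have := Sl_le l N
            gcongr
        _ = 4 * Sl i L := by
            unfold Sl
            rw [Finset.mul_sum]
            apply Finset.sum_congr rfl
            intro l _
            ring
        _ ≤ 4 * (4 * cs i) := by
            have := Sl_le i L
            gcongr
        _ = 16 * cs i := by ring
    have h4 : ∑ j ∈ Finset.range N, 1 / ((L : ℝ) + 1 / 2) * cs j =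
        (∑ j ∈ Finset.range N, cs j) * (1 / ((L : ℝ) + 1 / 2)) := by
      rw [Finset.sum_mul]
      apply Finset.sum_congr rfl
      intro j _
      ring
    linarith
  have h5 : Tendsto (fun L : ℕ => 16 * cs i + (∑ j ∈ Finset.range N, cs j) *
      (1 / ((L : ℝ) + 1 / 2))) atTop (𝓝 (16 * cs i + (∑ j ∈ Finset.range N, cs j) * 0)) := by
    refine Tendsto.const_add _ (Tendsto.const_mul _ ?_)
    have h6 : Tendsto (fun L : ℕ => ((L : ℝ) + 1 / 2)) atTop atTop :=
      tendsto_atTop_add_const_right _ _ tendsto_natCast_atTop_atTop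
    exact h6.inv_tendsto_atTop.congr (fun L => by simp)
  rw [mul_zero, add_zero] at h5
  exact ge_of_tendsto' h5 h1

/-- kernel on the integers -/
noncomputable def kz (m n : ℤ) : ℝ := |ell m - ell n| / |(m : ℝ) - n|

lemma kz_le (m n : ℤ) : kz m n ≤ kn m.natAbs n.natAbs := by
  unfold kz kn ell
  by_cases h : m.natAbs = n.natAbs
  · rw [h]; simp
  · have h1 : |((m.natAbs : ℝ)) - (n.natAbs : ℝ)| ≤ |(m : ℝ) - n| := by
      rw [Nat.cast_natAbs, Nat.cast_natAbs]
      push_cast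
      exact abs_abs_sub_abs_le_abs_sub _ _
    have h2 : 0 < |((m.natAbs : ℝ)) - (n.natAbs : ℝ)| := by
      apply abs_pos.mpr
      intro h3
      apply h
      exact_mod_cast sub_eq_zero.mp h3
    exact div_le_div_of_nonneg_left (abs_nonneg _) h2 h1

lemma kz_symm (m n : ℤ) : kz m n = kz n m := by
  unfold kz; rw [abs_sub_comm, abs_sub_comm (m : ℝ)]

lemma kz_nonneg (m n : ℤ) : 0 ≤ kz m n := by unfold kz; positivity

lemma kz_schur (m : ℤ) (s : Finset ℤ) :
    ∑ n ∈ s, kz m n * cs n.natAbs ≤ 32 * cs m.natAbs := by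
  classical
  obtain ⟨N, hN⟩ : ∃ N : ℕ, ∀ n ∈ s, n.natAbs < N := by
    refine ⟨(s.sup Int.natAbs) + 1, fun n hn => ?_⟩
    exact Nat.lt_succ_of_le (Finset.le_sup hn)
  set f : ℤ → ℝ := fun n => kn m.natAbs n.natAbs * cs n.natAbs with hf
  have hf0 : ∀ n, 0 ≤ f n := fun n => mul_nonneg (kn_nonneg _ _) (cs_pos _).le
  set I₁ := (Finset.range N).image (fun j : ℕ => (j : ℤ)) with hI₁
  set I₂ := (Finset.range N).image (fun j : ℕ => -(j : ℤ)) with hI₂
  have hsub : s ⊆ I₁ ∪ I₂ := by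
    intro n hn
    have := hN n hn
    rw [Finset.mem_union, hI₁, hI₂, Finset.mem_image, Finset.mem_image]
    rcases Int.eq_nat_or_neg n with ⟨k, rfl | rfl⟩
    · left; exact ⟨k, by simpa using this, rfl⟩
    · right; exact ⟨k, by simpa using this, rfl⟩
  have h1 : ∑ n ∈ s, kz m n * cs n.natAbs ≤ ∑ n ∈ s, f n := by
    apply Finset.sum_le_sum
    intro n _
    exact mul_le_mul_of_nonneg_right (kz_le m n) (cs_pos _).le
  have h2 : ∑ n ∈ s, f n ≤ ∑ n ∈ I₁ ∪ I₂, f n :=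
    Finset.sum_le_sum_of_subset_of_nonneg hsub (fun n _ _ => hf0 n)
  have h3 : ∑ n ∈ I₁ ∪ I₂, f n ≤ ∑ n ∈ I₁, f n + ∑ n ∈ I₂, f n := by
    rw [← Finset.sum_union_inter]
    have : 0 ≤ ∑ n ∈ I₁ ∩ I₂, f n := Finset.sum_nonneg (fun n _ => hf0 n)
    linarith
  have h4 : ∑ n ∈ I₁, f n = ∑ j ∈ Finset.range N, kn m.natAbs j * cs j := by
    rw [hI₁, Finset.sum_image (fun a _ b _ hab => by simpa using hab)]
    simp [hf]
  have h5 : ∑ n ∈ I₂, f n = ∑ j ∈ Finset.range N, kn m.natAbs j * cs j := by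
    rw [hI₂, Finset.sum_image (fun a _ b _ hab => by simpa using hab)]
    simp [hf]
  have h6 := kn_schur m.natAbs N
  linarith

/-- Schur test -/
lemma schur (F : E →L[ℂ] E) (C : ℝ) (hC : 0 ≤ C) (K : ℤ → ℤ → ℝ) (hK : ∀ m n, 0 ≤ K m n)
    (hsymm : ∀ m n, K m n = K n m) (hF : ∀ m n, ‖(F (e n) : ℤ → ℂ) m‖ ≤ K m n)
    (p : ℤ → ℝ) (hp : ∀ m, 0 < p m) (hS : ∀ m (s : Finset ℤ), ∑ n ∈ s, K m n * p n ≤ C * p m) :
    ‖F‖ ≤ C := by
  refine ContinuousLinearMap.opNorm_le_bound _ hC (fun x => ?_)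
  -- finite truncations
  have key : ∀ t : Finset ℤ, ‖F (∑ k ∈ t, (x : ℤ → ℂ) k • e k)‖ ≤ C * ‖x‖ := by
    intro t
    refine lp.norm_le_of_forall_sum_le (by norm_num) (by positivity) (fun s => ?_)
    simp only [ENNReal.toReal_ofNat, Real.rpow_ofNat]
    have h1 : ∀ m, ((F (∑ k ∈ t, (x : ℤ → ℂ) k • e k) : E) : ℤ → ℂ) m =
        ∑ k ∈ t, (x : ℤ → ℂ) k * (F (e k) : ℤ → ℂ) m := by
      intro m
      rw [map_sum, ← co_apply, map_sum]
      apply Finset.sum_congr rfl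
      intro k _
      rw [map_smul, map_smul, co_apply, smul_eq_mul]
    have h2 : ∀ m, ‖((F (∑ k ∈ t, (x : ℤ → ℂ) k • e k) : E) : ℤ → ℂ) m‖ ^ 2 ≤
        C * ∑ k ∈ t, K m k * p m * (‖(x : ℤ → ℂ) k‖ ^ 2 / p k) := by
      intro m
      rw [h1 m]
      have h3 : ‖∑ k ∈ t, (x : ℤ → ℂ) k * (F (e k) : ℤ → ℂ) m‖ ≤
          ∑ k ∈ t, ‖(x : ℤ → ℂ) k‖ * K m k := by
        refine (norm_sum_le _ _).trans (Finset.sum_le_sum fun k _ => ?_)
        rw [norm_mul]
        exact mul_le_mul_of_nonneg_left (hF m k) (norm_nonneg _)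
      have h4 : (∑ k ∈ t, ‖(x : ℤ → ℂ) k‖ * K m k) ^ 2 ≤
          (∑ k ∈ t, K m k * p k) * (∑ k ∈ t, K m k * (‖(x : ℤ → ℂ) k‖ ^ 2 / p k)) := by
        apply Finset.sum_sq_le_sum_mul_sum_of_sq_le_mul
        · intro k _; exact mul_nonneg (hK m k) (hp k).le
        · intro k _
          have := hp k
          have := hK m k
          positivity
        · intro k _
          have := (hp k).ne'
          apply le_of_eq
          field_simp
      have h5 : 0 ≤ ∑ k ∈ t, K m k * (‖(x : ℤ → ℂ) k‖ ^ 2 / p k) := by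
        apply Finset.sum_nonneg
        intro k _
        have := hp k
        have := hK m k
        positivity
      calc ‖∑ k ∈ t, (x : ℤ → ℂ) k * (F (e k) : ℤ → ℂ) m‖ ^ 2
          ≤ (∑ k ∈ t, ‖(x : ℤ → ℂ) k‖ * K m k) ^ 2 := by gcongr
        _ ≤ (∑ k ∈ t, K m k * p k) * (∑ k ∈ t, K m k * (‖(x : ℤ → ℂ) k‖ ^ 2 / p k)) := h4
        _ ≤ (C * p m) * (∑ k ∈ t, K m k * (‖(x : ℤ → ℂ) k‖ ^ 2 / p k)) :=
          mul_le_mul_of_nonneg_right (hS m t) h5
        _ = _ := by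
          rw [mul_assoc, Finset.mul_sum]
          congr 1
          apply Finset.sum_congr rfl
          intro k _
          ring
    calc ∑ m ∈ s, ‖((F (∑ k ∈ t, (x : ℤ → ℂ) k • e k) : E) : ℤ → ℂ) m‖ ^ 2
        ≤ ∑ m ∈ s, C * ∑ k ∈ t, K m k * p m * (‖(x : ℤ → ℂ) k‖ ^ 2 / p k) :=
          Finset.sum_le_sum fun m _ => h2 m
      _ = C * ∑ k ∈ t, (∑ m ∈ s, K k m * p m) * (‖(x : ℤ → ℂ) k‖ ^ 2 / p k) := by
          rw [← Finset.mul_sum, Finset.sum_comm]
          congr 1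
          apply Finset.sum_congr rfl
          intro k _
          rw [Finset.sum_mul]
          apply Finset.sum_congr rfl
          intro m _
          rw [hsymm m k]
      _ ≤ C * ∑ k ∈ t, (C * p k) * (‖(x : ℤ → ℂ) k‖ ^ 2 / p k) := by
          apply mul_le_mul_of_nonneg_left _ hC
          apply Finset.sum_le_sum
          intro k _
          have := hp k
          exact mul_le_mul_of_nonneg_right (hS k s) (by positivity)
      _ = C ^ 2 * ∑ k ∈ t, ‖(x : ℤ → ℂ) k‖ ^ 2 := by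
          rw [sq, mul_assoc]
          congr 1
          rw [Finset.mul_sum]
          apply Finset.sum_congr rfl
          intro k _
          have := (hp k).ne'
          field_simp
      _ ≤ C ^ 2 * ‖x‖ ^ 2 := by
          have := sum_le_hasSum t (fun i _ => by positivity) (hasSum_sq x)
          gcongr
      _ = (C * ‖x‖) ^ 2 := by ring
  have h1 : Tendsto (fun t : Finset ℤ => ‖F (∑ k ∈ t, (x : ℤ → ℂ) k • e k)‖) atTop (𝓝 ‖F x‖) :=
    ((F.continuous.tendsto _).comp (hasSum_e x)).norm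
  exact le_of_tendsto' h1 key

end MPaf71ff

end

section

/-!
The cocycle `delta` and its properties.
-/

open scoped ComplexConjugate ENNReal Topology
open Filter

namespace MPaf71ff

namespace Mob

variable (φ ψ χ : Mob)

lemma fc_MC_bound {k : ℤ} (hk : k ≠ 0) : ‖fc φ.MC k‖ ≤ 1 / |(k : ℝ)| := by
  have h1 : HasSum (fun j : ℕ => co k ((-(((conj φ.a) ^ j / j) • sh j +
      (φ.a ^ j / j) • sh (-j)) : E →L[ℂ] E) (e 0)))
      (co k ((Phi φ.MC + (Real.log φ.kap : ℂ) • (1 : E →L[ℂ] E)) (e 0))) :=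
    (φ.Phi_MC_hasSum.mapL (ContinuousLinearMap.apply ℂ E (e 0))).mapL (co k)
  have h2 : ∀ j : ℕ, co k ((-(((conj φ.a) ^ j / j) • sh j +
      (φ.a ^ j / j) • sh (-j)) : E →L[ℂ] E) (e 0)) =
      -((conj φ.a) ^ j / j * (if k = j then 1 else 0) +
        φ.a ^ j / j * (if k = -j then 1 else 0)) := by
    intro j
    rw [co_apply, neg_apply, co_neg, add_apply, co_add, smul_apply, smul_apply, co_smul, co_smul,
      sh_e, sh_e, e_apply, e_apply, zero_add, zero_add]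
  have h3 : co k ((Phi φ.MC + (Real.log φ.kap : ℂ) • (1 : E →L[ℂ] E)) (e 0)) = fc φ.MC k := by
    rw [co_apply, add_apply, co_add, smul_apply, co_smul, one_apply_eq_self, e_ne hk, mul_zero,
      add_zero]
    rfl
  rw [h3] at h1
  simp only [h2] at h1
  have h4 : HasSum (fun j : ℕ => -((conj φ.a) ^ j / j * (if k = j then 1 else 0) +
        φ.a ^ j / j * (if k = -j then 1 else 0)))
        (-((conj φ.a) ^ k.natAbs / k.natAbs * (if k = k.natAbs then 1 else 0) +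
        φ.a ^ k.natAbs / k.natAbs * (if k = -k.natAbs then 1 else 0))) := by
    apply hasSum_single
    intro j hj
    have e1 : ¬ (k = j) := by omega
    have e2 : ¬ (k = -j) := by omega
    simp [e1, e2]
  rw [h1.unique h4, norm_neg]
  have h5 : ∀ c : ℂ, ‖c‖ = ‖φ.a‖ → ‖c ^ k.natAbs / (k.natAbs : ℂ)‖ ≤ 1 / |(k : ℝ)| := by
    intro c hc
    rw [norm_div, norm_pow, hc, Complex.norm_natCast, Nat.cast_natAbs, Int.cast_abs]
    have : 0 < |(k : ℝ)| := abs_pos.mpr (by exact_mod_cast hk)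
    gcongr
    exact pow_le_one₀ (norm_nonneg _) φ.norm_a.le
  rcases lt_or_gt_of_ne hk with h | h
  · have e1 : ¬ (k = k.natAbs) := by omega
    have e2 : (k = -(k.natAbs : ℤ)) := by omega
    rw [if_neg e1, if_pos e2, mul_zero, zero_add, mul_one]
    exact h5 _ rfl
  · have e1 : (k = k.natAbs) := by omega
    have e2 : ¬ (k = -(k.natAbs : ℤ)) := by omega
    rw [if_pos e1, if_neg e2, mul_zero, add_zero, mul_one]
    exact h5 _ (RCLike.norm_conj _)

lemma dM_norm : ‖φ.dM ellC_lip‖ ≤ 32 := by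
  refine schur _ 32 (by norm_num) kz kz_nonneg kz_symm (fun m n => ?_)
    (fun m => cs m.natAbs) (fun m => cs_pos _) kz_schur
  rw [φ.dM_isDer ellC_lip m n, Phi_entry, norm_mul]
  have h1 : ‖ellC m - ellC n‖ = |ell m - ell n| := by
    unfold ellC
    rw [← Complex.ofReal_sub, Complex.norm_real, Real.norm_eq_abs]
  rw [h1]
  unfold kz
  by_cases h : m = n
  · subst h; simp
  · have h2 := φ.fc_MC_bound (show m - n ≠ 0 by omega)
    push_cast at h2
    rw [div_eq_mul_one_div]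
    gcongr

lemma star_rho_mul : star φ.rho * φ.rho = 1 := by
  rw [ContinuousLinearMap.star_eq_adjoint]
  exact (ContinuousLinearMap.norm_map_iff_adjoint_comp_self φ.rho).mp φ.rho_norm_apply

lemma star_rho : star φ.rho = φ.inv.rho := by
  calc star φ.rho = star φ.rho * (φ.rho * φ.inv.rho) := by rw [rho_mul_inv, mul_one]
    _ = φ.inv.rho := by rw [← mul_assoc, star_rho_mul, one_mul]

/-- conjugation by `rho` -/
noncomputable def cj (F : E →L[ℂ] E) : E →L[ℂ] E := φ.rho * F * star φ.rho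

lemma cj_mul (F G : E →L[ℂ] E) : φ.cj (F * G) = φ.cj F * φ.cj G := by
  unfold cj
  calc φ.rho * (F * G) * star φ.rho = φ.rho * F * 1 * G * star φ.rho := by
        simp only [mul_assoc, one_mul]
    _ = _ := by rw [← star_rho_mul φ]; simp only [mul_assoc]

lemma cj_star (F : E →L[ℂ] E) : φ.cj (star F) = star (φ.cj F) := by
  unfold cj
  rw [star_mul, star_mul, star_star, mul_assoc]

lemma cj_add (F G : E →L[ℂ] E) : φ.cj (F + G) = φ.cj F + φ.cj G := by
  unfold cj; rw [mul_add, add_mul]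

lemma cj_smul (c : ℂ) (F : E →L[ℂ] E) : φ.cj (c • F) = c • φ.cj F := by
  unfold cj; rw [mul_smul_comm, smul_mul_assoc]

lemma cj_neg (F : E →L[ℂ] E) : φ.cj (-F) = -φ.cj F := by
  unfold cj; rw [mul_neg, neg_mul]

lemma cj_one : φ.cj 1 = 1 := by
  unfold cj; rw [mul_one, star_rho, rho_mul_inv]

lemma cj_cont : Continuous φ.cj := by
  unfold cj
  exact (continuous_const.mul continuous_id).mul continuous_const

lemma cj_Phi (f : C(Tc, ℂ)) : φ.cj (Phi f) = Phi (φ.pull f) := by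
  unfold cj
  rw [rho_Phi, mul_assoc, star_rho, rho_mul_inv, mul_one]

lemma cj_A : φ.cj A = φ.A' := by
  unfold cj
  rw [rho_A, mul_assoc, star_rho, rho_mul_inv, mul_one]

lemma cj_isDer (k : ℤ) : IsDer ellC (φ.cj (sh k)) (φ.cj (dsh ellC_lip k)) := by
  have hnat : ∀ n : ℕ, IsDer ellC (φ.cj (sh n)) (φ.cj (dsh ellC_lip n)) := by
    intro n
    induction n with
    | zero =>
      have h0 : dsh ellC_lip ((0 : ℕ) : ℤ) = 0 := by
        refine (dsh_isDer ellC_lip _).unique ?_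
        have : sh ((0 : ℕ) : ℤ) = 1 := sh_zero
        rw [this]
        exact IsDer.one _
      have h1 : sh ((0 : ℕ) : ℤ) = 1 := sh_zero
      rw [h0, h1, cj_one]
      have : φ.cj 0 = 0 := by unfold cj; simp
      rw [this]
      exact IsDer.one _
    | succ n ih =>
      have h1 : IsDer ellC (φ.cj (sh 1)) (φ.cj A) := by
        rw [← Phi_zp, cj_Phi, cj_A]
        exact φ.isDer_u_ell
      have h2 := ih.mul h1
      rw [← cj_mul, ← cj_mul, ← cj_mul, ← cj_add, sh_mul] at h2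
      have h3 : dsh ellC_lip ((n + 1 : ℕ) : ℤ) = dsh ellC_lip n * sh 1 + sh n * A := by
        refine (dsh_isDer ellC_lip _).unique ?_
        have := (dsh_isDer ellC_lip n).mul A_isDer
        rwa [sh_mul] at this
      rw [h3]
      exact_mod_cast h2
  rcases Int.eq_nat_or_neg k with ⟨n, rfl | rfl⟩
  · exact hnat n
  · have h1 := (hnat n).star ellC_real
    have h2 := ((dsh_isDer ellC_lip n).star ellC_real)
    rw [star_sh] at h2
    have h3 := h2.unique (dsh_isDer ellC_lip (-n))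
    rw [← h3, cj_neg, cj_star, ← star_sh, cj_star]
    exact h1

lemma cj_dM (φ ψ : Mob) :
    IsDer ellC (Phi (φ.pull ψ.MC)) (φ.cj (ψ.dM ellC_lip)) := by
  have h1 := ψ.Phi_MC_hasSum.map (AddMonoidHom.mk' φ.cj φ.cj_add) φ.cj_cont
  have h2 := (ψ.dM_hasSum ellC_lip).map (AddMonoidHom.mk' φ.cj φ.cj_add) φ.cj_cont
  have h3 := IsDer.hasSum (L := ellC) h1 h2 (fun k => by
    simp only [Function.comp, AddMonoidHom.mk'_apply, cj_neg, cj_add, cj_smul]
    have h3 := (((φ.cj_isDer k).smul ((conj ψ.a) ^ k / k)).add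
      ((φ.cj_isDer (-k)).smul (ψ.a ^ k / k))).smul (-1)
    rwa [neg_one_smul, neg_one_smul] at h3)
  simp only [AddMonoidHom.mk'_apply, cj_add, cj_smul, cj_one, cj_Phi] at h3
  have h4 := h3.add ((IsDer.one ellC).smul (-(Real.log ψ.kap : ℂ)))
  simpa using h4

/-- the cocycle -/
noncomputable def delta : E →L[ℂ] E := (1 / 2 : ℂ) • φ.dM ellC_lip

lemma delta_norm : ‖φ.delta‖ ≤ 16 := by
  unfold delta
  rw [norm_smul]
  have := φ.dM_norm
  norm_num
  linarith

variable {φ ψ χ}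

lemma IsComp.delta (h : IsComp χ ψ φ) : χ.delta = φ.delta + φ.cj ψ.delta := by
  have h1 := χ.dM_isDer ellC_lip
  have h2 := (cj_dM φ ψ).add (φ.dM_isDer ellC_lip)
  rw [← map_add, ← h.MC] at h2
  have h3 := h1.unique h2
  unfold Mob.delta
  rw [h3, cj_smul, smul_add, add_comm]

end Mob

end MPaf71ff

end

section

/-!
The covariance identities at orders zero, one and two.
-/

open scoped ComplexConjugate ENNReal Topology
open Filter

namespace MPaf71ff

/-- the second order weight operator -/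
noncomputable def B : E →L[ℂ] E := (1 / 2 : ℂ) • (A * sh (-1) * A)

namespace Mob

variable (φ : Mob)

lemma W_U : (1 - conj φ.a • zp 1) * φ.pull (zp 1) = φ.lam • (zp 1 - φ.a • 1) := by
  rw [pull_zp_one, mul_smul_comm, mul_comm (zp 1 - φ.a • 1), ← mul_assoc, qC_inv, one_mul]

lemma rho_X : φ.rho * sh 1 = Phi (φ.pull (zp 1)) * φ.rho := by
  rw [← rho_Phi, Phi_zp]

lemma rho_Xi : φ.rho * sh (-1) = Phi (φ.pull (zp (-1))) * φ.rho := by
  rw [← rho_Phi, Phi_zp]

lemma W_eq : (1 : E →L[ℂ] E) - conj φ.a • sh 1 = Phi (1 - conj φ.a • zp 1) := by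
  rw [map_sub, map_one, map_smul, Phi_zp]

lemma Xa_eq : φ.lam • (sh 1 - φ.a • (1 : E →L[ℂ] E)) =
    Phi ((1 - conj φ.a • zp 1) * φ.pull (zp 1)) := by
  rw [W_U, map_smul, map_sub, map_smul, Phi_zp, map_one]

lemma W_Q : Phi (1 - conj φ.a • zp 1) * Phi φ.qC = 1 := by
  rw [← map_mul, qC_inv, map_one]

lemma cov0 : (1 - conj φ.a • sh 1) * (φ.rho * sh 1) = φ.lam • ((sh 1 - φ.a • 1) * φ.rho) := by
  rw [← smul_mul_assoc, Xa_eq, W_eq, rho_X, map_mul, mul_assoc]

lemma W_A' : Phi (1 - conj φ.a • zp 1) * φ.A' = (φ.lam * φ.kap) • (A * Phi φ.qC) := by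
  unfold A'
  rw [mul_smul_comm, ← mul_assoc, ← mul_assoc, W_Q, one_mul]

lemma lam_q : φ.lam • (1 : C(Tc, ℂ)) + conj φ.a • φ.pull (zp 1) = (φ.lam * φ.kap) • φ.qC := by
  rw [pull_zp_one, smul_comm (conj φ.a), ← smul_add, mul_smul, ← one_add_q]

lemma cov1 : (1 - conj φ.a • sh 1) * (φ.rho * A) - conj φ.a • (A * (φ.rho * sh 1)) =
    φ.lam • (A * φ.rho) := by
  rw [W_eq, rho_A, rho_X, ← mul_assoc, W_A']
  have h : Phi (φ.lam • (1 : C(Tc, ℂ)) + conj φ.a • φ.pull (zp 1)) =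
      (φ.lam * φ.kap) • Phi φ.qC := by rw [lam_q, map_smul]
  rw [map_add, map_smul, map_smul, map_one] at h
  rw [← mul_smul_comm, ← h, mul_add, add_mul, mul_smul_comm, mul_smul_comm, mul_one,
    smul_mul_assoc, smul_mul_assoc, mul_assoc]
  abel

/-- `[delta, U] = (1/2) [A', M]` -/
lemma delta_U : φ.delta * Phi (φ.pull (zp 1)) - Phi (φ.pull (zp 1)) * φ.delta =
    (1 / 2 : ℂ) • (φ.A' * Phi φ.MC - Phi φ.MC * φ.A') := by
  have h1 := (φ.dM_isDer ellC_lip).mul φ.isDer_u_ell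
  have h2 := φ.isDer_u_ell.mul (φ.dM_isDer ellC_lip)
  rw [Phi_comm] at h1
  have h3 := h1.unique h2
  unfold Mob.delta
  rw [smul_mul_assoc, mul_smul_comm, ← smul_sub]
  congr 1
  rw [sub_eq_sub_iff_add_eq_add, h3]
  

lemma A'_M : φ.A' * Phi φ.MC - Phi φ.MC * φ.A' =
    -((φ.lam * φ.kap) • (Phi φ.qC * A * Phi (zp (-1) * (star φ.qC - φ.qC)) * A * Phi φ.qC)) := by
  have h1 : IsDer idC (Phi φ.MC) (Phi (star φ.qC - φ.qC)) := by
    rw [← φ.dM_id]; exact φ.dM_isDer idC_lip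
  have h2 := comm_A h1
  unfold A'
  have h3 : Phi φ.qC * A * Phi φ.qC * Phi φ.MC = Phi φ.qC * (A * Phi φ.MC) * Phi φ.qC := by
    rw [mul_assoc _ (Phi φ.qC) (Phi φ.MC), Phi_comm]; simp only [mul_assoc]
  have h4 : Phi φ.MC * (Phi φ.qC * A * Phi φ.qC) = Phi φ.qC * (Phi φ.MC * A) * Phi φ.qC := by
    rw [← mul_assoc, ← mul_assoc, Phi_comm]; simp only [mul_assoc]
  rw [smul_mul_assoc, mul_smul_comm, ← smul_sub, ← smul_neg, h3, h4, ← sub_mul, ← mul_sub,
    ← neg_sub, h2, map_mul, Phi_zp]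
  congr 1
  simp only [mul_neg, neg_mul, mul_assoc]

lemma F_zero : -((1 / 2 : ℂ) • (zp (-1) * (star φ.qC - φ.qC))) +
    (1 / 2 : ℂ) • ((φ.lam * φ.kap) • (φ.qC * φ.pull (zp (-1)) * φ.qC)) - conj φ.a • φ.qC -
    (1 / 2 : ℂ) • zp (-1) = 0 := by
  have h1 : (φ.lam * φ.kap) • (φ.qC * φ.pull (zp (-1)) * φ.qC) = zp (-1) * φ.P := by
    have h2 := φ.pull_g
    have h3 : φ.pull (zp (-1)) * φ.pull (zp 1) = 1 := by
      rw [← pull_mul, ← zp_add]; simp [zp_zero, pull_one]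
    have h5 : zp (-1) * zp 1 = 1 := by rw [← zp_add]; simp [zp_zero]
    have h4 : zp (-1) * (φ.pull (zp (-1)) * (φ.pull (zp 1) * (φ.gC * φ.gC))) =
        zp (-1) * (φ.pull (zp (-1)) * ((φ.lam * φ.kap) • (zp 1 * (φ.qC * φ.qC)))) := by rw [h2]
    rw [← mul_assoc (φ.pull (zp (-1))), h3, one_mul, mul_smul_comm, mul_smul_comm] at h4
    unfold P
    rw [h4]
    congr 1
    calc φ.qC * φ.pull (zp (-1)) * φ.qC = (zp (-1) * zp 1) * (φ.qC * φ.pull (zp (-1)) * φ.qC) := by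
          rw [h5, one_mul]
      _ = _ := by ring
  rw [h1, P_eq]
  have h6 : conj φ.a • φ.qC = zp (-1) * (φ.qC - 1) := by
    have h7 := φ.qC_inv
    rw [sub_mul, one_mul, smul_mul_assoc] at h7
    have h8 : φ.qC - 1 = conj φ.a • (zp 1 * φ.qC) := by
      rw [← h7]; abel
    have h5 : zp (-1) * zp 1 = 1 := by rw [← zp_add]; simp [zp_zero]
    rw [h8, mul_smul_comm, ← mul_assoc, h5, one_mul]
  rw [h6]
  ext z
  simp only [ContinuousMap.sub_apply, ContinuousMap.add_apply, ContinuousMap.neg_apply,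
    ContinuousMap.smul_apply, ContinuousMap.mul_apply, ContinuousMap.one_apply, smul_eq_mul,
    ContinuousMap.zero_apply]
  ring

lemma rho_B : φ.rho * B =
    ((1 / 2 : ℂ) • (φ.A' * Phi (φ.pull (zp (-1))) * φ.A')) * φ.rho := by
  unfold B
  rw [mul_smul_comm, smul_mul_assoc]
  congr 1
  rw [← mul_assoc, ← mul_assoc, rho_A, mul_assoc φ.A', rho_Xi, ← mul_assoc, mul_assoc _ φ.rho A,
    rho_A, mul_assoc]
  simp only [mul_assoc]

/-- second order identity without `rho` -/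
lemma cov2' : Phi (1 - conj φ.a • zp 1) *
      ((1 / 2 : ℂ) • (φ.A' * Phi (φ.pull (zp (-1))) * φ.A') + φ.delta * Phi (φ.pull (zp 1)))
    - conj φ.a • (A * φ.A') - conj φ.a • (B * Phi (φ.pull (zp 1))) =
    Phi ((1 - conj φ.a • zp 1) * φ.pull (zp 1)) * φ.delta + φ.lam • B := by
  set W := Phi (1 - conj φ.a • zp 1) with hW
  set U := Phi (φ.pull (zp 1)) with hU
  set Ui := Phi (φ.pull (zp (-1))) with hUi
  set Q := Phi φ.qC with hQ
  have hWQ : W * Q = 1 := φ.W_Q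
  have e1 : W * (φ.delta * U) - Phi ((1 - conj φ.a • zp 1) * φ.pull (zp 1)) * φ.delta =
      -((1 / 2 : ℂ) • (φ.lam * φ.kap) • (A * Phi (zp (-1) * (star φ.qC - φ.qC)) * A * Q)) := by
    rw [map_mul, mul_assoc, ← mul_sub, delta_U, A'_M, mul_smul_comm, mul_neg, mul_smul_comm,
      smul_neg]
    congr 3
    simp only [← mul_assoc]
    rw [hWQ, one_mul]
  have e2 : W * ((1 / 2 : ℂ) • (φ.A' * Ui * φ.A')) =
      (1 / 2 : ℂ) • (φ.lam * φ.kap) • (φ.lam * φ.kap) • (A * (Q * Ui * Q) * A * Q) := by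
    rw [mul_smul_comm, ← mul_assoc, ← mul_assoc, W_A']
    unfold A'
    rw [smul_mul_assoc, smul_mul_assoc, mul_smul_comm]
    simp only [mul_assoc]
    rfl
  have e3 : conj φ.a • (A * φ.A') = conj φ.a • (φ.lam * φ.kap) • (A * Q * A * Q) := by
    unfold A'
    rw [mul_smul_comm]
    simp only [mul_assoc]
    rfl
  have e4 : conj φ.a • (B * U) + φ.lam • B =
      (1 / 2 : ℂ) • (φ.lam * φ.kap) • (A * sh (-1) * A * Q) := by
    have h : Phi (φ.lam • (1 : C(Tc, ℂ)) + conj φ.a • φ.pull (zp 1)) =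
        (φ.lam * φ.kap) • Phi φ.qC := by rw [lam_q, map_smul]
    rw [map_add, map_smul, map_smul, map_one] at h
    have : conj φ.a • (B * U) + φ.lam • B = B * (φ.lam • 1 + conj φ.a • U) := by
      rw [mul_add, mul_smul_comm, mul_smul_comm, mul_one, add_comm]
    rw [this, h]
    unfold B
    rw [smul_mul_assoc, mul_smul_comm]
  have hF : Phi (-((1 / 2 : ℂ) • (zp (-1) * (star φ.qC - φ.qC))) +
    (1 / 2 : ℂ) • ((φ.lam * φ.kap) • (φ.qC * φ.pull (zp (-1)) * φ.qC)) - conj φ.a • φ.qC -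
    (1 / 2 : ℂ) • zp (-1)) = -((1 / 2 : ℂ) • Phi (zp (-1) * (star φ.qC - φ.qC))) +
    (1 / 2 : ℂ) • ((φ.lam * φ.kap) • (Q * Ui * Q)) - conj φ.a • Q - (1 / 2 : ℂ) • sh (-1) := by
    rw [map_sub, map_sub, map_add, map_neg, map_smul, map_smul, map_smul, map_smul, map_smul,
      map_mul Phi (φ.qC * φ.pull (zp (-1))), map_mul Phi φ.qC, Phi_zp]
  rw [F_zero, map_zero] at hF
  have e5 : A * (-((1 / 2 : ℂ) • Phi (zp (-1) * (star φ.qC - φ.qC))) +
    (1 / 2 : ℂ) • ((φ.lam * φ.kap) • (Q * Ui * Q)) - conj φ.a • Q - (1 / 2 : ℂ) • sh (-1)) *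
      A * Q = 0 := by
    rw [← hF, mul_zero, zero_mul, zero_mul]
  generalize Phi (zp (-1) * (star φ.qC - φ.qC)) = Φ1 at e1 e5
  simp only [mul_add, mul_sub, add_mul, sub_mul, mul_neg, neg_mul, mul_smul_comm,
    smul_mul_assoc] at e5
  rw [mul_add]
  linear_combination (norm := module) e1 + e2 - e3 - e4 + (φ.lam * φ.kap) • e5

/-- second order covariance -/
lemma cov2 : (1 - conj φ.a • sh 1) * (φ.rho * B + φ.delta * φ.rho * sh 1) -
      conj φ.a • (A * (φ.rho * A)) - conj φ.a • (B * (φ.rho * sh 1)) =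
    φ.lam • ((sh 1 - φ.a • 1) * (φ.delta * φ.rho)) + φ.lam • (B * φ.rho) := by
  have h := congrArg (fun F => F * φ.rho) φ.cov2'
  rw [W_eq, rho_B, mul_assoc φ.delta, rho_X, rho_A, ← smul_mul_assoc φ.lam, Xa_eq]
  simp only [sub_mul, add_mul, smul_mul_assoc, mul_assoc] at h ⊢
  exact h

end Mob

end MPaf71ff

end

section

/-!
The Hilbert space `H = E³`, triangular Toeplitz operator matrices `J a b c`, the operator `T` and
the intertwiners `G0 φ`.
-/

open scoped ComplexConjugate ENNReal Topology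
open Filter

namespace MPaf71ff

/-- `H = ℓ²(ℤ)³` -/
abbrev H : Type := PiLp 2 (fun _ : Fin 3 => E)

noncomputable def pr (i : Fin 3) : H →L[ℂ] E := PiLp.proj 2 (fun _ => E) i

lemma pr_apply (i : Fin 3) (x : H) : pr i x = x i := rfl

lemma norm_sq_H (x : H) : ‖x‖ ^ 2 = ∑ i, ‖pr i x‖ ^ 2 := PiLp.norm_sq_eq_of_L2 _ x

lemma ext_H {x y : H} (h : ∀ i, pr i x = pr i y) : x = y := by
  ext i m
  exact congrArg (fun z : E => (z : ℤ → ℂ) m) (h i)

/-- vector supported on one component -/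
noncomputable def sgl (i : Fin 3) (x : E) : H := WithLp.toLp 2 (fun j => if j = i then x else 0)

lemma pr_sgl (i j : Fin 3) (x : E) : pr i (sgl j x) = if i = j then x else 0 := rfl

lemma norm_sgl (i : Fin 3) (x : E) : ‖sgl i x‖ = ‖x‖ := by
  have h : ‖sgl i x‖ ^ 2 = ‖x‖ ^ 2 := by
    rw [norm_sq_H]
    rw [Finset.sum_eq_single i]
    · rw [pr_sgl, if_pos rfl]
    · intro j _ hj
      rw [pr_sgl, if_neg hj]; simp
    · simp
  exact (sq_eq_sq₀ (norm_nonneg _) (norm_nonneg _)).mp h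

noncomputable def inc (i : Fin 3) : E →L[ℂ] H :=
  LinearMap.mkContinuous
    { toFun := fun x => sgl i x
      map_add' := fun x y => by
        apply ext_H
        intro j
        rw [map_add, pr_sgl, pr_sgl, pr_sgl]
        split_ifs <;> simp
      map_smul' := fun c x => by
        apply ext_H
        intro j
        rw [map_smul, pr_sgl, pr_sgl]
        split_ifs <;> simp } 1 (fun x => by
      change ‖sgl i x‖ ≤ 1 * ‖x‖
      rw [one_mul, norm_sgl])

lemma inc_apply (i : Fin 3) (x : E) : inc i x = sgl i x := rfl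

lemma norm_inc (i : Fin 3) (x : E) : ‖inc i x‖ = ‖x‖ := by
  rw [inc_apply, norm_sgl]

lemma pr_inc (i j : Fin 3) (x : E) : pr i (inc j x) = if i = j then x else 0 := rfl

lemma pr_inc_same (i : Fin 3) (x : E) : pr i (inc i x) = x := by simp [pr_inc]

lemma norm_pr_le (i : Fin 3) (x : H) : ‖pr i x‖ ≤ ‖x‖ := PiLp.norm_apply_le x i

lemma sum_inc (x : H) : ∑ i, inc i (pr i x) = x := by
  apply ext_H
  intro i
  rw [map_sum]
  simp [pr_inc]

lemma inner_inc (i : Fin 3) (x : E) (y : H) : inner ℂ (inc i x) y = inner ℂ x (pr i y) := by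
  rw [PiLp.inner_apply]
  rw [Finset.sum_eq_single i]
  · rw [← pr_apply, pr_inc_same]; rfl
  · intro j _ hj
    rw [← pr_apply, pr_inc, if_neg hj, inner_zero_left]
  · simp

/-- block operator -/
noncomputable def opM (a : Fin 3 → Fin 3 → E →L[ℂ] E) : H →L[ℂ] H :=
  ∑ i, ∑ j, inc i ∘L a i j ∘L pr j

lemma opM_apply (a : Fin 3 → Fin 3 → E →L[ℂ] E) (x : H) :
    opM a x = ∑ i, ∑ j, inc i (a i j (pr j x)) := by
  unfold opM
  simp only [sum_apply]
  rfl

lemma pr_opM (a : Fin 3 → Fin 3 → E →L[ℂ] E) (i : Fin 3) (x : H) :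
    pr i (opM a x) = ∑ j, a i j (pr j x) := by
  rw [opM_apply, map_sum, Finset.sum_eq_single i]
  · rw [map_sum]; simp [pr_inc]
  · intro j _ hj
    rw [map_sum]
    simp [pr_inc, Ne.symm hj]
  · simp

lemma opM_mul (a b : Fin 3 → Fin 3 → E →L[ℂ] E) :
    opM a * opM b = opM (fun i k => ∑ j, a i j * b j k) := by
  ext1 x
  apply ext_H
  intro i
  rw [mul_apply_eq_comp, pr_opM, pr_opM]
  simp only [pr_opM, map_sum, sum_apply, mul_apply_eq_comp]
  rw [Finset.sum_comm]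

/-- upper triangular Toeplitz block operator -/
noncomputable def J (a b c : E →L[ℂ] E) : H →L[ℂ] H :=
  opM (fun i j => (![![a, b, c], ![0, a, b], ![0, 0, a]] : Fin 3 → Fin 3 → E →L[ℂ] E) i j)

lemma pr0_J (a b c : E →L[ℂ] E) (x : H) :
    pr 0 (J a b c x) = a (pr 0 x) + b (pr 1 x) + c (pr 2 x) := by
  unfold J; rw [pr_opM]; simp [Fin.sum_univ_three]

lemma pr1_J (a b c : E →L[ℂ] E) (x : H) :
    pr 1 (J a b c x) = a (pr 1 x) + b (pr 2 x) := by
  unfold J; rw [pr_opM]; simp [Fin.sum_univ_three]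

lemma pr2_J (a b c : E →L[ℂ] E) (x : H) : pr 2 (J a b c x) = a (pr 2 x) := by
  unfold J; rw [pr_opM]; simp [Fin.sum_univ_three]

lemma ext_pr {x y : H} (h0 : pr 0 x = pr 0 y) (h1 : pr 1 x = pr 1 y) (h2 : pr 2 x = pr 2 y) :
    x = y := by
  apply ext_H
  intro i
  fin_cases i
  · exact h0
  · exact h1
  · exact h2

lemma J_mul (a b c a' b' c' : E →L[ℂ] E) :
    J a b c * J a' b' c' = J (a * a') (a * b' + b * a') (a * c' + b * b' + c * a') := by
  ext1 x
  rw [mul_apply_eq_comp]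
  apply ext_pr
  · simp only [pr0_J, pr1_J, pr2_J, add_apply, mul_apply_eq_comp, map_add]
    abel
  · simp only [pr1_J, pr2_J, add_apply, mul_apply_eq_comp, map_add]
    abel
  · simp only [pr2_J, mul_apply_eq_comp]

lemma J_one : J 1 0 0 = 1 := by
  ext1 x
  apply ext_pr
  · rw [pr0_J]; simp
  · rw [pr1_J]; simp
  · rw [pr2_J]; simp

lemma J_add (a b c a' b' c' : E →L[ℂ] E) :
    J a b c + J a' b' c' = J (a + a') (b + b') (c + c') := by
  ext1 x
  rw [add_apply]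
  apply ext_pr
  · simp only [pr0_J, map_add, add_apply]; abel
  · simp only [pr1_J, map_add, add_apply]; abel
  · simp only [pr2_J, map_add, add_apply]

lemma J_smul (r : ℂ) (a b c : E →L[ℂ] E) : r • J a b c = J (r • a) (r • b) (r • c) := by
  ext1 x
  rw [smul_apply]
  apply ext_pr
  · simp only [pr0_J, map_smul, smul_apply, smul_add]
  · simp only [pr1_J, map_smul, smul_apply, smul_add]
  · simp only [pr2_J, map_smul, smul_apply]

lemma J_sub (a b c a' b' c' : E →L[ℂ] E) :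
    J a b c - J a' b' c' = J (a - a') (b - b') (c - c') := by
  ext1 x
  rw [sub_apply]
  apply ext_pr
  · simp only [pr0_J, map_sub, sub_apply]; abel
  · simp only [pr1_J, map_sub, sub_apply]; abel
  · simp only [pr2_J, map_sub, sub_apply]

lemma J_norm (a b c : E →L[ℂ] E) : ‖J a b c‖ ≤ 3 * (‖a‖ + ‖b‖ + ‖c‖) := by
  refine ContinuousLinearMap.opNorm_le_bound _ (by positivity) (fun x => ?_)
  have h0 := norm_pr_le 0 x
  have h1 := norm_pr_le 1 x
  have h2 := norm_pr_le 2 x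
  have hx := norm_nonneg x
  have ha : ∀ (F : E →L[ℂ] E) (i : Fin 3), ‖F (pr i x)‖ ≤ ‖F‖ * ‖x‖ := fun F i =>
    (F.le_opNorm _).trans (mul_le_mul_of_nonneg_left (norm_pr_le i x) (norm_nonneg _))
  have e1 : ‖J a b c x‖ ≤ ∑ i, ‖pr i (J a b c x)‖ := by
    conv_lhs => rw [← sum_inc (J a b c x)]
    refine (norm_sum_le _ _).trans (le_of_eq ?_)
    simp only [norm_inc]
  rw [Fin.sum_univ_three, pr0_J, pr1_J, pr2_J] at e1
  have n0 : ‖a (pr 0 x) + b (pr 1 x) + c (pr 2 x)‖ ≤ (‖a‖ + ‖b‖ + ‖c‖) * ‖x‖ := by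
    refine (norm_add₃_le).trans ?_
    have := ha a 0; have := ha b 1; have := ha c 2
    linarith
  have n1 : ‖a (pr 1 x) + b (pr 2 x)‖ ≤ (‖a‖ + ‖b‖) * ‖x‖ := by
    refine (norm_add_le _ _).trans ?_
    have := ha a 1; have := ha b 2
    linarith
  have n2 := ha a 2
  have : 0 ≤ ‖b‖ * ‖x‖ := by positivity
  have : 0 ≤ ‖c‖ * ‖x‖ := by positivity
  nlinarith

lemma J_isUnit {a r : E →L[ℂ] E} (h1 : a * r = 1) (h2 : r * a = 1) (b c : E →L[ℂ] E) :
    IsUnit (J a b c) := by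
  refine ⟨⟨J a b c, J r (-(r * b * r)) (-(r * c * r) + r * b * r * b * r), ?_, ?_⟩, rfl⟩
  · rw [J_mul, h1, ← J_one]
    congr 1
    · rw [mul_neg, ← mul_assoc, ← mul_assoc, h1, one_mul, neg_add_cancel]
    · rw [mul_add, mul_neg, mul_neg]
      simp only [← mul_assoc]
      rw [h1]
      simp only [one_mul]
      abel
  · rw [J_mul, h2, ← J_one]
    congr 1
    · rw [neg_mul, mul_assoc _ r a, h2, mul_one, add_neg_cancel]
    · rw [add_mul, neg_mul, neg_mul, mul_assoc _ r a, mul_assoc _ r a, h2, mul_one, mul_one]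
      simp only [mul_assoc]
      abel

/-- the operator `T` -/
noncomputable def T : H →L[ℂ] H := J (sh 1) A B

/-- the nilpotent operator on the multiplicity space -/
noncomputable def N : H →L[ℂ] H := J 0 1 0

lemma N_J (a b c : E →L[ℂ] E) : N * J a b c = J a b c * N := by
  unfold N; rw [J_mul, J_mul]; simp

namespace Mob

variable (φ ψ χ : Mob)

/-- the intertwiner -/
noncomputable def G0 : H →L[ℂ] H := J φ.rho 0 (φ.delta * φ.rho)

/-- its inverse -/
noncomputable def G0i : H →L[ℂ] H := J (star φ.rho) 0 (-(star φ.rho * φ.delta))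

lemma rho_mul_star : φ.rho * star φ.rho = 1 := by rw [star_rho, rho_mul_inv]

lemma G0_mul_G0i : φ.G0 * φ.G0i = 1 := by
  unfold G0 G0i
  rw [J_mul, rho_mul_star, ← J_one]
  congr 1
  · simp
  · rw [mul_neg, ← mul_assoc, mul_assoc φ.delta, rho_mul_star]; simp

lemma G0i_mul_G0 : φ.G0i * φ.G0 = 1 := by
  unfold G0 G0i
  rw [J_mul, star_rho_mul, ← J_one]
  congr 1
  · simp
  · rw [← mul_assoc, neg_mul]; simp

lemma norm_star_rho : ‖star φ.rho‖ ≤ 1 := by rw [star_rho]; exact φ.inv.rho_norm_le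

lemma G0_norm : ‖φ.G0‖ ≤ 51 := by
  unfold G0
  refine (J_norm _ _ _).trans ?_
  have h1 := φ.rho_norm_le
  have h2 := φ.delta_norm
  have h3 : ‖φ.delta * φ.rho‖ ≤ 16 * 1 := (norm_mul_le _ _).trans (by gcongr)
  rw [norm_zero]
  linarith

lemma G0i_norm : ‖φ.G0i‖ ≤ 51 := by
  unfold G0i
  refine (J_norm _ _ _).trans ?_
  have h1 := φ.norm_star_rho
  have h2 := φ.delta_norm
  have h3 : ‖star φ.rho * φ.delta‖ ≤ 1 * 16 := (norm_mul_le _ _).trans (by gcongr)
  rw [norm_zero, norm_neg]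
  linarith

lemma one_sub_T : (1 : H →L[ℂ] H) - conj φ.a • T =
    J (1 - conj φ.a • sh 1) (-(conj φ.a • A)) (-(conj φ.a • B)) := by
  unfold T
  rw [← J_one, J_smul, J_sub, zero_sub, zero_sub]

lemma T_sub : T - φ.a • (1 : H →L[ℂ] H) = J (sh 1 - φ.a • 1) A B := by
  unfold T
  rw [← J_one, J_smul, J_sub, smul_zero, sub_zero, sub_zero]

/-- covariance of `T` -/
lemma cov : ((1 : H →L[ℂ] H) - conj φ.a • T) * (φ.G0 * T) =
    φ.lam • ((T - φ.a • (1 : H →L[ℂ] H)) * φ.G0) := by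
  rw [one_sub_T, T_sub]
  unfold G0 T
  rw [J_mul, J_mul, J_mul, J_smul]
  have h0 := φ.cov0
  have h1 := φ.cov1
  have h2 := φ.cov2
  congr 1
  · simp only [zero_mul, add_zero, mul_zero, zero_add, neg_mul, smul_mul_assoc]
    rw [← sub_eq_add_neg]
    exact h1
  · simp only [zero_mul, add_zero, mul_zero, neg_mul, smul_mul_assoc, smul_add]
    rw [← sub_eq_add_neg, ← sub_eq_add_neg]
    exact h2

lemma isUnit_one_sub_T : IsUnit ((1 : H →L[ℂ] H) - conj φ.a • T) := by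
  rw [one_sub_T]
  refine J_isUnit (r := Phi φ.qC) ?_ ?_ _ _
  · rw [W_eq, W_Q]
  · rw [W_eq, Phi_comm, W_Q]

lemma op_T : φ.op T = φ.G0 * T * φ.G0i := by
  obtain ⟨u, hu⟩ := φ.isUnit_one_sub_T
  unfold op
  rw [← hu, Ring.inverse_unit]
  have h1 := φ.cov
  rw [← hu] at h1
  have hc : Commute (T - φ.a • (1 : H →L[ℂ] H)) (u : H →L[ℂ] H) := by
    rw [hu]
    have h2 : Commute T T := Commute.refl T
    have h3 : Commute (T - φ.a • (1 : H →L[ℂ] H)) T :=
      h2.sub_left ((Commute.one_left T).smul_left _)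
    exact (Commute.one_right _).sub_right (h3.smul_right _)
  have hc2 : (T - φ.a • (1 : H →L[ℂ] H)) * ((u⁻¹ : (H →L[ℂ] H)ˣ) : H →L[ℂ] H) =
      ((u⁻¹ : (H →L[ℂ] H)ˣ) : H →L[ℂ] H) * (T - φ.a • (1 : H →L[ℂ] H)) := hc.units_inv_right.eq
  rw [hc2, ← mul_smul_comm]
  have h4 : φ.lam • (T - φ.a • (1 : H →L[ℂ] H)) = (u : H →L[ℂ] H) * (φ.G0 * T) * φ.G0i := by
    rw [h1, smul_mul_assoc, mul_assoc, G0_mul_G0i, mul_one]
  rw [h4, mul_assoc (u : H →L[ℂ] H), ← mul_assoc, Units.inv_mul, one_mul]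

variable {φ ψ χ}

lemma IsComp.G0 (h : IsComp χ ψ φ) : χ.G0 = φ.G0 * ψ.G0 := by
  unfold Mob.G0
  rw [J_mul, h.rho, h.delta]
  congr 1
  · simp
  · unfold cj
    simp only [zero_mul, add_zero, add_mul, mul_assoc]
    rw [← mul_assoc (star φ.rho), star_rho_mul, one_mul, add_comm]

end Mob

lemma sh_isUnit_left : sh 1 * sh (-1) = 1 := by rw [sh_mul]; simp [sh_zero]
lemma sh_isUnit_right : sh (-1) * sh 1 = 1 := by rw [sh_mul]; simp [sh_zero]

lemma T_isUnit : IsUnit T := J_isUnit sh_isUnit_left sh_isUnit_right A B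

lemma T_spectrum : spectrum ℂ T ⊆ Metric.closedBall 0 1 := by
  intro μ hμ
  by_contra hn
  have hn' : μ ∉ spectrum ℂ (sh 1) := by
    intro h
    apply hn
    have := spec_sh h
    simpa using (show ‖μ‖ = 1 by simpa using this).le
  rw [spectrum.notMem_iff] at hn'
  obtain ⟨u, hu⟩ := hn'
  apply hμ
  have h1 : algebraMap ℂ (H →L[ℂ] H) μ - T = J (algebraMap ℂ (E →L[ℂ] E) μ - sh 1) (-A) (-B) := by
    unfold T
    rw [Algebra.algebraMap_eq_smul_one, Algebra.algebraMap_eq_smul_one, ← J_one, J_smul, J_sub,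
      smul_zero, zero_sub, zero_sub]
  rw [spectrum.mem_resolventSet_iff, h1, ← hu]
  exact J_isUnit (Units.mul_inv u) (Units.inv_mul u) _ _

instance : TopologicalSpace.SeparableSpace E := by
  rw [← TopologicalSpace.isSeparable_univ_iff]
  have h1 : TopologicalSpace.IsSeparable (Set.range e) := (Set.countable_range e).isSeparable
  have h2 := (h1.span (R := ℂ)).closure
  convert! h2 using 1
  symm
  rw [Set.eq_univ_iff_forall]
  intro x
  refine mem_closure_of_tendsto (hasSum_e x) (Filter.Eventually.of_forall fun s => ?_)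
  exact Submodule.sum_mem _ fun i _ =>
    Submodule.smul_mem _ _ (Submodule.subset_span (Set.mem_range_self i))

instance : TopologicalSpace.SeparableSpace H := inferInstance

end MPaf71ff

end
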